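import Pool.Agent.Helper76.UF.Defs2

/-!
# Linear spaces in cubic hypersurfaces: change of coordinates
-/

namespace Pool.Agent.Helper76.UF

variable {m : ℕ} {ω ω' : Type*} [Fintype ω] [Fintype ω'] {K : Type*} [Field K]

open scoped Classical in
theorem p6_actP_actP (G : Matrix (Ix m ω) (Ix m ω') K)
    (G' : Matrix (Ix m ω') (Ix m ω) K) (h : G * G' = 1) (p : Par m ω → K) :
    actP G (actP G' p) = p := by
  funext x
  rcases x with ⟨c, l⟩ | l | x
  · have h1 : gP (actP G' p) c = G'.mulVec (gP p c) := rfl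
    change G.mulVec (gP (actP G' p) c) l = p (.inl (c, l))
    rw [h1, Matrix.mulVec_mulVec, h, Matrix.one_mulVec]
    rfl
  · have h1 : tP (actP G' p) = G'.mulVec (tP p) := rfl
    change G.mulVec (tP (actP G' p)) l = p (.inr (.inl l))
    rw [h1, Matrix.mulVec_mulVec, h, Matrix.one_mulVec]
    rfl
  · rfl

omit [Fintype ω] in
theorem p6_mulVec_du (G : Matrix (Ix m ω) (Ix m ω') K) (x a : Ix m ω' → K) :
    (G.map (TrivSqZeroExt.inlHom K K)).mulVec (du x a) = du (G.mulVec x) (G.mulVec a) := by
  funext l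
  refine dual_ext ?_ ?_
  · rw [fst_du, Matrix.mulVec, dotProduct, TrivSqZeroExt.fst_sum]
    refine Finset.sum_congr rfl fun i _ => ?_
    rw [TrivSqZeroExt.fst_mul, fst_du]
    simp
  · rw [snd_du, Matrix.mulVec, dotProduct, TrivSqZeroExt.snd_sum]
    refine Finset.sum_congr rfl fun i _ => ?_
    rw [TrivSqZeroExt.snd_mul, snd_du, fst_du]
    simp

omit [Fintype ω] in
theorem p6_snd_mulVec (G : Matrix (Ix m ω) (Ix m ω') K) (X : Ix m ω' → DualNumber K)
    (l : Ix m ω) :
    ((G.map (TrivSqZeroExt.inlHom K K)).mulVec X l).snd = G.mulVec (fun l => (X l).snd) l := by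
  rw [Matrix.mulVec, dotProduct, TrivSqZeroExt.snd_sum]
  refine Finset.sum_congr rfl fun i _ => ?_
  rw [TrivSqZeroExt.snd_mul]
  simp

omit [Fintype ω] in
theorem p6_actP_du (G : Matrix (Ix m ω) (Ix m ω') K) (p v : Par m ω' → K) :
    actP (G.map (TrivSqZeroExt.inlHom K K)) (du p v) = du (actP G p) (actP G v) := by
  funext x
  rcases x with ⟨c, l⟩ | l | x
  · exact congrFun (p6_mulVec_du G (gP p c) (gP v c)) l
  · exact congrFun (p6_mulVec_du G (tP p) (tP v)) l
  · rfl

theorem p6_dch (D : Ten (Ix m ω) K) (G : Matrix (Ix m ω) (Ix m ω') K)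
    (U' : Fin m → Ix m ω' → K) (π' : ℕ → Par m ω' → K) (a : Fin m → Ix m ω' → K)
    (v : ℕ → Par m ω' → K) (n : ℕ) (i : Fin m) :
    G.mulVec (dch (compT D G) U' π' a v n i) =
      dch D (fun i => G.mulVec (U' i)) (fun k => actP G (π' k)) (fun i => G.mulVec (a i))
        (fun k => actP G (v k)) n i := by
  have h := mulVec_chain (dT D) (fun i => du (U' i) (a i))
    (G.map (TrivSqZeroExt.inlHom K K)) (fun k => du (π' k) (v k)) n i
  simp only [p6_mulVec_du, p6_actP_du] at h
  have e : dT (compT D G) = compT (dT D) (G.map (TrivSqZeroExt.inlHom K K)) :=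
    mapT_compT D (TrivSqZeroExt.inlHom K K) G
  funext l
  rw [dch, ← h, p6_snd_mulVec, ← e]
  rfl

open scoped Classical in
/-- Explicit form of `transfer`. Proof. Take `π' k = actP G' (π k)`, so `actP G (π' k) = π k`. By `mulVec_chain`,
`G.mulVec (chain (compT D G) U' π' n i) = chain D U π n i`; `QM (compT D G) _ (gP (π' i))` and
`wf (compT D G) ..` are the corresponding expressions for `D`, `U`, `π` (`QM_compT`, `wf_compT`,
`mulVec_yP`). Over the dual numbers `dT (compT D G) = compT (dT D) (G.map inl)` (`mapT_compT`), so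
`G.mulVec (dch (compT D G) U' π' 0 v n i) = dch D U π 0 (fun k => actP G (v k)) n i`; since
`v ↦ actP G v` is bijective, the injective linear map `b ↦ (i ↦ G.mulVec (b i))` maps
`Sn (compT D G) U' π' n` onto `Sn D U π n`. -/
theorem transfer_explicit (D : Ten (Ix m ω) K) (G : Matrix (Ix m ω) (Ix m ω') K)
    (G' : Matrix (Ix m ω') (Ix m ω) K) (h : G * G' = 1) (h' : G' * G = 1)
    (U : Fin m → Ix m ω → K) (U' : Fin m → Ix m ω' → K) (hU : ∀ i, G.mulVec (U' i) = U i)
    (π : ℕ → Par m ω → K) (n : ℕ) (hg : Good D U π n) :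
    (∀ i j, chain (compT D G) U' (fun k => actP G' (π k)) i j =
      G'.mulVec (chain D U π i j)) ∧
    Good (compT D G) U' (fun k => actP G' (π k)) n ∧
      Module.finrank K (Sn (compT D G) U' (fun k => actP G' (π k)) n) =
        Module.finrank K (Sn D U π n) := by
  have hU2 : (fun i => G.mulVec (U' i)) = U := funext hU
  have hP : ∀ p : Par m ω → K, actP G (actP G' p) = p := p6_actP_actP G G' h
  have hc : ∀ i, (fun j => G.mulVec (chain (compT D G) U' (fun k => actP G' (π k)) i j)) =
      chain D U π i := by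
    intro i
    funext j
    rw [mulVec_chain, hU2]
    simp only [hP]
  refine ⟨?_, ⟨?_, ?_⟩, ?_⟩
  · intro i j
    have h1 := congrFun (hc i) j
    have h2 : G.mulVec (chain (compT D G) U' (fun k => actP G' (π k)) i j) =
      chain D U π i j := h1
    rw [← h2, Matrix.mulVec_mulVec, h', Matrix.one_mulVec]
  · intro i hi
    have h1 := hg.det i hi
    rw [QM_compT, hc]
    have h2 : (fun c => G.mulVec (gP (actP G' (π i)) c)) = gP (π i) := by
      have h3 : gP (actP G (actP G' (π i))) = fun c => G.mulVec (gP (actP G' (π i)) c) := rfl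
      rw [← h3, hP]
    rw [h2]
    exact h1
  · intro i hi
    have h1 := hg.w i hi
    rw [wf_compT, mulVec_yP, hc, hP]
    exact h1
  · let e : (Fin m → Ix m ω' → K) ≃ₗ[K] (Fin m → Ix m ω → K) :=
      { toFun := fun b i => G.mulVec (b i)
        map_add' := fun b c => by
          funext i
          exact Matrix.mulVec_add G (b i) (c i)
        map_smul' := fun r b => by
          funext i
          exact Matrix.mulVec_smul G r (b i)
        invFun := fun b i => G'.mulVec (b i)
        left_inv := fun b => by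
          funext i
          change G'.mulVec (G.mulVec (b i)) = b i
          rw [Matrix.mulVec_mulVec, h', Matrix.one_mulVec]
        right_inv := fun b => by
          funext i
          change G.mulVec (G'.mulVec (b i)) = b i
          rw [Matrix.mulVec_mulVec, h, Matrix.one_mulVec] }
    have key : ∀ v : ℕ → Par m ω' → K,
        e (dch (compT D G) U' (fun k => actP G' (π k)) 0 v n) =
          dch D U π 0 (fun k => actP G (v k)) n := by
      intro v
      funext i
      change G.mulVec (dch (compT D G) U' (fun k => actP G' (π k)) 0 v n i) = _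
      rw [p6_dch, hU2]
      simp only [hP]
      have h0 : (fun i => G.mulVec ((0 : Fin m → Ix m ω' → K) i)) = 0 := by
        funext i
        exact Matrix.mulVec_zero G
      rw [h0]
    have hmap : (Sn (compT D G) U' (fun k => actP G' (π k)) n).map e.toLinearMap =
        Sn D U π n := by
      ext b
      rw [Submodule.mem_map]
      constructor
      · rintro ⟨a, ha, rfl⟩
        obtain ⟨v, rfl⟩ := (mem_Sn _ _ _ _ _).1 ha
        exact (mem_Sn _ _ _ _ _).2 ⟨fun k => actP G (v k), (key v).symm⟩
      · intro hb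
        obtain ⟨v, rfl⟩ := (mem_Sn _ _ _ _ _).1 hb
        refine ⟨dch (compT D G) U' (fun k => actP G' (π k)) 0 (fun k => actP G' (v k)) n,
          (mem_Sn _ _ _ _ _).2 ⟨_, rfl⟩, ?_⟩
        have h1 := key (fun k => actP G' (v k))
        simp only [hP] at h1
        exact h1
    rw [← hmap]
    exact (LinearEquiv.finrank_map_eq e _).symm

open scoped Classical in
/-- Change of coordinates. -/
theorem transfer (D : Ten (Ix m ω) K) (G : Matrix (Ix m ω) (Ix m ω') K)
    (G' : Matrix (Ix m ω') (Ix m ω) K) (h : G * G' = 1) (h' : G' * G = 1)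
    (U : Fin m → Ix m ω → K) (U' : Fin m → Ix m ω' → K) (hU : ∀ i, G.mulVec (U' i) = U i)
    (π : ℕ → Par m ω → K) (n : ℕ) (hg : Good D U π n) :
    ∃ π' : ℕ → Par m ω' → K, Good (compT D G) U' π' n ∧
      Module.finrank K (Sn (compT D G) U' π' n) = Module.finrank K (Sn D U π n) :=
  ⟨_, (transfer_explicit D G G' h h' U U' hU π n hg).2⟩

end Pool.Agent.Helper76.UF
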