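import Pool.Agent.Helper76.UF.St.P7

/-!
# Linear spaces in cubic hypersurfaces: spanning predecessors for nearby forms
-/

namespace Pool.Agent.Helper76.UF

open Topology

variable {m : ℕ} {ω : Type*} [Fintype ω]

section p7b

theorem p7b_tri (D E : Ten (Ix m ω) ℝ) (x0 : p7X m ω) (u v w : p7X m ω → Ix m ω → ℝ)
    (hu : ∀ i, ContinuousAt (fun x => u x i) x0) (hv : ∀ i, ContinuousAt (fun x => v x i) x0)
    (hw : ∀ i, ContinuousAt (fun x => w x i) x0) :
    ContinuousAt (fun x : p7X m ω => tri (D + x.1 • E) (u x) (v x) (w x)) x0 := by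
  simp only [tri]
  refine tendsto_finset_sum _ fun i _ => tendsto_finset_sum _ fun j _ =>
    tendsto_finset_sum _ fun k _ => ?_
  have h1 : ContinuousAt (fun x : p7X m ω => (D + x.1 • E) i j k) x0 := by
    have : (fun x : p7X m ω => (D + x.1 • E) i j k) = fun x => D i j k + x.1 * E i j k := by
      funext x
      simp
    rw [this]
    exact continuousAt_const.add (continuousAt_fst.mul continuousAt_const)
  exact ((h1.mul (hu i)).mul (hv j)).mul (hw k)

theorem p7b_xp (x0 : p7X m ω) (i : Ix m ω) :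
    ContinuousAt (fun x : p7X m ω => (xp x.2.1 : Ix m ω → ℝ) i) x0 :=
  (p7_contDiff_xp i).continuous.continuousAt

theorem p7b_l (x0 : p7X m ω) (i : Fin m) : ContinuousAt (fun x : p7X m ω => x.2.2.1 i) x0 := by
  have h1 : Continuous fun x : p7X m ω => x.2.2.1 :=
    continuous_fst.comp (continuous_snd.comp continuous_snd)
  exact ((continuous_pi_iff.1 h1) i).continuousAt

theorem p7b_s (x0 : p7X m ω) : ContinuousAt (fun x : p7X m ω => x.2.2.2) x0 :=
  (continuous_snd.comp (continuous_snd.comp continuous_snd)).continuousAt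

theorem p7b_pre (x0 : p7X m ω) (h0 : x0.2.2.2 ≠ 0) (i : Fin m) (k : Ix m ω) :
    ContinuousAt (fun x : p7X m ω => pre (xp x.2.1) x.2.2.1 x.2.2.2 i k) x0 := by
  simp only [pre, Pi.sub_apply, Pi.smul_apply, smul_eq_mul]
  exact continuousAt_const.sub (((p7b_l x0 i).div (p7b_s x0) h0).mul (p7b_xp x0 k))

/-- the matrix -/
noncomputable def p7b_M (D E : Ten (Ix m ω) ℝ) (g : Pr m → Ix m ω → ℝ) (x : p7X m ω) :
    Matrix (Pr m) (Pr m) ℝ :=
  QM (D + x.1 • E) (pre (xp x.2.1) x.2.2.1 x.2.2.2) g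

theorem p7b_M_cont (D E : Ten (Ix m ω) ℝ) (g : Pr m → Ix m ω → ℝ) (x0 : p7X m ω)
    (h0 : x0.2.2.2 ≠ 0) : ContinuousAt (p7b_M D E g) x0 := by
  have h1 : ∀ e c, ContinuousAt (fun x => p7b_M D E g x e c) x0 := by
    intro e c
    exact p7b_tri D E x0 _ _ _ (fun i => p7b_pre x0 h0 _ i) (fun i => p7b_pre x0 h0 _ i)
      (fun i => continuousAt_const)
  exact continuousAt_pi.2 fun e => continuousAt_pi.2 fun c => h1 e c

/-- the direction -/
noncomputable def p7b_V (D E : Ten (Ix m ω) ℝ) (g : Pr m → Ix m ω → ℝ) (v : Ix m ω → ℝ)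
    (x : p7X m ω) : Ix m ω → ℝ :=
  (p7b_M D E g x).det⁻¹ • stepY (D + x.1 • E) (pre (xp x.2.1) x.2.2.1 x.2.2.2) g v

theorem p7b_V_cont (D E : Ten (Ix m ω) ℝ) (g : Pr m → Ix m ω → ℝ) (v : Ix m ω → ℝ)
    (x0 : p7X m ω) (h0 : x0.2.2.2 ≠ 0) (hdet : (p7b_M D E g x0).det ≠ 0) (k : Ix m ω) :
    ContinuousAt (fun x => p7b_V D E g v x k) x0 := by
  have hM := p7b_M_cont D E g x0 h0
  have h1 : ContinuousAt (fun x => (p7b_M D E g x).det) x0 :=
    ContinuousAt.comp (g := fun A : Matrix (Pr m) (Pr m) ℝ => A.det)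
      (continuous_id.matrix_det).continuousAt hM
  have h2 : ContinuousAt (fun x => (p7b_M D E g x).adjugate) x0 :=
    ContinuousAt.comp (g := fun A : Matrix (Pr m) (Pr m) ℝ => A.adjugate)
      (continuous_id.matrix_adjugate).continuousAt hM
  have h2' : ∀ e c, ContinuousAt (fun x => (p7b_M D E g x).adjugate e c) x0 := by
    intro e c
    exact continuousAt_pi.1 (continuousAt_pi.1 h2 e) c
  have h3 : ∀ e, ContinuousAt (fun x : p7X m ω =>
      qf (D + x.1 • E) (pre (xp x.2.1) x.2.2.1 x.2.2.2) v e) x0 := by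
    intro e
    exact p7b_tri D E x0 _ _ _ (fun i => p7b_pre x0 h0 _ i) (fun i => p7b_pre x0 h0 _ i)
      (fun i => continuousAt_const)
  have h4 : ContinuousAt (fun x : p7X m ω => (p7b_M D E g x).det * v k -
      ∑ c, (∑ e, (p7b_M D E g x).adjugate c e *
        qf (D + x.1 • E) (pre (xp x.2.1) x.2.2.1 x.2.2.2) v e) * g c k) x0 := by
    refine (h1.mul continuousAt_const).sub (tendsto_finset_sum _ fun c _ => ?_)
    exact (tendsto_finset_sum _ fun e _ => (h2' c e).mul (h3 e)).mul continuousAt_const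
  have h5 : (fun x => p7b_V D E g v x k) = fun x : p7X m ω => (p7b_M D E g x).det⁻¹ *
      ((p7b_M D E g x).det * v k -
      ∑ c, (∑ e, (p7b_M D E g x).adjugate c e *
        qf (D + x.1 • E) (pre (xp x.2.1) x.2.2.1 x.2.2.2) v e) * g c k) := by
    funext x
    simp only [p7b_V, stepY, Pi.smul_apply, Pi.sub_apply, Finset.sum_apply, smul_eq_mul,
      Matrix.mulVec, dotProduct]
    rfl
  rw [h5]
  exact (h1.inv₀ hdet).mul h4

/-- the family of directions -/
noncomputable def p7b_F (D E : Ten (Ix m ω) ℝ) (g : Pr m → Ix m ω → ℝ) (v : Ix m ω → ℝ)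
    (x : p7X m ω) : Fin m → Ix m ω → ℝ :=
  BB (D + x.1 • E) (xp x.2.1) x.2.2.1 x.2.2.2 (p7b_V D E g v x)

theorem p7b_F_cont (D E : Ten (Ix m ω) ℝ) (g : Pr m → Ix m ω → ℝ) (v : Ix m ω → ℝ)
    (x0 : p7X m ω) (h0 : x0.2.2.2 ≠ 0) (hdet : (p7b_M D E g x0).det ≠ 0) :
    ContinuousAt (p7b_F D E g v) x0 := by
  refine continuousAt_pi.2 fun i => continuousAt_pi.2 fun k => ?_
  have hV := p7b_V_cont D E g v x0 h0 hdet
  have h1 := p7b_tri D E x0 (fun _ => std m ω ℝ i) (fun x => xp x.2.1) (p7b_V D E g v)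
    (fun i => continuousAt_const) (fun i => p7b_xp x0 i) hV
  have h2 := p7b_tri D E x0 (fun x => xp x.2.1) (fun x => xp x.2.1) (p7b_V D E g v)
    (fun i => p7b_xp x0 i) (fun i => p7b_xp x0 i) hV
  have h3 := (p7b_l x0 i).div (p7b_s x0) h0
  have h4 : (fun x => p7b_F D E g v x i k) = fun x : p7X m ω =>
      (x.2.2.1 i / x.2.2.2) * p7b_V D E g v x k -
      ((6 * tri (D + x.1 • E) (std m ω ℝ i) (xp x.2.1) (p7b_V D E g v x) -
        3 * (x.2.2.1 i / x.2.2.2) *
          tri (D + x.1 • E) (xp x.2.1) (xp x.2.1) (p7b_V D E g v x)) / x.2.2.2 ^ 2) *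
        (xp x.2.1 : Ix m ω → ℝ) k := by
    funext x
    simp only [p7b_F, BB, Pi.sub_apply, Pi.smul_apply, smul_eq_mul]
  rw [h4]
  refine (h3.mul (hV k)).sub (ContinuousAt.mul (ContinuousAt.div ?_ ((p7b_s x0).pow 2)
    (pow_ne_zero 2 h0)) (p7b_xp x0 k))
  exact (continuousAt_const.mul h1).sub ((continuousAt_const.mul h3).mul h2)

theorem p7b_near (D E : Ten (Ix m ω) ℝ) (hD : IsSym D) (hE : IsSym E)
    (h0 : VanOn D (std m ω ℝ)) (h1 : VanOn E (std m ω ℝ)) (b : Fin m → Ix m ω → ℝ)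
    (hb : b ∈ PS D) (N : Set (Fin m → Ix m ω → ℝ)) (hN : N ∈ 𝓝 b) :
    ∀ᶠ t in 𝓝 (0 : ℝ), ∃ b' ∈ N, b' ∈ PS (D + t • E) := by
  obtain ⟨p, l, s, g, v, hP, rfl⟩ := hb
  obtain ⟨q, hq⟩ : ∃ q : ω → ℝ, p = xp q := by
    refine ⟨fun a => p (.inr a), ?_⟩
    funext x
    rcases x with x | x
    · exact hP.supp x
    · rfl
  subst hq
  have hs := hP.fan.s0
  have hM0 : p7b_M D E g (0, q, l, s) = QM D (pre (xp q) l s) g := by
    simp only [p7b_M, zero_smul, add_zero]
  have hdet : (p7b_M D E g (0, q, l, s)).det ≠ 0 := by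
    rw [hM0]
    exact hP.det
  have hV0 : p7b_V D E g v (0, q, l, s) = v := by
    simp only [p7b_V]
    rw [hM0]
    simp only [zero_smul, add_zero]
    rw [stepY_of_qf D _ g v hP.ker, smul_smul, inv_mul_cancel₀ hP.det, one_smul]
  have hF0 : p7b_F D E g v (0, q, l, s) = BB D (xp q) l s v := by
    simp only [p7b_F, hV0, zero_smul, add_zero]
  have hc := p7b_F_cont D E g v (0, q, l, s) hs hdet
  have hd : ContinuousAt (fun x => (p7b_M D E g x).det) ((0, q, l, s) : p7X m ω) :=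
    ContinuousAt.comp (g := fun A : Matrix (Pr m) (Pr m) ℝ => A.det)
      (continuous_id.matrix_det).continuousAt (p7b_M_cont D E g (0, q, l, s) hs)
  have hW : {x : p7X m ω | p7b_F D E g v x ∈ N ∧ (p7b_M D E g x).det ≠ 0} ∈
      𝓝 ((0, q, l, s) : p7X m ω) := by
    refine Filter.inter_mem ?_ ?_
    · have : N ∈ 𝓝 (p7b_F D E g v (0, q, l, s)) := by
        rw [hF0]
        exact hN
      exact hc this
    · exact hd (isOpen_ne.mem_nhds hdet)
  rw [mem_nhds_prod_iff] at hW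
  obtain ⟨A, hA, B, hB, hAB⟩ := hW
  filter_upwards [hA, fan_cont D E hD hE h0 h1 q l s hP.fan g hP.det B hB] with t ht hx
  obtain ⟨x, hxB, hxF⟩ := hx
  have hmem : ((t, x) : p7X m ω) ∈ {x : p7X m ω | p7b_F D E g v x ∈ N ∧
      (p7b_M D E g x).det ≠ 0} := hAB ⟨ht, hxB⟩
  refine ⟨p7b_F D E g v (t, x), hmem.1, xp x.1, x.2.1, x.2.2, g, p7b_V D E g v (t, x),
    ⟨hxF, fun i => rfl, hmem.2, ?_⟩, rfl⟩
  simp only [p7b_V]
  rw [qf_smul, qf_stepY, smul_zero]

theorem p7b_PS_TS (D : Ten (Ix m ω) ℝ) (hD : IsSym D) (h0 : VanOn D (std m ω ℝ))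
    (b : Fin m → Ix m ω → ℝ) (hb : b ∈ PS D) : b ∈ TS D (std m ω ℝ) := by
  obtain ⟨p, l, s, g, v, hP, rfl⟩ := hb
  obtain ⟨π0, _, _, h3, h4⟩ := pred_step hD h0 hP.fan g hP.det
  obtain ⟨v0, hv0⟩ := h4 v hP.ker
  rw [← hv0]
  have h5 := dstep_mem_TS hD (vanOn_pre hD h0 hP.fan) π0 (Submodule.zero_mem _) v0
  rw [h3] at h5
  exact h5

theorem p7b_frm_TS (D : Ten (Ix m ω) ℝ) (h0 : VanOn D (std m ω ℝ))
    (h : Fin m → Fin m → ℝ) : frm (std m ω ℝ) h ∈ TS D (std m ω ℝ) := by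
  intro i j k
  have e : ∀ i j k, tri D (std m ω ℝ i) (std m ω ℝ j) (std m ω ℝ k) = 0 := h0
  simp only [frm, tri_sum_left, tri_sum_mid, tri_sum_right, tri_smul_left, tri_smul_mid,
    tri_smul_right, e, mul_zero, Finset.sum_const_zero, add_zero]

/-- the linear map given by `frm` -/
noncomputable def p7b_frm (m : ℕ) (ω : Type*) :
    (Fin m → Fin m → ℝ) →ₗ[ℝ] (Fin m → Ix m ω → ℝ) where
  toFun := frm (std m ω ℝ)
  map_add' := by
    intro a b
    funext i
    simp only [frm, Pi.add_apply, add_smul, Finset.sum_add_distrib]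
  map_smul' := by
    intro c a
    funext i
    simp only [frm, Pi.smul_apply, smul_eq_mul, Finset.smul_sum, smul_smul, RingHom.id_apply]

/-- all the vectors -/
def p7b_S (D : Ten (Ix m ω) ℝ) : Set (Fin m → Ix m ω → ℝ) :=
  Set.range (p7b_frm m ω) ∪ PS D

theorem p7b_S_le (D : Ten (Ix m ω) ℝ) (hD : IsSym D) (h0 : VanOn D (std m ω ℝ)) :
    Submodule.span ℝ (p7b_S D) ≤ TS D (std m ω ℝ) := by
  rw [Submodule.span_le]
  rintro b (⟨h, rfl⟩ | hb)
  · exact p7b_frm_TS D h0 h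
  · exact p7b_PS_TS D hD h0 b hb

theorem p7b_SP_iff (D : Ten (Ix m ω) ℝ) :
    SP D ↔ TS D (std m ω ℝ) ≤ Submodule.span ℝ (p7b_S D) := by
  constructor
  · intro h a ha
    obtain ⟨x, hx⟩ := h a ha
    have h1 : a = frm (std m ω ℝ) x + (a - frm (std m ω ℝ) x) := by abel
    rw [h1]
    refine Submodule.add_mem _ (Submodule.subset_span (Or.inl ⟨x, rfl⟩)) ?_
    exact Submodule.span_mono Set.subset_union_right hx
  · intro h a ha
    have h1 := h ha
    rw [p7b_S, Submodule.span_union, Submodule.mem_sup] at h1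
    obtain ⟨y, hy, z, hz, hyz⟩ := h1
    have h2 : y ∈ LinearMap.range (p7b_frm m ω) := by
      have : Submodule.span ℝ (Set.range (p7b_frm m ω)) = LinearMap.range (p7b_frm m ω) := by
        rw [← LinearMap.coe_range, Submodule.span_eq]
      rw [← this]
      exact hy
    obtain ⟨x, hx⟩ := h2
    refine ⟨x, ?_⟩
    have h3 : a - frm (std m ω ℝ) x = z := by
      rw [← hyz, ← hx]
      show frm (std m ω ℝ) x + z - frm (std m ω ℝ) x = z
      abel
    rw [h3]
    exact hz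

theorem p7b_S_near (D E : Ten (Ix m ω) ℝ) (hD : IsSym D) (hE : IsSym E)
    (h0 : VanOn D (std m ω ℝ)) (h1 : VanOn E (std m ω ℝ)) (b : Fin m → Ix m ω → ℝ)
    (hb : b ∈ p7b_S D) (N : Set (Fin m → Ix m ω → ℝ)) (hN : N ∈ 𝓝 b) :
    ∀ᶠ t in 𝓝 (0 : ℝ), ∃ b' ∈ N, b' ∈ p7b_S (D + t • E) := by
  rcases hb with hb | hb
  · exact Filter.Eventually.of_forall fun t => ⟨b, mem_of_mem_nhds hN, Or.inl hb⟩
  · filter_upwards [p7b_near D E hD hE h0 h1 b hb N hN] with t ht
    obtain ⟨b', hb', h⟩ := ht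
    exact ⟨b', hb', Or.inr h⟩

theorem p7b_det (D E : Ten (Ix m ω) ℝ) (g : Pr m → Ix m ω → ℝ)
    (hg : (QM D (std m ω ℝ) g).det ≠ 0) :
    ∀ᶠ t in 𝓝 (0 : ℝ), (QM (D + t • E) (std m ω ℝ) g).det ≠ 0 := by
  have h1 : Continuous fun t : ℝ => (QM (D + t • E) (std m ω ℝ) g).det := by
    apply Continuous.matrix_det
    refine continuous_pi fun e => continuous_pi fun c => ?_
    have : (fun t : ℝ => QM (D + t • E) (std m ω ℝ) g e c) = fun t =>
        tri D (std m ω ℝ e.1.1) (std m ω ℝ e.1.2) (g c) +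
          t * tri E (std m ω ℝ e.1.1) (std m ω ℝ e.1.2) (g c) := by
      funext t
      simp only [QM, Matrix.of_apply, qf, p7_tri_add, p7_tri_smul]
    rw [this]
    fun_prop
  have h2 : (fun t : ℝ => (QM (D + t • E) (std m ω ℝ) g).det) 0 ≠ 0 := by
    simp only [zero_smul, add_zero]
    exact hg
  exact h1.continuousAt (isOpen_ne.mem_nhds h2)

end p7b

/-- Proof. Let `T = TS D (std m ω ℝ)`. The set `S` of the `frm (std m ω ℝ) h` and of the elements
of `PS D` is contained in `T` (for `BB D p l s v`: `pred_step` and `dstep_mem_TS` with `a = 0`)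
and spans it, by `SP D`. Choose a basis of `T` in `S`; it is finite,
`b 1, .., b r` with `r = finrank T`, and `b j` is either `frm _ (h j)` or
`BB D (p j) (l j) (s j) (v j)` with `PD D (p j) (l j) (s j) (g j) (v j)`, where `p j = xp (q j)` by
`supp`. For `x = (q, l, s)` near `(q j, l j, s j)` and `t` near `0` let
`v j (t, x) = (QM (D + tE) (pre (xp q) l s) (g j)).det⁻¹ •
  stepY (D + tE) (pre (xp q) l s) (g j) (v j)`, which is in the kernel of `qf` (`qf_stepY`), depends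
continuously on `(t, x)`, and is `v j` at `t = 0`, `x = (q j, l j, s j)` (`stepY_of_qf`). So
`BB (D + tE) (xp q) l s (v j (t, x))` is continuous in `(t, x)` and the linear independence of
`r` vectors is an open condition (`isOpen_setOf_linearIndependent`), as is
`(QM (D + tE) (pre (xp q) l s) (g j)).det ≠ 0`. By `fan_cont`, for `t` near `0` there are points
`x j` with `Fan (D + tE) (xp (x j).1) ..` as close to `(q j, l j, s j)` as we like. So there are `r`
linearly independent vectors among the frames and the elements of `PS (D + tE)`, all in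
`TS (D + tE) (std m ω ℝ)`, whose dimension is `r` by `finrank_TS` (`g` works for `D` and, for `t`
near `0`, for `D + tE`). Hence they span it. (`frm` is additive in `h`.) -/
theorem SP_open (D E : Ten (Ix m ω) ℝ) (hD : IsSym D) (hE : IsSym E)
    (h0 : VanOn D (std m ω ℝ)) (h1 : VanOn E (std m ω ℝ)) (g : Pr m → Ix m ω → ℝ)
    (hg : (QM D (std m ω ℝ) g).det ≠ 0) (hS : SP D) :
    ∀ᶠ t in 𝓝 (0 : ℝ), SP (D + t • E) := by
  classical
  have hspan : Submodule.span ℝ (p7b_S D) = TS D (std m ω ℝ) :=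
    le_antisymm (p7b_S_le D hD h0) ((p7b_SP_iff D).1 hS)
  obtain ⟨B, hBS, hB1, hB2⟩ := exists_linearIndependent ℝ (p7b_S D)
  have hfin : B.Finite := hB2.setFinite
  haveI : Fintype B := hfin.fintype
  have hcard : Fintype.card B = Module.finrank ℝ (TS D (std m ω ℝ)) := by
    rw [← hspan, ← hB1, ← finrank_span_eq_card hB2, Subtype.range_coe]
  have hopen : IsOpen {f : B → (Fin m → Ix m ω → ℝ) | LinearIndependent ℝ f} :=
    isOpen_setOf_linearIndependent
  have hmem : {f : B → (Fin m → Ix m ω → ℝ) | LinearIndependent ℝ f} ∈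
      𝓝 (fun b : B => (b : Fin m → Ix m ω → ℝ)) := hopen.mem_nhds hB2
  rw [nhds_pi, Filter.mem_pi] at hmem
  obtain ⟨I, _, N, hN, hsub⟩ := hmem
  have hall : ∀ᶠ t in 𝓝 (0 : ℝ), ∀ b : B, ∃ b' ∈ N b, b' ∈ p7b_S (D + t • E) := by
    rw [Filter.eventually_all]
    intro b
    exact p7b_S_near D E hD hE h0 h1 b (hBS b.2) (N b) (hN b)
  filter_upwards [hall, p7b_det D E g hg] with t ht hdet
  choose b' hb' hb'' using ht
  have hli : LinearIndependent ℝ b' := hsub fun b _ => hb' b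
  have hsym : IsSym (D + t • E) := p7_sym hD hE t
  have hvan : VanOn (D + t • E) (std m ω ℝ) := by
    intro i j k
    rw [p7_tri_add, p7_tri_smul]
    have e1 : tri D (std m ω ℝ i) (std m ω ℝ j) (std m ω ℝ k) = 0 := h0 i j k
    have e2 : tri E (std m ω ℝ i) (std m ω ℝ j) (std m ω ℝ k) = 0 := h1 i j k
    rw [e1, e2]
    ring
  rw [p7b_SP_iff]
  have hle : Submodule.span ℝ (Set.range b') ≤ TS (D + t • E) (std m ω ℝ) := by
    refine le_trans (Submodule.span_mono ?_) (p7b_S_le (D + t • E) hsym hvan)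
    rintro _ ⟨b, rfl⟩
    exact hb'' b
  have hdim : Module.finrank ℝ (Submodule.span ℝ (Set.range b')) =
      Module.finrank ℝ (TS (D + t • E) (std m ω ℝ)) := by
    rw [finrank_span_eq_card hli, hcard]
    have e1 := finrank_TS D hD (std m ω ℝ) g hg
    have e2 := finrank_TS (D + t • E) hsym (std m ω ℝ) g hdet
    omega
  rw [← Submodule.eq_of_le_of_finrank_eq hle hdim]
  refine Submodule.span_mono ?_
  rintro _ ⟨b, rfl⟩
  exact hb'' b

end Pool.Agent.Helper76.UF
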