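import Pool.Agent.Helper76.UF.Defs2

/-!
# Linear spaces in cubic hypersurfaces: generic members of a line of forms
-/

namespace Pool.Agent.Helper76.UF

variable {m : ℕ} {ω : Type*} [Fintype ω] {K : Type*} [Field K]

open Polynomial in
/-- the line of forms over the polynomial ring -/
noncomputable def p8_DX (D0 D1 : Ten (Ix m ω) K) : Ten (Ix m ω) K[X] :=
  fun i j k => C (D0 i j k) + X * C (D1 i j k - D0 i j k)

open Polynomial in
/-- constant vectors -/
noncomputable def p8_C {σ : Type*} (x : σ → K) : σ → K[X] := fun s => C (x s)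

open Polynomial in
theorem p8_eval_DX (D0 D1 : Ten (Ix m ω) K) (t : K) :
    mapT (evalRingHom t) (p8_DX D0 D1) = D0 + t • (D1 - D0) := by
  funext i j k
  simp only [mapT, p8_DX, coe_evalRingHom, eval_add, eval_C, eval_mul, eval_X, Pi.add_apply,
    Pi.smul_apply, Pi.sub_apply, smul_eq_mul]

open Polynomial in
theorem p8_eval_chain (D0 D1 : Ten (Ix m ω) K) (U : Fin m → Ix m ω → K) (π : ℕ → Par m ω → K)
    (t : K) (n : ℕ) (i : Fin m) (l : Ix m ω) :
    (chain (p8_DX D0 D1) (fun i => p8_C (U i)) (fun k => p8_C (π k)) n i l).eval t =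
      chain (D0 + t • (D1 - D0)) U π n i l := by
  have h := map_chain (p8_DX D0 D1) (fun i => p8_C (U i)) (evalRingHom t)
    (fun k => p8_C (π k)) n i l
  rw [p8_eval_DX] at h
  simp only [p8_C, coe_evalRingHom, eval_C] at h
  exact h

open Polynomial in
theorem p8_eval_dch (D0 D1 : Ten (Ix m ω) K) (U : Fin m → Ix m ω → K) (π : ℕ → Par m ω → K)
    (v : ℕ → Par m ω → K) (t : K) (n : ℕ) (i : Fin m) (l : Ix m ω) :
    (dch (p8_DX D0 D1) (fun i => p8_C (U i)) (fun k => p8_C (π k)) 0
      (fun k => p8_C (v k)) n i l).eval t =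
      dch (D0 + t • (D1 - D0)) U π 0 v n i l := by
  have h := map_dch (p8_DX D0 D1) (fun i => p8_C (U i)) (evalRingHom t)
    (fun k => p8_C (π k)) 0 (fun k => p8_C (v k)) n i l
  rw [p8_eval_DX] at h
  simp only [p8_C, coe_evalRingHom, eval_C, Pi.zero_apply, eval_zero] at h
  exact h

open Polynomial in
theorem p8_eval_det (D0 D1 : Ten (Ix m ω) K) (U : Fin m → Ix m ω → K) (π : ℕ → Par m ω → K)
    (t : K) (n : ℕ) :
    (QM (p8_DX D0 D1) (chain (p8_DX D0 D1) (fun i => p8_C (U i)) (fun k => p8_C (π k)) n)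
      (gP (p8_C (π n)))).det.eval t =
      (QM (D0 + t • (D1 - D0)) (chain (D0 + t • (D1 - D0)) U π n) (gP (π n))).det := by
  have h := map_QM (p8_DX D0 D1) (chain (p8_DX D0 D1) (fun i => p8_C (U i))
    (fun k => p8_C (π k)) n) (evalRingHom t) (gP (p8_C (π n)))
  rw [← coe_evalRingHom, RingHom.map_det, RingHom.mapMatrix_apply, h, p8_eval_DX]
  congr 2
  · funext i l
    exact p8_eval_chain D0 D1 U π t n i l
  · funext c l
    exact eval_C

open Polynomial in
theorem p8_eval_w (D0 D1 : Ten (Ix m ω) K) (U : Fin m → Ix m ω → K) (π : ℕ → Par m ω → K)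
    (t : K) (n : ℕ) :
    (wf (p8_DX D0 D1) (chain (p8_DX D0 D1) (fun i => p8_C (U i)) (fun k => p8_C (π k)) n)
      (yP (p8_DX D0 D1) (chain (p8_DX D0 D1) (fun i => p8_C (U i)) (fun k => p8_C (π k)) n)
        (p8_C (π n))) (kP (p8_C (π n)))).eval t =
      wf (D0 + t • (D1 - D0)) (chain (D0 + t • (D1 - D0)) U π n)
        (yP (D0 + t • (D1 - D0)) (chain (D0 + t • (D1 - D0)) U π n) (π n)) (kP (π n)) := by
  set UX := chain (p8_DX D0 D1) (fun i => p8_C (U i)) (fun k => p8_C (π k)) n with hUX
  have hU : (fun i l => (evalRingHom t) (UX i l)) = chain (D0 + t • (D1 - D0)) U π n := by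
    funext i l
    exact p8_eval_chain D0 D1 U π t n i l
  have hπ : (fun p => (evalRingHom t) (p8_C (π n) p)) = π n := by
    funext p
    exact eval_C
  have h := map_wf (p8_DX D0 D1) UX (evalRingHom t) (yP (p8_DX D0 D1) UX (p8_C (π n)))
    (kP (p8_C (π n)))
  have hy : (fun l => (evalRingHom t) (yP (p8_DX D0 D1) UX (p8_C (π n)) l)) =
      yP (D0 + t • (D1 - D0)) (chain (D0 + t • (D1 - D0)) U π n) (π n) := by
    funext l
    have h1 := map_yP (p8_DX D0 D1) UX (evalRingHom t) (p8_C (π n)) l
    rw [p8_eval_DX, hU, hπ] at h1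
    exact h1
  rw [p8_eval_DX, hU, hy] at h
  rw [← coe_evalRingHom, h]
  congr 1
  funext x
  exact eval_C

/-- Proof. Work over `K[X]` with the form `DX = C D0 + X C (D1 - D0)`, the subspace
`C U` and the parameters `C π`. By `map_chain`, `map_QM`, `map_wf`, evaluation at `t` gives the
chain of `D0 + t (D1 - D0)`; at `t = 1` it is the chain of `D1`. So each of the finitely many
conditions in `Good` says that a polynomial, nonzero at `1`, is nonzero at `t`: finitely many
exceptions. For the rank: choose `r` linearly independent vectors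
`dch D1 U π 0 (v j) n`, `j : Fin r`, in `Sn D1 U π n`, and `r` coordinates `(i, l)` on which the
`r × r` minor is nonzero; the same minor over `K[X]` (of `dch DX (C U) (C π) 0 (C v j) n`, see
`map_dch`) is a polynomial that is nonzero at `1`; where it is nonzero the vectors
`dch (D0 + t (D1 - D0)) U π 0 (v j) n` are linearly independent. -/
theorem line_generic (D0 D1 : Ten (Ix m ω) K) (U : Fin m → Ix m ω → K) (π : ℕ → Par m ω → K)
    (n r : ℕ) (hg : Good D1 U π n) (hr : r ≤ Module.finrank K (Sn D1 U π n)) :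
    {t : K | ¬ (Good (D0 + t • (D1 - D0)) U π n ∧
      r ≤ Module.finrank K (Sn (D0 + t • (D1 - D0)) U π n))}.Finite := by
  classical
  have h01 : D0 + (1 : K) • (D1 - D0) = D1 := by
    rw [one_smul]
    abel
  -- the independent vectors
  obtain ⟨f, hf⟩ := exists_linearIndependent_of_le_finrank hr
  have hv : ∀ j, ∃ v, dch D1 U π 0 v n = (f j : Fin m → Ix m ω → K) :=
    fun j => (mem_Sn D1 U π n _).1 (f j).2
  choose v hv using hv
  have hf' : LinearIndependent K fun j => (f j : Fin m → Ix m ω → K) :=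
    hf.map' (Submodule.subtype _) (Submodule.ker_subtype _)
  obtain ⟨g, hgf⟩ := LinearMap.exists_leftInverse_of_injective
    (Fintype.linearCombination K fun j => (f j : Fin m → Ix m ω → K))
    (LinearMap.ker_eq_bot.2 hf'.fintypeLinearCombination_injective)
  -- the coordinates of `g`
  let G : Fin r → Fin m → Ix m ω → K := fun j i l => g (Pi.single i (Pi.single l 1)) j
  have hG : ∀ (x : Fin m → Ix m ω → K) (j : Fin r), g x j = ∑ i, ∑ l, G j i l * x i l := by
    intro x j
    have hx : x = ∑ i, ∑ l, x i l • (Pi.single i (Pi.single l 1) : Fin m → Ix m ω → K) := by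
      funext i' l'
      simp only [Finset.sum_apply, Pi.smul_apply, smul_eq_mul]
      rw [Finset.sum_eq_single i']
      · rw [Finset.sum_eq_single l']
        · simp
        · intro b _ hb
          rw [Pi.single_eq_same, Pi.single_eq_of_ne (Ne.symm hb), mul_zero]
        · intro h
          exact absurd (Finset.mem_univ _) h
      · intro b _ hb
        refine Finset.sum_eq_zero fun l _ => ?_
        rw [Pi.single_eq_of_ne (Ne.symm hb), Pi.zero_apply, mul_zero]
      · intro h
        exact absurd (Finset.mem_univ _) h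
    conv_lhs => rw [hx]
    simp only [map_sum, map_smul, Finset.sum_apply, Pi.smul_apply, smul_eq_mul]
    exact Finset.sum_congr rfl fun i _ => Finset.sum_congr rfl fun l _ => mul_comm _ _
  -- the polynomials
  let pd : ℕ → Polynomial K := fun i =>
    (QM (p8_DX D0 D1) (chain (p8_DX D0 D1) (fun i => p8_C (U i)) (fun k => p8_C (π k)) i)
      (gP (p8_C (π i)))).det
  let pw : ℕ → Polynomial K := fun i =>
    wf (p8_DX D0 D1) (chain (p8_DX D0 D1) (fun i => p8_C (U i)) (fun k => p8_C (π k)) i)
      (yP (p8_DX D0 D1) (chain (p8_DX D0 D1) (fun i => p8_C (U i)) (fun k => p8_C (π k)) i)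
        (p8_C (π i))) (kP (p8_C (π i)))
  let MX : Matrix (Fin r) (Fin r) (Polynomial K) := Matrix.of fun j k =>
    ∑ i, ∑ l, Polynomial.C (G j i l) *
      dch (p8_DX D0 D1) (fun i => p8_C (U i)) (fun k => p8_C (π k)) 0
        (fun q => p8_C (v k q)) n i l
  have hMX : ∀ t : K, MX.det.eval t =
      (Matrix.of fun j k => g (dch (D0 + t • (D1 - D0)) U π 0 (v k) n) j).det := by
    intro t
    rw [← Polynomial.coe_evalRingHom, RingHom.map_det, RingHom.mapMatrix_apply]
    congr 1
    ext j k
    rw [Matrix.map_apply]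
    have e1 : MX j k = ∑ i, ∑ l, Polynomial.C (G j i l) *
      dch (p8_DX D0 D1) (fun i => p8_C (U i)) (fun k => p8_C (π k)) 0
        (fun q => p8_C (v k q)) n i l := rfl
    rw [e1]
    have e2 : (Matrix.of fun j k => g (dch (D0 + t • (D1 - D0)) U π 0 (v k) n) j) j k =
      g (dch (D0 + t • (D1 - D0)) U π 0 (v k) n) j := rfl
    refine Eq.trans ?_ e2.symm
    rw [hG]
    simp only [map_sum, map_mul, Polynomial.coe_evalRingHom, Polynomial.eval_C, p8_eval_dch]
  have hd1 : ∀ i ≤ n, pd i ≠ 0 := by
    intro i hi h0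
    have h1 := p8_eval_det D0 D1 U π 1 i
    rw [h01] at h1
    refine hg.det i hi ?_
    rw [← h1]
    show (pd i).eval 1 = 0
    rw [h0, Polynomial.eval_zero]
  have hw1 : ∀ i < n, pw i ≠ 0 := by
    intro i hi h0
    have h1 := p8_eval_w D0 D1 U π 1 i
    rw [h01] at h1
    refine hg.w i hi ?_
    rw [← h1]
    show (pw i).eval 1 = 0
    rw [h0, Polynomial.eval_zero]
  have hM1 : MX.det ≠ 0 := by
    intro h0
    have h1 := hMX 1
    rw [h0, Polynomial.eval_zero, h01] at h1
    have h2 : (Matrix.of fun j k => g (dch D1 U π 0 (v k) n) j) =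
        (1 : Matrix (Fin r) (Fin r) K) := by
      ext j k
      rw [Matrix.of_apply, hv k]
      have h3 := LinearMap.congr_fun hgf (Pi.single k 1)
      rw [LinearMap.comp_apply, LinearMap.id_apply, Fintype.linearCombination_apply_single,
        one_smul] at h3
      rw [h3, Matrix.one_apply, Pi.single_apply]
    rw [h2, Matrix.det_one] at h1
    exact zero_ne_one h1
  -- the exceptional set
  have hfin : ((⋃ i ∈ Finset.range (n + 1), {t : K | (pd i).IsRoot t}) ∪
      (⋃ i ∈ Finset.range n, {t : K | (pw i).IsRoot t}) ∪ {t : K | MX.det.IsRoot t}).Finite := by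
    refine Set.Finite.union (Set.Finite.union ?_ ?_) (Polynomial.finite_setOfPred_isRoot hM1)
    · refine Set.Finite.biUnion (Finset.finite_toSet _) fun i hi => ?_
      exact Polynomial.finite_setOfPred_isRoot (hd1 i (Nat.lt_succ_iff.1 (Finset.mem_range.1 hi)))
    · refine Set.Finite.biUnion (Finset.finite_toSet _) fun i hi => ?_
      exact Polynomial.finite_setOfPred_isRoot (hw1 i (Finset.mem_range.1 hi))
  refine hfin.subset fun t ht => ?_
  by_contra hcon
  simp only [Set.mem_union, Set.mem_iUnion, Set.mem_ofPred_eq, not_or, not_exists] at hcon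
  obtain ⟨⟨c1, c2⟩, c3⟩ := hcon
  refine ht ⟨⟨fun i hi h0 => ?_, fun i hi h0 => ?_⟩, ?_⟩
  · refine c1 i (Finset.mem_range.2 (Nat.lt_succ_iff.2 hi)) ?_
    rw [← p8_eval_det D0 D1 U π t i] at h0
    exact h0
  · refine c2 i (Finset.mem_range.2 hi) ?_
    rw [← p8_eval_w D0 D1 U π t i] at h0
    exact h0
  · -- the rank
    set Dt := D0 + t • (D1 - D0) with hDt
    have hdet : (Matrix.of fun j k => g (dch Dt U π 0 (v k) n) j).det ≠ 0 := by
      rw [← hMX t]
      exact c3
    have hli : LinearIndependent K fun k : Fin r =>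
        (⟨dch Dt U π 0 (v k) n, (mem_Sn Dt U π n _).2 ⟨v k, rfl⟩⟩ : Sn Dt U π n) := by
      rw [Fintype.linearIndependent_iff]
      intro c hc
      have h1 : ∑ k, c k • dch Dt U π 0 (v k) n = 0 := by
        have h2 := congrArg (Submodule.subtype (Sn Dt U π n)) hc
        rw [map_sum, map_zero] at h2
        exact h2
      have h2 : (Matrix.of fun j k => g (dch Dt U π 0 (v k) n) j).mulVec c = 0 := by
        funext j
        have h3 := congrFun (congrArg g h1) j
        rw [map_sum, map_zero, Finset.sum_apply] at h3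
        rw [Matrix.mulVec, dotProduct, ← h3]
        refine Finset.sum_congr rfl fun k _ => ?_
        rw [map_smul, Pi.smul_apply, smul_eq_mul, Matrix.of_apply, mul_comm]
      exact congrFun (Matrix.eq_zero_of_mulVec_eq_zero hdet h2)
    have h4 := hli.fintype_card_le_finrank
    rwa [Fintype.card_fin] at h4

end Pool.Agent.Helper76.UF
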