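import Pool.Agent.Helper76.UF.St.P9c

/-!
# Linear spaces in cubic hypersurfaces: the explicit form has spanning predecessors, end
-/

namespace Pool.Agent.Helper76.UF

variable {m : ℕ} {κ : Type*} [Fintype κ] [DecidableEq κ] {z1 z2 : κ}

omit [Fintype κ] [DecidableEq κ] in
theorem p9d_symm (u l g : Fin m → ℝ) :
    (tp u l g : Fin m → Ix m (Pr m ⊕ κ) → ℝ) = tp u g l := by
  funext a l
  rcases l with l | e | b <;> simp [tp, pv]
  left
  ring

omit [Fintype κ] [DecidableEq κ] in
theorem p9d_id1 (u v : Fin m → ℝ) :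
    (tp (u + 2 • v) (u + 2 • v) v - tp v (u + 2 • v) (u + 2 • v) :
      Fin m → Ix m (Pr m ⊕ κ) → ℝ) =
    (tp u u v - tp v u u) - (2 : ℝ) • (tp v v u - tp u v v) := by
  funext a l
  rcases l with l | e | b <;> simp [tp, pv]
  ring

omit [Fintype κ] [DecidableEq κ] in
theorem p9d_id2 (u v w : Fin m → ℝ) :
    (tp (u + v + 2 • w) (u + v + 2 • w) w - tp w (u + v + 2 • w) (u + v + 2 • w) :
      Fin m → Ix m (Pr m ⊕ κ) → ℝ) =
    (tp u u w - tp w u u) - (2 : ℝ) • (tp w w u - tp u w w) +
    ((tp v v w - tp w v v) - (2 : ℝ) • (tp w w v - tp v w w)) +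
    (tp u v w + tp v u w - (2 : ℝ) • tp w u v) := by
  funext a l
  rcases l with l | e | b <;> simp [tp, pv]
  ring

theorem p9d_A (hz : z1 ≠ z2) {i j : Fin m} (hij : i ≠ j) :
    (tp (Pi.single i 1) (Pi.single i 1) (Pi.single j 1) -
      tp (Pi.single j 1) (Pi.single i 1) (Pi.single i 1) : Fin m → Ix m (Pr m ⊕ κ) → ℝ) ∈
      Submodule.span ℝ (PS (D0 m z1 z2)) := by
  have key : ∀ i j : Fin m, i ≠ j →
      ((tp (Pi.single i 1) (Pi.single i 1) (Pi.single j 1) -
        tp (Pi.single j 1) (Pi.single i 1) (Pi.single i 1)) -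
      (2 : ℝ) • (tp (Pi.single j 1) (Pi.single j 1) (Pi.single i 1) -
        tp (Pi.single i 1) (Pi.single j 1) (Pi.single j 1)) : Fin m → Ix m (Pr m ⊕ κ) → ℝ) ∈
      Submodule.span ℝ (PS (D0 m z1 z2)) := by
    intro i j hij
    rw [← p9d_id1]
    refine span_AB hz _ _ fun a => ?_
    by_cases h1 : a = i
    · subst h1
      right; left
      simp [hij]
    · by_cases h2 : a = j
      · subst h2
        right; right
        simp [h1]
      · left
        simp [h1, h2]
  have h1 := key i j hij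
  have h2 := key j i hij.symm
  have h3 := Submodule.smul_mem _ (-(1 / 3) : ℝ)
    (Submodule.add_mem _ h1 (Submodule.smul_mem _ (2 : ℝ) h2))
  convert h3 using 1
  module

/-- Proof. Write `e i = Pi.single i 1` and
`A i j = tp (e i) (e i) (e j) - tp (e j) (e i) (e i)`. For `x = e i + 2 e j`, `B = e j` the vector of
`span_AB` is `A i j - 2 A j i` (`tp u l g` is linear in each argument and symmetric in the last
two), so exchanging `i` and `j`, `A i j` is in the span. For `x = e i + e j + 2 e k`, `B = e k` it is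
`A i k - 2 A k i + A j k - 2 A k j + T` with
`T = tp (e i) (e j) (e k) + tp (e j) (e i) (e k) - 2 tp (e k) (e i) (e j)`, so `T` is in the span.
By the symmetry and `S1 + S2 - 2 S3 ∈ span` for all orders of `(i, j, k)`, where `S1`, `S2`, `S3`
are the three vectors `tp (e i) (e j) (e k)` etc., `S1 - S2` is in the span (subtract the relation
with `j` and `k`, resp. `i` and `k`, exchanged and divide by 3).
So for all `i`, `j`, `k` (also if two of them are equal)
`tp (e i) (e j) (e k) - tp (e j) (e i) (e k)` is in the span. -/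
theorem span_swap (hz : z1 ≠ z2) (i j k : Fin m) :
    (tp (Pi.single i 1) (Pi.single j 1) (Pi.single k 1) -
      tp (Pi.single j 1) (Pi.single i 1) (Pi.single k 1) : Fin m → Ix m (Pr m ⊕ κ) → ℝ) ∈
      Submodule.span ℝ (PS (D0 m z1 z2)) := by
  by_cases hij : i = j
  · subst hij
    simp
  by_cases hki : k = i
  · subst hki
    have h := p9d_A hz hij
    rw [p9d_symm (Pi.single k 1) (Pi.single j 1) (Pi.single k 1)]
    exact h
  by_cases hkj : k = j
  · subst hkj
    have h := Submodule.neg_mem _ (p9d_A hz (Ne.symm hij))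
    rw [neg_sub] at h
    rw [p9d_symm (Pi.single k 1) (Pi.single i 1) (Pi.single k 1)]
    exact h
  have key : ∀ i j k : Fin m, i ≠ j → i ≠ k → j ≠ k →
      (tp (Pi.single i 1) (Pi.single j 1) (Pi.single k 1) +
      tp (Pi.single j 1) (Pi.single i 1) (Pi.single k 1) -
      (2 : ℝ) • tp (Pi.single k 1) (Pi.single i 1) (Pi.single j 1) :
        Fin m → Ix m (Pr m ⊕ κ) → ℝ) ∈
      Submodule.span ℝ (PS (D0 m z1 z2)) := by
    intro i j k hij hik hjk
    have h0 : (tp (Pi.single i 1 + Pi.single j 1 + 2 • Pi.single k 1)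
        (Pi.single i 1 + Pi.single j 1 + 2 • Pi.single k 1) (Pi.single k 1) -
        tp (Pi.single k 1) (Pi.single i 1 + Pi.single j 1 + 2 • Pi.single k 1)
        (Pi.single i 1 + Pi.single j 1 + 2 • Pi.single k 1) : Fin m → Ix m (Pr m ⊕ κ) → ℝ) ∈
        Submodule.span ℝ (PS (D0 m z1 z2)) := by
      refine span_AB hz _ _ fun a => ?_
      by_cases h1 : a = i
      · subst h1
        right; left
        simp [hij, hik]
      · by_cases h2 : a = j
        · subst h2
          right; left
          simp [h1, hjk]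
        · by_cases h3 : a = k
          · subst h3
            right; right
            simp [h1, h2]
          · left
            simp [h1, h2, h3]
    rw [p9d_id2] at h0
    have a1 := p9d_A (κ := κ) hz hik
    have a2 := p9d_A (κ := κ) hz hik.symm
    have a3 := p9d_A (κ := κ) hz hjk
    have a4 := p9d_A (κ := κ) hz hjk.symm
    have h5 := Submodule.sub_mem _ h0 (Submodule.add_mem _
      (Submodule.sub_mem _ a1 (Submodule.smul_mem _ (2 : ℝ) a2))
      (Submodule.sub_mem _ a3 (Submodule.smul_mem _ (2 : ℝ) a4)))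
    convert h5 using 1
    module
  have k1 := key k j i hkj hki (Ne.symm hij)
  have k2 := key i k j (Ne.symm hki) hij hkj
  rw [p9d_symm (Pi.single k 1) (Pi.single j 1) (Pi.single i 1),
    p9d_symm (Pi.single j 1) (Pi.single k 1) (Pi.single i 1),
    p9d_symm (Pi.single i 1) (Pi.single k 1) (Pi.single j 1)] at k1
  rw [p9d_symm (Pi.single i 1) (Pi.single k 1) (Pi.single j 1)] at k2
  have h6 := Submodule.smul_mem _ (1 / 3 : ℝ) (Submodule.sub_mem _ k2 k1)
  convert h6 using 1
  module

/-- The ordered pair of two indices. -/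
def p9d_pr (j k : Fin m) : Pr m := if h : j ≤ k then ⟨(j, k), h⟩ else ⟨(k, j), (not_le.mp h).le⟩

theorem p9d_pr_symm (j k : Fin m) : p9d_pr j k = p9d_pr k j := by
  unfold p9d_pr
  rcases lt_trichotomy j k with h | h | h
  · rw [dif_pos h.le, dif_neg (not_le.mpr h)]
  · subst h; rfl
  · rw [dif_neg (not_le.mpr h), dif_pos h.le]

theorem p9d_pr_of (e : Pr m) : p9d_pr e.1.1 e.1.2 = e := by
  unfold p9d_pr
  rw [dif_pos e.2]

theorem p9d_ts {a : Fin m → Ix m (Pr m ⊕ κ) → ℝ}
    (ha : a ∈ TS (D0 m z1 z2) (std m _ ℝ)) (i j k : Fin m) :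
    a i (.inr (.inl (p9d_pr j k))) + a j (.inr (.inl (p9d_pr i k))) +
      a k (.inr (.inl (p9d_pr i j))) = 0 := by
  have hs := isSym_D0 m z1 z2
  have h0 : ∀ (i j : Fin m) (v : Ix m (Pr m ⊕ κ) → ℝ),
      3 * tri (D0 m z1 z2) (std m _ ℝ i) (std m _ ℝ j) v = v (.inr (.inl (p9d_pr i j))) := by
    intro i j v
    unfold p9d_pr
    split_ifs with h
    · exact D0_std_std m z1 z2 i j h v
    · rw [hs.tri12]
      exact D0_std_std m z1 z2 j i (not_le.mp h).le v
  have h1 := ha i j k
  have e1 := h0 j k (a i)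
  have e2 := h0 i k (a j)
  have e3 := h0 i j (a k)
  rw [hs.tri12 (a i), hs.tri23 _ (a i)] at h1
  rw [hs.tri23 (std m _ ℝ i) (a j)] at h1
  linarith

/-- Proof. Let `a ∈ TS (D0 m z1 z2) (std m _ ℝ)`. Subtract the frame with `h i j = a i (.inl j)`
and the sum over `i` of `tz (e i) (fun b => a i (.inr (.inr b)))` (`span_z`). There remains the
vector with the coordinates `S i e = a i (.inr (.inl e))`; put `S i j k = S i e` for `e` the pair
`j`, `k` in order. By `D0_std_std`, membership in `TS` says `S i j k + S j i k + S k i j = 0` for all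
`i`, `j`, `k`. The remaining vector is `∑ i, ∑ j, ∑ k, S i j k • tp (e i) (e j) (e k)`. Modulo the
span (`span_swap` and the symmetry of `tp` in the last two arguments) `tp (e i) (e j) (e k)` is
invariant under all permutations of `(i, j, k)`, so three times the sum is
`∑ i, ∑ j, ∑ k, (S i j k + S j i k + S k i j) • tp (e i) (e j) (e k) = 0`. -/
theorem SP_D0 (hz : z1 ≠ z2) : SP (D0 m z1 z2) := by
  intro a ha
  refine ⟨fun i j => a i (.inl j), ?_⟩
  set W := Submodule.span ℝ (PS (D0 m z1 z2)) with hW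
  set R : Fin m → Ix m (Pr m ⊕ κ) → ℝ := ∑ i, ∑ j, ∑ k,
    a i (.inr (.inl (p9d_pr j k))) • tp (Pi.single i 1) (Pi.single j 1) (Pi.single k 1) with hR
  have hdec : a - frm (std m _ ℝ) (fun i j => a i (.inl j)) =
      (∑ i, tz (Pi.single i 1) (fun b => a i (.inr (.inr b)))) + R := by
    funext i l
    rcases l with l | e | b
    · simp [frm, std, tz, pv, hR, tp, Finset.sum_apply]
    · simp only [hR, tz, tp, frm, std, Finset.sum_apply, Pi.add_apply, Pi.sub_apply,
        Pi.smul_apply, smul_eq_mul, Sum.elim_inr, mul_zero, Finset.sum_const_zero, sub_zero, pv]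
      simp only [Pi.zero_apply, add_zero, zero_div, mul_zero, Finset.sum_const_zero,
        zero_add]
      have h1 : ∀ (c : Fin m) (f : Fin m → ℝ), ∑ x, f x * (Pi.single x 1 : Fin m → ℝ) c = f c := by
        intro c f
        rw [Finset.sum_eq_single c]
        · simp
        · intro b _ hb
          rw [Pi.single_eq_of_ne (Ne.symm hb)]
          simp
        · simp
      have h2 : ∀ x, ∑ j, ∑ k, a x (.inr (.inl (p9d_pr j k))) *
          ((Pi.single x 1 : Fin m → ℝ) i * (((Pi.single j 1 : Fin m → ℝ) e.1.1 *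
            (Pi.single k 1 : Fin m → ℝ) e.1.2 + (Pi.single j 1 : Fin m → ℝ) e.1.2 *
            (Pi.single k 1 : Fin m → ℝ) e.1.1) / 2)) =
          a x (.inr (.inl e)) * (Pi.single x 1 : Fin m → ℝ) i := by
        intro x
        have h3 : ∀ j, ∑ k, a x (.inr (.inl (p9d_pr j k))) *
          ((Pi.single x 1 : Fin m → ℝ) i * (((Pi.single j 1 : Fin m → ℝ) e.1.1 *
            (Pi.single k 1 : Fin m → ℝ) e.1.2 + (Pi.single j 1 : Fin m → ℝ) e.1.2 *
            (Pi.single k 1 : Fin m → ℝ) e.1.1) / 2)) =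
            (a x (.inr (.inl (p9d_pr j e.1.2))) * (Pi.single x 1 : Fin m → ℝ) i / 2) *
              (Pi.single j 1 : Fin m → ℝ) e.1.1 +
            (a x (.inr (.inl (p9d_pr j e.1.1))) * (Pi.single x 1 : Fin m → ℝ) i / 2) *
              (Pi.single j 1 : Fin m → ℝ) e.1.2 := by
          intro j
          rw [← h1 e.1.2 (fun k => a x (.inr (.inl (p9d_pr j k))) *
              (Pi.single x 1 : Fin m → ℝ) i / 2 * (Pi.single j 1 : Fin m → ℝ) e.1.1),
            ← h1 e.1.1 (fun k => a x (.inr (.inl (p9d_pr j k))) *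
              (Pi.single x 1 : Fin m → ℝ) i / 2 * (Pi.single j 1 : Fin m → ℝ) e.1.2),
            ← Finset.sum_add_distrib]
          refine Finset.sum_congr rfl fun k _ => ?_
          ring
        rw [Finset.sum_congr rfl fun j _ => h3 j, Finset.sum_add_distrib,
          h1 e.1.1 (fun j => a x (.inr (.inl (p9d_pr j e.1.2))) *
            (Pi.single x 1 : Fin m → ℝ) i / 2),
          h1 e.1.2 (fun j => a x (.inr (.inl (p9d_pr j e.1.1))) *
            (Pi.single x 1 : Fin m → ℝ) i / 2), p9d_pr_symm e.1.2 e.1.1, p9d_pr_of]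
        ring
      rw [Finset.sum_congr rfl fun x _ => h2 x, h1 i (fun x => a x (.inr (.inl e)))]
    · simp only [hR, tz, tp, frm, std, Finset.sum_apply, Pi.add_apply, Pi.sub_apply,
        Pi.smul_apply, smul_eq_mul, Sum.elim_inr, mul_zero, Finset.sum_const_zero, sub_zero, pv,
        Pi.zero_apply, add_zero]
      rw [Finset.sum_eq_single i]
      · simp
      · intro b' _ hb
        rw [Pi.single_eq_of_ne (Ne.symm hb)]
        simp
      · simp
  rw [hdec]
  refine Submodule.add_mem _ (Submodule.sum_mem _ fun i _ => span_z hz _ _) ?_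
  rw [← Submodule.Quotient.mk_eq_zero]
  set ψ : Fin m → Fin m → Fin m → (Fin m → Ix m (Pr m ⊕ κ) → ℝ) ⧸ W := fun i j k =>
    W.mkQ (tp (Pi.single i 1) (Pi.single j 1) (Pi.single k 1)) with hψ
  have s1 : ∀ i j k, ψ i j k = ψ j i k := by
    intro i j k
    rw [← sub_eq_zero, hψ]
    simp only
    rw [← map_sub, Submodule.mkQ_apply, Submodule.Quotient.mk_eq_zero]
    exact span_swap hz i j k
  have s2 : ∀ i j k, ψ i j k = ψ i k j := by
    intro i j k
    rw [hψ]
    simp only
    rw [p9d_symm]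
  set X : (Fin m → Ix m (Pr m ⊕ κ) → ℝ) ⧸ W :=
    ∑ i, ∑ j, ∑ k, a i (.inr (.inl (p9d_pr j k))) • ψ i j k with hX
  have hRX : (Submodule.Quotient.mk R : (Fin m → Ix m (Pr m ⊕ κ) → ℝ) ⧸ W) = X := by
    rw [← Submodule.mkQ_apply, hR, hX]
    simp only [map_sum, map_smul, hψ]
  rw [hRX]
  have x2 : X = ∑ i, ∑ j, ∑ k, a j (.inr (.inl (p9d_pr i k))) • ψ i j k := by
    rw [hX, Finset.sum_comm]
    refine Finset.sum_congr rfl fun j _ => Finset.sum_congr rfl fun i _ =>
      Finset.sum_congr rfl fun k _ => ?_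
    rw [s1 i j k]
  have x3 : X = ∑ i, ∑ j, ∑ k, a k (.inr (.inl (p9d_pr i j))) • ψ i j k := by
    rw [hX, Finset.sum_comm]
    refine Finset.sum_congr rfl fun j _ => ?_
    rw [Finset.sum_comm]
    refine Finset.sum_congr rfl fun k _ => Finset.sum_congr rfl fun i _ => ?_
    rw [s1 i j k, s2 j i k]
  have h3 : (3 : ℝ) • X = 0 := by
    calc (3 : ℝ) • X = X + X + X := by module
      _ = X + (∑ i, ∑ j, ∑ k, a j (.inr (.inl (p9d_pr i k))) • ψ i j k) +
          (∑ i, ∑ j, ∑ k, a k (.inr (.inl (p9d_pr i j))) • ψ i j k) := by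
        rw [← x2, ← x3]
      _ = ∑ i, ∑ j, ∑ k, (a i (.inr (.inl (p9d_pr j k))) + a j (.inr (.inl (p9d_pr i k))) +
          a k (.inr (.inl (p9d_pr i j)))) • ψ i j k := by
        rw [hX]
        simp only [← Finset.sum_add_distrib, ← add_smul]
      _ = 0 := by
        refine Finset.sum_eq_zero fun i _ => Finset.sum_eq_zero fun j _ =>
          Finset.sum_eq_zero fun k _ => ?_
        rw [p9d_ts ha i j k, zero_smul]
  have := (smul_eq_zero.mp h3).resolve_left (by norm_num)
  exact this

end Pool.Agent.Helper76.UF
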