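import Pool.Agent.Helper76.UF.Defs2

/-!
# Linear spaces in cubic hypersurfaces: the dimension of the tangent space
-/

namespace Pool.Agent.Helper76.UF

variable {m : ℕ} {ω : Type*} [Fintype ω] {K : Type*} [Field K] [CharZero K]

theorem p4_pair {α : Type*} {i j i' j' : α} (h : ({i, j} : Multiset α) = {i', j'}) :
    (i = i' ∧ j = j') ∨ (i = j' ∧ j = i') := by
  have h1 : i ∈ ({i', j'} : Multiset α) := by
    rw [← h]
    simp
  simp only [Multiset.insert_eq_cons, Multiset.mem_cons, Multiset.mem_singleton] at h1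
  rcases h1 with rfl | rfl
  · left
    refine ⟨rfl, ?_⟩
    have h2 : ({j} : Multiset α) = {j'} := by
      simpa [Multiset.insert_eq_cons] using h
    simpa using h2
  · right
    refine ⟨rfl, ?_⟩
    have h2 : ({j} : Multiset α) = {i'} := by
      rw [Multiset.pair_comm i' i] at h
      simpa [Multiset.insert_eq_cons] using h
    simpa using h2

theorem p4_perm {α β : Type*} (F : α → α → α → β) (h1 : ∀ i j k, F i j k = F j i k)
    (h2 : ∀ i j k, F i j k = F i k j) {i j k i' j' k' : α}
    (h : ({i, j, k} : Multiset α) = {i', j', k'}) : F i j k = F i' j' k' := by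
  have h3 : i ∈ ({i', j', k'} : Multiset α) := by
    rw [← h]
    simp
  simp only [Multiset.insert_eq_cons, Multiset.mem_cons, Multiset.mem_singleton] at h3
  rcases h3 with rfl | rfl | rfl
  · have h4 : ({j, k} : Multiset α) = {j', k'} := by
      simpa [Multiset.insert_eq_cons] using h
    rcases p4_pair h4 with ⟨rfl, rfl⟩ | ⟨rfl, rfl⟩
    · rfl
    · exact h2 _ _ _
  · have h4 : ({j, k} : Multiset α) = {i', k'} := by
      have h5 : ({i', i, k'} : Multiset α) = {i, i', k'} := by
        simp only [Multiset.insert_eq_cons]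
        exact Multiset.cons_swap _ _ _
      rw [h5] at h
      simpa [Multiset.insert_eq_cons] using h
    rcases p4_pair h4 with ⟨rfl, rfl⟩ | ⟨rfl, rfl⟩
    · exact h1 _ _ _
    · rw [h2, h1]
  · have h4 : ({j, k} : Multiset α) = {i', j'} := by
      have h5 : ({i', j', i} : Multiset α) = {i, i', j'} := by
        simp only [Multiset.insert_eq_cons]
        rw [← Multiset.insert_eq_cons j', Multiset.pair_comm j' i, Multiset.insert_eq_cons]
        exact Multiset.cons_swap _ _ _
      rw [h5] at h
      simpa [Multiset.insert_eq_cons] using h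
    rcases p4_pair h4 with ⟨rfl, rfl⟩ | ⟨rfl, rfl⟩
    · rw [h1, h2]
    · rw [h2, h1, h2]

/-- The derivative of `D(u, u, u)`. -/
def p4_F (D : Ten (Ix m ω) K) (U : Fin m → Ix m ω → K) (a : Fin m → Ix m ω → K)
    (i j k : Fin m) : K :=
  tri D (a i) (U j) (U k) + tri D (U i) (a j) (U k) + tri D (U i) (U j) (a k)

theorem p4_F_add (D : Ten (Ix m ω) K) (U : Fin m → Ix m ω → K) (a b : Fin m → Ix m ω → K)
    (i j k : Fin m) : p4_F D U (a + b) i j k = p4_F D U a i j k + p4_F D U b i j k := by
  simp only [p4_F, Pi.add_apply, tri_add_left, tri_add_mid, tri_add_right]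
  ring

theorem p4_F_smul (D : Ten (Ix m ω) K) (U : Fin m → Ix m ω → K) (c : K)
    (a : Fin m → Ix m ω → K)
    (i j k : Fin m) : p4_F D U (c • a) i j k = c * p4_F D U a i j k := by
  simp only [p4_F, Pi.smul_apply, tri_smul_left, tri_smul_mid, tri_smul_right]
  ring

theorem p4_F_12 (D : Ten (Ix m ω) K) (hD : IsSym D) (U a : Fin m → Ix m ω → K)
    (i j k : Fin m) : p4_F D U a i j k = p4_F D U a j i k := by
  unfold p4_F
  rw [hD.tri12 (a i), hD.tri12 (U i) (a j), hD.tri12 (U i) (U j)]
  ring

theorem p4_F_23 (D : Ten (Ix m ω) K) (hD : IsSym D) (U a : Fin m → Ix m ω → K)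
    (i j k : Fin m) : p4_F D U a i j k = p4_F D U a i k j := by
  unfold p4_F
  rw [hD.tri23 (a i), hD.tri23 (U i) (a j), hD.tri23 (U i) (U j)]
  ring

theorem p4_surj (D : Ten (Ix m ω) K) (hD : IsSym D) (U : Fin m → Ix m ω → K)
    (g : Pr m → Ix m ω → K) (hdet : (QM D U g).det ≠ 0) (i j : Fin m) :
    ∃ y : Ix m ω → K, ∀ i' j', tri D (U i') (U j') y =
      if ({i', j'} : Multiset (Fin m)) = {i, j} then 1 else 0 := by
  have hunit : IsUnit (QM D U g) := by
    rw [Matrix.isUnit_iff_isUnit_det]
    exact isUnit_iff_ne_zero.2 hdet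
  set b : Pr m → K := fun e => if ({e.1.1, e.1.2} : Multiset (Fin m)) = {i, j} then 1 else 0
    with hb
  obtain ⟨c, hc⟩ := (Matrix.mulVec_surjective_iff_isUnit.2 hunit) b
  have hq : qf D U (∑ e, c e • g e) = b := by
    rw [qf_sum, ← hc]
    funext e
    rw [Finset.sum_apply, Matrix.mulVec, dotProduct]
    refine Finset.sum_congr rfl fun f _ => ?_
    rw [qf_smul, Pi.smul_apply, smul_eq_mul, mul_comm]
    rfl
  refine ⟨∑ e, c e • g e, fun i' j' => ?_⟩
  rcases le_total i' j' with h | h
  · exact congrFun hq ⟨(i', j'), h⟩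
  · rw [hD.tri12, Multiset.pair_comm]
    exact congrFun hq ⟨(j', i'), h⟩

/-- Proof. `TS D U` is the kernel of the linear map
`Φ a (i, j, k) = D(a i, U j, U k) + D(U i, a j, U k) + D(U i, U j, a k)`, whose values are
symmetric in `(i, j, k)`; regard `Φ` as a linear map to `Sym (Fin m) 3 → K`, or to the functions
on the triples `i ≤ j ≤ k`; both index sets have `(m + 2).choose 3` elements
(`Sym.card_sym_eq_choose`). It is surjective: since `QM D U g` is invertible, for each `e : Pr m`
there is a combination `y` of the `g c` with `D(U i, U j, y) = 1` if `(i, j)` or `(j, i)` is `e`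
and `0` for other `i ≤ j`; for the `a` with `a k = y` and `a i = 0` for `i ≠ k`, `Φ a` is a
nonzero multiple of the indicator function of the triple with entries `e.1.1`, `e.1.2`, `k`
(the multiple is the number of positions in the triple whose removal leaves `e`, where the
removed entry is `k`; it is 1, 2 or 3). Rank-nullity. -/
theorem finrank_TS (D : Ten (Ix m ω) K) (hD : IsSym D) (U : Fin m → Ix m ω → K)
    (g : Pr m → Ix m ω → K) (hdet : (QM D U g).det ≠ 0) :
    Module.finrank K (TS D U) + (m + 2).choose 3 = m * (m + Fintype.card ω) := by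
  classical
  have hr : ∀ s : Sym (Fin m) 3, ∃ t : Fin m × Fin m × Fin m,
      s.1 = ({t.1, t.2.1, t.2.2} : Multiset (Fin m)) := by
    intro s
    obtain ⟨x, y, z, h⟩ := Multiset.card_eq_three.1 s.2
    exact ⟨(x, y, z), h⟩
  choose r hr using hr
  let Φ : (Fin m → Ix m ω → K) →ₗ[K] (Sym (Fin m) 3 → K) :=
    { toFun := fun a s => p4_F D U a (r s).1 (r s).2.1 (r s).2.2
      map_add' := fun a b => funext fun s => p4_F_add D U a b _ _ _
      map_smul' := fun c a => funext fun s => p4_F_smul D U c a _ _ _ }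
  have hΦ : ∀ a s, Φ a s = p4_F D U a (r s).1 (r s).2.1 (r s).2.2 := fun _ _ => rfl
  have hval : ∀ a i j k (s : Sym (Fin m) 3), s.1 = ({i, j, k} : Multiset (Fin m)) →
      Φ a s = p4_F D U a i j k := by
    intro a i j k s hs
    rw [hΦ]
    exact p4_perm (p4_F D U a) (p4_F_12 D hD U a) (p4_F_23 D hD U a) ((hr s).symm.trans hs)
  have hker : LinearMap.ker Φ = TS D U := by
    ext a
    rw [LinearMap.mem_ker]
    constructor
    · intro h i j k
      have h1 := hval a i j k ⟨{i, j, k}, by simp⟩ rfl
      rw [h] at h1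
      exact h1.symm
    · intro h
      funext s
      exact h _ _ _
  have hrange : LinearMap.range Φ = ⊤ := by
    rw [eq_top_iff, ← (Pi.basisFun K (Sym (Fin m) 3)).span_eq, Submodule.span_le]
    rintro _ ⟨s, rfl⟩
    obtain ⟨⟨i, j, k⟩, ht⟩ : ∃ t : Fin m × Fin m × Fin m,
        s.1 = ({t.1, t.2.1, t.2.2} : Multiset (Fin m)) := ⟨_, hr s⟩
    simp only at ht
    obtain ⟨y, hy⟩ := p4_surj D hD U g hdet i j
    set a : Fin m → Ix m ω → K := Pi.single k y with ha
    have hL : ∀ i' j' k', tri D (a i') (U j') (U k') =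
        if i' = k ∧ ({j', k'} : Multiset (Fin m)) = {i, j} then 1 else 0 := by
      intro i' j' k'
      by_cases h : i' = k
      · subst h
        rw [ha, Pi.single_eq_same, hD.tri12, hD.tri23, hy]
        simp
      · rw [ha, Pi.single_eq_of_ne h, tri_zero_left, if_neg]
        exact fun h' => h h'.1
    have hF : ∀ i' j' k', p4_F D U a i' j' k' =
        (if i' = k ∧ ({j', k'} : Multiset (Fin m)) = {i, j} then 1 else 0) +
        (if j' = k ∧ ({i', k'} : Multiset (Fin m)) = {i, j} then 1 else 0) +
        (if k' = k ∧ ({i', j'} : Multiset (Fin m)) = {i, j} then 1 else 0) := by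
      intro i' j' k'
      rw [p4_F, hL, hD.tri12 (U i') (a j'), hL, hD.tri23 (U i') (U j'), hD.tri12 (U i') (a k'),
        hL]
    have hkij : ({i, j, k} : Multiset (Fin m)) = k ::ₘ {i, j} := by
      rw [Multiset.insert_eq_cons, Multiset.pair_comm j k, Multiset.insert_eq_cons,
        Multiset.cons_swap, Multiset.insert_eq_cons]
    -- nonzero at the triple
    have hne : Φ a s ≠ 0 := by
      rw [hval a i j k s ht, hF]
      rw [if_pos (show k = k ∧ ({i, j} : Multiset (Fin m)) = {i, j} from ⟨rfl, rfl⟩)]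
      split_ifs <;> norm_num
    have hz : ∀ s', s' ≠ s → Φ a s' = 0 := by
      intro s' hs'
      obtain ⟨⟨i', j', k'⟩, ht'⟩ : ∃ t : Fin m × Fin m × Fin m,
        s'.1 = ({t.1, t.2.1, t.2.2} : Multiset (Fin m)) := ⟨_, hr s'⟩
      simp only at ht'
      rw [hval a i' j' k' s' ht', hF, if_neg, if_neg, if_neg]
      · simp
      · rintro ⟨h1, h2⟩
        apply hs'
        apply Subtype.ext
        rw [ht, ht', hkij, ← h2, ← h1, Multiset.insert_eq_cons, Multiset.pair_comm j' k',
          Multiset.insert_eq_cons, Multiset.cons_swap, Multiset.insert_eq_cons]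
      · rintro ⟨h1, h2⟩
        apply hs'
        apply Subtype.ext
        rw [ht, ht', hkij, ← h2, ← h1, Multiset.insert_eq_cons, Multiset.insert_eq_cons,
          Multiset.cons_swap, Multiset.insert_eq_cons]
      · rintro ⟨h1, h2⟩
        apply hs'
        apply Subtype.ext
        rw [ht, ht', hkij, ← h2, ← h1, Multiset.insert_eq_cons]
    have hs : Pi.basisFun K (Sym (Fin m) 3) s = Φ ((Φ a s)⁻¹ • a) := by
      rw [Pi.basisFun_apply, map_smul]
      funext s'
      by_cases h : s' = s
      · subst h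
        rw [Pi.single_eq_same, Pi.smul_apply, smul_eq_mul, inv_mul_cancel₀ hne]
      · rw [Pi.single_eq_of_ne h, Pi.smul_apply, hz s' h, smul_zero]
    rw [hs]
    exact LinearMap.mem_range_self _ _
  have h1 := LinearMap.finrank_range_add_finrank_ker Φ
  rw [hker, hrange, finrank_top, Module.finrank_fintype_fun_eq_card, Sym.card_sym_eq_choose,
    Fintype.card_fin, Module.finrank_pi_fintype] at h1
  simp only [Module.finrank_fintype_fun_eq_card, Fintype.card_sum, Fintype.card_fin,
    Finset.sum_const, Finset.card_univ, smul_eq_mul] at h1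
  have h2 : m + 3 - 1 = m + 2 := rfl
  rw [h2] at h1
  omega

end Pool.Agent.Helper76.UF
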