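import Pool.Agent.Helper76.UF.Defs2

/-!
# Linear spaces in cubic hypersurfaces: completeness of the parameters of one step
-/

namespace Pool.Agent.Helper76.UF

variable {m : ℕ} {ω : Type*} [Fintype ω] {K : Type*} [Field K]

open TrivSqZeroExt

theorem p1_eps_mul (z : DualNumber K) : (inr 1 : DualNumber K) * z = inr z.fst := by
  ext <;> simp

theorem p1_inr_zero {x : K} (h : (inr x : DualNumber K) = 0) : x = 0 := by
  have := congrArg TrivSqZeroExt.snd h
  simpa using this

/-- Splitting off the second part. -/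
theorem p1_du_add {σ : Type*} (x v w : σ → K) :
    du x (v + w) = du x v + (inr 1 : DualNumber K) • du w 0 := by
  funext s
  rw [Pi.add_apply, Pi.smul_apply, smul_eq_mul, p1_eps_mul, fst_du]
  ext <;> simp [du]

theorem p1_du_self {σ : Type*} (z : σ → DualNumber K) (x : σ → K) (h : ∀ s, (z s).fst = x s) :
    z = du x (fun s => (z s).snd) := by
  funext s
  ext
  · rw [fst_du, h]
  · rw [snd_du]

theorem p1_eps_smul {σ : Type*} (z : σ → DualNumber K) (x : σ → K) (h : ∀ s, (z s).fst = x s) :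
    (inr 1 : DualNumber K) • z = du 0 x := by
  funext s
  rw [Pi.smul_apply, smul_eq_mul, p1_eps_mul, h]
  ext <;> simp [du]

theorem p1_fst_qf (D : Ten (Ix m ω) K) (U a : Fin m → Ix m ω → K) (y : Ix m ω → DualNumber K)
    (y0 : Ix m ω → K) (hy : ∀ l, (y l).fst = y0 l) (e : Pr m) :
    (qf (dT D) (fun i => du (U i) (a i)) y e).fst = qf D U y0 e := by
  have h := map_qf (dT D) (fun i => du (U i) (a i)) (fstHom K K K : DualNumber K →+* K) y e
  rw [mapT_fst_dT] at h
  have e1 : (fun i l => (fstHom K K K : DualNumber K →+* K) (du (U i) (a i) l)) = U := by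
    funext i l
    exact fst_du _ _ _
  have e2 : (fun l => (fstHom K K K : DualNumber K →+* K) (y l)) = y0 := by
    funext l
    exact hy l
  rw [e1, e2] at h
  exact h

theorem p1_fst_wf (D : Ten (Ix m ω) K) (U a : Fin m → Ix m ω → K) (y : Ix m ω → DualNumber K)
    (y0 : Ix m ω → K) (hy : ∀ l, (y l).fst = y0 l) (x : Option (Fin m) → DualNumber K)
    (x0 : Option (Fin m) → K) (hx : ∀ o, (x o).fst = x0 o) :
    (wf (dT D) (fun i => du (U i) (a i)) y x).fst = wf D U y0 x0 := by
  have h := map_wf (dT D) (fun i => du (U i) (a i)) (fstHom K K K : DualNumber K →+* K) y x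
  rw [mapT_fst_dT] at h
  have e1 : (fun i l => (fstHom K K K : DualNumber K →+* K) (du (U i) (a i) l)) = U := by
    funext i l
    exact fst_du _ _ _
  have e2 : (fun l => (fstHom K K K : DualNumber K →+* K) (y l)) = y0 := by
    funext l
    exact hy l
  have e3 : (fun o => (fstHom K K K : DualNumber K →+* K) (x o)) = x0 := by
    funext o
    exact hx o
  rw [e1, e2, e3] at h
  exact h

theorem p1_fst_stepY (D : Ten (Ix m ω) K) (U a : Fin m → Ix m ω → K)
    (g : Pr m → Ix m ω → DualNumber K) (g0 : Pr m → Ix m ω → K)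
    (hg : ∀ c l, (g c l).fst = g0 c l) (t : Ix m ω → DualNumber K) (t0 : Ix m ω → K)
    (ht : ∀ l, (t l).fst = t0 l) (l : Ix m ω) :
    (stepY (dT D) (fun i => du (U i) (a i)) g t l).fst = stepY D U g0 t0 l := by
  have h := map_stepY (dT D) (fun i => du (U i) (a i)) (fstHom K K K : DualNumber K →+* K) g t l
  rw [mapT_fst_dT] at h
  have e1 : (fun i l => (fstHom K K K : DualNumber K →+* K) (du (U i) (a i) l)) = U := by
    funext i l
    exact fst_du _ _ _
  have e2 : (fun c l => (fstHom K K K : DualNumber K →+* K) (g c l)) = g0 := by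
    funext c l
    exact hg c l
  have e3 : (fun l => (fstHom K K K : DualNumber K →+* K) (t l)) = t0 := by
    funext l
    exact ht l
  rw [e1, e2, e3] at h
  exact h

/-- The vector of parameters with zero `g`-part and zero `k`-part. -/
def p1_v (τ : Ix m ω → K) (σ : Fin m → Option (Fin m) → K) : Par m ω → K
  | .inl _ => 0
  | .inr (.inl l) => τ l
  | .inr (.inr (.inl _)) => 0
  | .inr (.inr (.inr (i, x))) => σ i x

theorem p1_tri_du (D : Ten (Ix m ω) K) (x y z a b c : Ix m ω → K) :
    tri (dT D) (du x a) (du y b) (du z c) =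
      inl (tri D x y z) + inr (tri D a y z + tri D x b z + tri D x y c) := by
  have h2 : ∀ x y z : Ix m ω → K, tri (dT D) (fun l => inl (x l)) (fun l => inl (y l))
      (fun l => inl (z l)) = inl (tri D x y z) := by
    intro x y z
    have := tri_map D (inlHom K K) x y z
    exact this.symm
  obtain ⟨E, hE1, hE2, hE3⟩ : ∃ E : DualNumber K, (∀ t : K, E * inl t = inr t) ∧
      (∀ t : K, E * inr t = 0) ∧ E * E = 0 := by
    refine ⟨inr 1, fun t => ?_, fun t => ?_, ?_⟩
    · rw [TrivSqZeroExt.inr_mul_inl]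
      simp
    · exact TrivSqZeroExt.inr_mul_inr _ _ _
    · exact TrivSqZeroExt.inr_mul_inr _ _ _
  have h3 : ∀ x a : Ix m ω → K, du x a =
      (fun l => (inl (x l) : DualNumber K)) + E • fun l => inl (a l) := by
    intro x a
    funext l
    rw [Pi.add_apply, Pi.smul_apply, smul_eq_mul, hE1]
    rfl
  rw [h3 x a, h3 y b, h3 z c]
  simp only [tri_add_left, tri_add_mid, tri_add_right, tri_smul_left, tri_smul_mid,
    tri_smul_right, h2, TrivSqZeroExt.inr_add]
  linear_combination hE1 (tri D a y z) + hE1 (tri D x b z) + hE1 (tri D x y c) +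
    ((inl (tri D a b z) : DualNumber K) + inl (tri D a y c) + inl (tri D x b c) +
      E * inl (tri D a b c)) * hE3

/-- Proof. Write `Ut i = du (U i) (a i)` (`VanOn` is not needed). Take for `v` the vector with
zero `g`-part and zero `k`-part, so that over the dual numbers
`yP (dT D) Ut (du π v) = stepY (dT D) Ut (gP) (du (tP π) (tP v))`. By `stepY_add`, `stepY_smul`
(with the square-zero element) it is `du (yP D U π) η0 + ε stepY D U (gP π) (tP v)` where
`η0` is the second part of `stepY (dT D) Ut _ (du (tP π) 0)`. Choose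
`tP v = ((QM D U (gP π)).det)⁻¹ • (η - η0)`; by `qf_stepY` (over the dual numbers) and `hη`,
`qf D U (η - η0) = 0`, so `stepY D U (gP π) (tP v) = η - η0` by `stepY_of_qf`, hence
`yP (dT D) Ut (du π v) = du (yP D U π) η`.
Similarly over the dual numbers (`stepF_eq`) `stepF .. i = vec Ut yt C` with
`C = wf(kP) • sP i - wf(sP i) • kP`, whose first part is `cvec D U π i`; with zero `s`-part its
second part is `γ0 i`; with `sP v i = (wf D U y (kP π))⁻¹ • (γ i - γ0 i)` it is `γ i`, because
`wf D U y (γ i - γ0 i) = 0`: over the dual numbers `wf` vanishes at `du (cvec i) (γ i)` by `hγ`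
and at `du (cvec i) (γ0 i)` by `wf_coord`. -/
theorem complete (D : Ten (Ix m ω) K) (U : Fin m → Ix m ω → K) (π : Par m ω → K)
    (hdet : (QM D U (gP π)).det ≠ 0) (hw : wf D U (yP D U π) (kP π) ≠ 0)
    (a : Fin m → Ix m ω → K) (η : Ix m ω → K) (γ : Fin m → Option (Fin m) → K)
    (hη : qf (dT D) (fun i => du (U i) (a i)) (du (yP D U π) η) = 0)
    (hγ : ∀ i, wf (dT D) (fun i => du (U i) (a i)) (du (yP D U π) η)
      (du (cvec D U π i) (γ i)) = 0) :
    ∃ v : Par m ω → K, ∀ i, stepF (dT D) (fun i => du (U i) (a i)) (du π v) i =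
      vec (fun i => du (U i) (a i)) (du (yP D U π) η) (du (cvec D U π i) (γ i)) := by
  classical
  set Ut : Fin m → Ix m ω → DualNumber K := fun i => du (U i) (a i) with hUt
  set gt : Pr m → Ix m ω → DualNumber K := fun c => du (gP π c) 0 with hgt
  have hgt1 : ∀ c l, (gt c l).fst = gP π c l := fun c l => fst_du _ _ _
  set y0 := yP D U π with hy0
  -- the vector `y`
  have hY0 : ∀ l, (stepY (dT D) Ut gt (du (tP π) 0) l).fst = y0 l := fun l =>
    p1_fst_stepY D U a gt (gP π) hgt1 _ (tP π) (fun l => fst_du _ _ _) l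
  set η0 : Ix m ω → K := fun l => (stepY (dT D) Ut gt (du (tP π) 0) l).snd with hη0
  have hY1 : stepY (dT D) Ut gt (du (tP π) 0) = du y0 η0 := p1_du_self _ _ hY0
  have hq : qf D U (η - η0) = 0 := by
    have h1 : qf (dT D) Ut (du y0 η0) = 0 := by
      rw [← hY1]
      exact qf_stepY _ _ _ _
    have h2 : du y0 η = du y0 η0 + (inr 1 : DualNumber K) • du (η - η0) 0 := by
      rw [← p1_du_add, add_sub_cancel]
    rw [h2, qf_add, h1, zero_add, qf_smul] at hη
    funext e
    have h3 := congrFun hη e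
    rw [Pi.smul_apply, smul_eq_mul, p1_eps_mul,
      p1_fst_qf D U a _ (η - η0) (fun l => fst_du _ _ _)] at h3
    exact p1_inr_zero h3
  set τ : Ix m ω → K := ((QM D U (gP π)).det)⁻¹ • (η - η0) with hτ
  have hτ1 : stepY D U (gP π) τ = η - η0 := by
    rw [hτ, stepY_smul, stepY_of_qf D U _ _ hq, smul_smul, inv_mul_cancel₀ hdet, one_smul]
  have hY : stepY (dT D) Ut gt (du (tP π) τ) = du y0 η := by
    have h1 : du (tP π) τ = du (tP π) 0 + (inr 1 : DualNumber K) • du τ 0 := by
      rw [← p1_du_add, zero_add]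
    rw [h1, stepY_add, stepY_smul, hY1, p1_eps_smul _ (η - η0)]
    · funext l
      ext <;> simp [du]
    · intro l
      rw [p1_fst_stepY D U a gt (gP π) hgt1 _ τ (fun l => fst_du _ _ _) l, hτ1]
  -- the coordinates
  set w := wf D U y0 (kP π) with hw0
  set kt : Option (Fin m) → DualNumber K := du (kP π) 0 with hkt
  have hk1 : (wf (dT D) Ut (du y0 η) kt).fst = w :=
    p1_fst_wf D U a _ y0 (fun l => fst_du _ _ _) _ (kP π) (fun o => fst_du _ _ _)
  have hC0 : ∀ i, ∀ o, ((wf (dT D) Ut (du y0 η) kt • du (sP π i) 0 -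
      wf (dT D) Ut (du y0 η) (du (sP π i) 0) • kt) o).fst = cvec D U π i o := by
    intro i o
    have h1 : (wf (dT D) Ut (du y0 η) (du (sP π i) 0)).fst = wf D U y0 (sP π i) :=
      p1_fst_wf D U a _ y0 (fun l => fst_du _ _ _) _ (sP π i) (fun o => fst_du _ _ _)
    rw [Pi.sub_apply, Pi.smul_apply, Pi.smul_apply, smul_eq_mul, smul_eq_mul,
      TrivSqZeroExt.fst_sub, TrivSqZeroExt.fst_mul, TrivSqZeroExt.fst_mul, hk1, h1, hkt, fst_du,
      fst_du]
    rfl
  set γ0 : Fin m → Option (Fin m) → K := fun i o => ((wf (dT D) Ut (du y0 η) kt • du (sP π i) 0 -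
      wf (dT D) Ut (du y0 η) (du (sP π i) 0) • kt) o).snd with hγ0
  have hC1 : ∀ i, wf (dT D) Ut (du y0 η) kt • du (sP π i) 0 -
      wf (dT D) Ut (du y0 η) (du (sP π i) 0) • kt = du (cvec D U π i) (γ0 i) := fun i =>
    p1_du_self _ _ (hC0 i)
  have hwz : ∀ i, wf D U y0 (γ i - γ0 i) = 0 := by
    intro i
    have h1 : wf (dT D) Ut (du y0 η) (du (cvec D U π i) (γ0 i)) = 0 := by
      rw [← hC1]
      exact wf_coord _ _ _ _ _
    have h2 : du (cvec D U π i) (γ i) =
        du (cvec D U π i) (γ0 i) + (inr 1 : DualNumber K) • du (γ i - γ0 i) 0 := by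
      rw [← p1_du_add, add_sub_cancel]
    have h3 := hγ i
    rw [h2, wf_add, h1, zero_add, wf_smul, p1_eps_mul,
      p1_fst_wf D U a _ y0 (fun l => fst_du _ _ _) _ (γ i - γ0 i) (fun o => fst_du _ _ _)] at h3
    exact p1_inr_zero h3
  refine ⟨p1_v τ (fun i => w⁻¹ • (γ i - γ0 i)), fun i => ?_⟩
  have e1 : gP (du π (p1_v τ (fun i => w⁻¹ • (γ i - γ0 i)))) = gt := by
    funext c l
    rfl
  have e2 : tP (du π (p1_v τ (fun i => w⁻¹ • (γ i - γ0 i)))) = du (tP π) τ := by
    funext l
    rfl
  have e3 : kP (du π (p1_v τ (fun i => w⁻¹ • (γ i - γ0 i)))) = kt := by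
    funext l
    rfl
  have e4 : sP (du π (p1_v τ (fun i => w⁻¹ • (γ i - γ0 i)))) i =
      du (sP π i) (w⁻¹ • (γ i - γ0 i)) := by
    funext l
    rfl
  have e5 : yP (dT D) Ut (du π (p1_v τ (fun i => w⁻¹ • (γ i - γ0 i)))) = du y0 η := by
    rw [yP, e1, e2, hY]
  rw [stepF_eq, e5, e3, e4]
  congr 1
  have h1 : du (sP π i) (w⁻¹ • (γ i - γ0 i)) =
      du (sP π i) 0 + (inr 1 : DualNumber K) • du (w⁻¹ • (γ i - γ0 i)) 0 := by
    rw [← p1_du_add, zero_add]
  have hs : wf D U y0 (w⁻¹ • (γ i - γ0 i)) = 0 := by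
    rw [wf_smul, hwz, mul_zero]
  have h2 : (wf (dT D) Ut (du y0 η) (du (w⁻¹ • (γ i - γ0 i)) 0)).fst = 0 := by
    rw [p1_fst_wf D U a _ y0 (fun l => fst_du _ _ _) _ (w⁻¹ • (γ i - γ0 i))
      (fun o => fst_du _ _ _), hs]
  rw [h1, wf_add, wf_smul, p1_eps_mul, h2, TrivSqZeroExt.inr_zero, add_zero, smul_add]
  have h3 : wf (dT D) Ut (du y0 η) kt • du (sP π i) 0 +
      wf (dT D) Ut (du y0 η) kt • (inr 1 : DualNumber K) • du (w⁻¹ • (γ i - γ0 i)) 0 -
        wf (dT D) Ut (du y0 η) (du (sP π i) 0) • kt =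
      du (cvec D U π i) (γ0 i) + (inr 1 : DualNumber K) •
        (wf (dT D) Ut (du y0 η) kt • du (w⁻¹ • (γ i - γ0 i)) 0) := by
    rw [← hC1 i, smul_comm (inr 1 : DualNumber K)]
    abel
  rw [h3, p1_eps_smul _ (γ i - γ0 i)]
  · funext o
    ext <;> simp [du]
  · intro o
    rw [Pi.smul_apply, smul_eq_mul, TrivSqZeroExt.fst_mul, hk1, fst_du, Pi.smul_apply,
      smul_eq_mul, mul_inv_cancel_left₀ hw]

/-- A change of basis of the subspace does not change the residual subspace, after a change of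
the parameters of the step.

Proof. `complete` with `a = frm U h`, `η = 0`, `γ i none = 0` and
`γ i (some l) = - ∑ j, cvec D U π i (some j) * h j l`. The hypothesis on `qf` holds since
`D(U i, U j, y) = 0` for all `i`, `j` (`IsSym.qf_zero`, `qf_stepY`), the one on `wf` is
`∑ l, C l * ∑ j, h l j * w j - ∑ l, (∑ j, C j * h j l) * w l = 0` with `w j = 3 D(U j, y, y)`,
and the second part of the resulting `vec` is `∑ l, C l • ∑ j, h l j • U j + ∑ l, γ l • U l = 0`.
Conclude with `stepF_du`. -/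
theorem frame_dir (D : Ten (Ix m ω) K) (hD : IsSym D) (U : Fin m → Ix m ω → K)
    (π : Par m ω → K) (hdet : (QM D U (gP π)).det ≠ 0)
    (hw : wf D U (yP D U π) (kP π) ≠ 0) (h : Fin m → Fin m → K) :
    ∃ v : Par m ω → K, dstep D U π (frm U h) v = 0 := by
  classical
  set y0 := yP D U π with hy0
  have hq0 : qf D U y0 = 0 := qf_stepY _ _ _ _
  have ht : ∀ i j, tri D (U i) (U j) y0 = 0 := hD.qf_zero U hq0
  set γ : Fin m → Option (Fin m) → K := fun i o =>
    Option.elim o 0 (fun l => - ∑ j, cvec D U π i (some j) * h j l) with hγ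
  have hfl : ∀ i y z, tri D (frm U h i) y z = ∑ j, h i j * tri D (U j) y z := by
    intro i y z
    rw [frm, tri_sum_left]
    exact Finset.sum_congr rfl fun j _ => tri_smul_left _ _ _ _ _
  have hfm : ∀ i x z, tri D x (frm U h i) z = ∑ j, h i j * tri D x (U j) z := by
    intro i x z
    rw [frm, tri_sum_mid]
    exact Finset.sum_congr rfl fun j _ => tri_smul_mid _ _ _ _ _
  obtain ⟨v, hv⟩ := complete D U π hdet hw (frm U h) 0 γ (by
    apply qf_eq_zero
    intro i j
    rw [← hy0, p1_tri_du, hfl, hfm, ht]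
    simp only [ht, mul_zero, Finset.sum_const_zero, tri_zero_right, add_zero, inl_zero, inr_zero])
    (by
      intro i
      have hc : wf D U y0 (cvec D U π i) = 0 := wf_coord _ _ _ _ _
      refine dual_ext ?_ ?_
      · rw [p1_fst_wf D U _ _ y0 (fun l => fst_du _ _ _) _ (cvec D U π i)
          (fun o => fst_du _ _ _), hc]
        rfl
      · have h3 : (3 : DualNumber K) = inl 3 := by
          have : (inlHom K K) 3 = 3 := map_ofNat _ 3
          exact this.symm
        simp only [wf, p1_tri_du, hfl, tri_zero_mid, tri_zero_right, tri_zero_left, add_zero,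
          h3, inr_zero, ← hy0]
        simp only [TrivSqZeroExt.snd_add, TrivSqZeroExt.snd_mul, TrivSqZeroExt.snd_sum,
          TrivSqZeroExt.fst_add, TrivSqZeroExt.fst_mul, TrivSqZeroExt.fst_inl,
          TrivSqZeroExt.snd_inl, TrivSqZeroExt.fst_inr, TrivSqZeroExt.snd_inr, fst_du, snd_du,
          smul_eq_mul, MulOpposite.smul_eq_mul_unop, MulOpposite.unop_op, add_zero, zero_add,
          mul_zero, zero_mul, TrivSqZeroExt.snd_zero]
        simp only [hγ, Option.elim_some, Option.elim_none, zero_mul, add_zero, neg_mul]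
        rw [Finset.sum_add_distrib, Finset.sum_neg_distrib]
        have e1 : ∑ x, (∑ j, cvec D U π i (some j) * h j x) * (3 * tri D (U x) y0 y0) =
            ∑ x, cvec D U π i (some x) * (3 * ∑ j, h x j * tri D (U j) y0 y0) := by
          simp only [Finset.sum_mul, Finset.mul_sum]
          rw [Finset.sum_comm]
          exact Finset.sum_congr rfl fun _ _ => Finset.sum_congr rfl fun _ _ => by ring
        rw [e1]
        ring)
  refine ⟨v, ?_⟩
  funext i l
  have h1 := congrFun (hv i) l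
  rw [stepF_du] at h1
  have h2 := congrArg TrivSqZeroExt.snd h1
  rw [snd_du] at h2
  rw [h2]
  simp only [vec, Pi.add_apply, Finset.sum_apply, Pi.smul_apply, smul_eq_mul]
  simp only [TrivSqZeroExt.snd_add, TrivSqZeroExt.snd_mul, TrivSqZeroExt.snd_sum, fst_du, snd_du,
    smul_eq_mul, MulOpposite.smul_eq_mul_unop, MulOpposite.unop_op, Pi.zero_apply, mul_zero,
    zero_mul, add_zero, zero_add]
  simp only [hγ, Option.elim_some, Option.elim_none, zero_mul, mul_zero, add_zero, neg_mul,
    mul_neg, frm, Finset.sum_apply, Pi.smul_apply, smul_eq_mul]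
  rw [Finset.sum_add_distrib, Finset.sum_neg_distrib]
  have e1 : ∑ x, (∑ j, cvec D U π i (some j) * h j x) * U x l =
      ∑ x, cvec D U π i (some x) * ∑ j, h x j * U j l := by
    simp only [Finset.mul_sum, Finset.sum_mul]
    rw [Finset.sum_comm]
    exact Finset.sum_congr rfl fun _ _ => Finset.sum_congr rfl fun _ _ => by ring
  rw [e1]
  ring

end Pool.Agent.Helper76.UF
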