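import Pool.Agent.Helper76.UF.St.P1

/-!
# Linear spaces in cubic hypersurfaces: one step is surjective on tangent spaces
-/

namespace Pool.Agent.Helper76.UF

open TrivSqZeroExt

section aux

variable {m : ℕ} {ω : Type*} [Fintype ω] {K : Type*} [Field K]

/-- The ordered pair with two given entries. -/
def p2_pr (i j : Fin m) : Pr m := if h : i ≤ j then ⟨(i, j), h⟩ else ⟨(j, i), le_of_not_ge h⟩

theorem p2_pr_inj {i i' j : Fin m} (h : p2_pr i j = p2_pr i' j) : i = i' := by
  unfold p2_pr at h
  split_ifs at h with h1 h2 h2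
  · exact congrArg (fun e : Pr m => e.1.1) h
  · have k1 : i = j := congrArg (fun e : Pr m => e.1.1) h
    have k2 : j = i' := congrArg (fun e : Pr m => e.1.2) h
    exact k1.trans k2
  · have k1 : j = i' := congrArg (fun e : Pr m => e.1.1) h
    have k2 : i = j := congrArg (fun e : Pr m => e.1.2) h
    exact k2.trans k1
  · exact congrArg (fun e : Pr m => e.1.2) h

theorem p2_tri_pr {D : Ten (Ix m ω) K} (hD : IsSym D) (U : Fin m → Ix m ω → K) (i j : Fin m)
    (g : Ix m ω → K) : tri D (U (p2_pr i j).1.1) (U (p2_pr i j).1.2) g =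
      tri D (U i) (U j) g := by
  unfold p2_pr
  split_ifs with h
  · rfl
  · exact hD.tri12 _ _ _

/-- The basis vectors are linearly independent if the quadratic forms are. -/
theorem p2_li {D : Ten (Ix m ω) K} (hD : IsSym D) (U : Fin m → Ix m ω → K)
    (g : Pr m → Ix m ω → K) (hdet : (QM D U g).det ≠ 0) (c : Fin m → K)
    (h : ∑ i, c i • U i = 0) : c = 0 := by
  by_contra hc
  obtain ⟨j, hj⟩ := Function.ne_iff.1 hc
  apply hdet
  rw [← Matrix.exists_vecMul_eq_zero_iff]
  refine ⟨fun e => ∑ i, if p2_pr i j = e then c i else 0, ?_, ?_⟩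
  · intro h0
    have h1 := congrFun h0 (p2_pr j j)
    simp only [Pi.zero_apply] at h1
    rw [Finset.sum_eq_single j] at h1
    · rw [if_pos rfl] at h1
      exact hj h1
    · intro i _ hij
      rw [if_neg fun h => hij (p2_pr_inj h)]
    · intro h
      exact absurd (Finset.mem_univ j) h
  · funext k
    have h1 : tri D (∑ i, c i • U i) (U j) (g k) = 0 := by rw [h, tri_zero_left]
    rw [tri_sum_left] at h1
    simp only [tri_smul_left] at h1
    simp only [Matrix.vecMul, dotProduct, Finset.sum_mul, ite_mul, zero_mul, Pi.zero_apply]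
    rw [Finset.sum_comm]
    refine Eq.trans (Finset.sum_congr rfl fun i _ => ?_) h1
    rw [Finset.sum_ite_eq, if_pos (Finset.mem_univ _), ← p2_tri_pr hD U i j (g k)]
    rfl

/-- There is a vector with given values of the quadratic form. -/
theorem p2_solve {D : Ten (Ix m ω) K} (hD : IsSym D) (U : Fin m → Ix m ω → K)
    (g : Pr m → Ix m ω → K) (hdet : (QM D U g).det ≠ 0) (S : Fin m → Fin m → K)
    (hS : ∀ i j, S i j = S j i) : ∃ v : Ix m ω → K, ∀ i j, tri D (U i) (U j) v = S i j := by
  set t : Pr m → K := (QM D U g)⁻¹.mulVec (fun e => S e.1.1 e.1.2) with ht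
  have h1 : (QM D U g).mulVec t = fun e => S e.1.1 e.1.2 := by
    rw [ht, Matrix.mulVec_mulVec, Matrix.mul_nonsing_inv _ (isUnit_iff_ne_zero.2 hdet),
      Matrix.one_mulVec]
  have h2 : qf D U (∑ c, t c • g c) = fun e => S e.1.1 e.1.2 := by
    rw [← h1, qf_sum]
    funext e
    rw [Finset.sum_apply, Matrix.mulVec, dotProduct]
    refine Finset.sum_congr rfl fun c _ => ?_
    rw [qf_smul, Pi.smul_apply, smul_eq_mul, mul_comm]
    rfl
  refine ⟨∑ c, t c • g c, fun i j => ?_⟩
  rcases le_total i j with h | h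
  · exact congrFun h2 ⟨(i, j), h⟩
  · rw [hD.tri12, hS]
    exact congrFun h2 ⟨(j, i), h⟩

/-- A linear map with given values on a basis of the kernel of `w`. -/
theorem p2_beta {V : Type*} [AddCommGroup V] [Module K V] (C : Fin m → Option (Fin m) → K)
    (w : (Option (Fin m) → K) →ₗ[K] K) (e : Option (Fin m) → K) (he : w e = 1)
    (hC : ∀ i, w (C i) = 0) (hli : ∀ c : Fin m → K, ∑ i, c i • C i = 0 → c = 0)
    (b : Fin m → V) : ∃ β : (Option (Fin m) → K) →ₗ[K] V, (∀ i, β (C i) = b i) ∧ β e = 0 ∧
      ∀ x, w x = 0 → ∃ c : Fin m → K, x = ∑ i, c i • C i := by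
  set B : Option (Fin m) → (Option (Fin m) → K) := fun o => o.elim e C with hB
  have h1 : LinearIndependent K B := by
    rw [Fintype.linearIndependent_iff]
    intro g hg
    rw [Fintype.sum_option] at hg
    have h2 := congrArg w hg
    simp only [hB, Option.elim_none, Option.elim_some, map_add, map_smul, map_sum, hC, he,
      mul_zero, Finset.sum_const_zero, add_zero, map_zero, smul_eq_mul, mul_one] at h2
    simp only [hB, Option.elim_none, Option.elim_some, h2, zero_smul, zero_add] at hg
    have h3 := hli _ hg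
    intro o
    cases o with
    | none => exact h2
    | some i => exact congrFun h3 i
  set Bs := basisOfLinearIndependentOfCardEqFinrank h1 (by simp) with hBs
  have h2 : ∀ o, Bs o = B o := fun o => by
    rw [hBs, coe_basisOfLinearIndependentOfCardEqFinrank]
  refine ⟨Bs.constr K (fun o => o.elim 0 b), ?_, ?_, ?_⟩
  · intro i
    have h3 : C i = Bs (some i) := (h2 (some i)).symm
    rw [h3, Module.Basis.constr_basis]
    rfl
  · have h3 : e = Bs none := (h2 none).symm
    rw [h3, Module.Basis.constr_basis]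
    rfl
  · intro x hx
    have h3 := Bs.sum_repr x
    rw [Fintype.sum_option] at h3
    simp only [h2, hB, Option.elim_none, Option.elim_some] at h3
    have h4 := congrArg w h3
    simp only [map_add, map_smul, map_sum, hC, he, mul_zero, Finset.sum_const_zero, add_zero,
      hx, smul_eq_mul, mul_one] at h4
    rw [h4, zero_smul, zero_add] at h3
    exact ⟨fun i => Bs.repr x (some i), h3.symm⟩

/-- The form `wf` as a linear map. -/
def p2_w (D : Ten (Ix m ω) K) (U : Fin m → Ix m ω → K) (y : Ix m ω → K) :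
    (Option (Fin m) → K) →ₗ[K] K where
  toFun := wf D U y
  map_add' := wf_add D U y
  map_smul' := wf_smul D U y

/-- The map `vec` as a linear map. -/
def p2_P (U : Fin m → Ix m ω → K) (y : Ix m ω → K) :
    (Option (Fin m) → K) →ₗ[K] (Ix m ω → K) where
  toFun := vec U y
  map_add' := vec_add U y
  map_smul' := vec_smul U y

theorem p2_ts {D : Ten (Ix m ω) K} (hD : IsSym D) (C : Fin m → Option (Fin m) → K)
    (P β : (Option (Fin m) → K) →ₗ[K] (Ix m ω → K))
    (hb : (fun i => β (C i)) ∈ TS D (fun i => P (C i))) (c c' c'' : Fin m → K) :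
    tri D (P (∑ i, c' i • C i)) (P (∑ i, c'' i • C i)) (β (∑ i, c i • C i)) +
      tri D (P (∑ i, c i • C i)) (P (∑ i, c'' i • C i)) (β (∑ i, c' i • C i)) +
      tri D (P (∑ i, c i • C i)) (P (∑ i, c' i • C i)) (β (∑ i, c'' i • C i)) = 0 := by
  have l1 : ∀ (c : Fin m → K) (x x' : Option (Fin m) → K),
      tri D (P x) (P x') (β (∑ i, c i • C i)) + tri D (P (∑ i, c i • C i)) (P x') (β x) +
        tri D (P (∑ i, c i • C i)) (P x) (β x') =
      ∑ i, c i * (tri D (P x) (P x') (β (C i)) + tri D (P (C i)) (P x') (β x) +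
        tri D (P (C i)) (P x) (β x')) := by
    intro c x x'
    simp only [map_sum, map_smul, tri_sum_left, tri_sum_right, tri_smul_left, tri_smul_right,
      mul_add, Finset.sum_add_distrib]
  have s : ∀ x x' x'' : Option (Fin m) → K,
      tri D (P x') (P x'') (β x) + tri D (P x) (P x'') (β x') + tri D (P x) (P x') (β x'') =
      tri D (P x) (P x'') (β x') + tri D (P x') (P x'') (β x) +
        tri D (P x') (P x) (β x'') := by
    intro x x' x''
    rw [hD.tri12 (P x') (P x)]
    ring
  have s' : ∀ x x' x'' : Option (Fin m) → K,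
      tri D (P x') (P x'') (β x) + tri D (P x) (P x'') (β x') + tri D (P x) (P x') (β x'') =
      tri D (P x) (P x') (β x'') + tri D (P x'') (P x') (β x) +
        tri D (P x'') (P x) (β x') := by
    intro x x' x''
    rw [hD.tri12 (P x'') (P x), hD.tri12 (P x'') (P x')]
    ring
  rw [l1]
  refine Finset.sum_eq_zero fun i _ => ?_
  rw [s, l1, mul_eq_zero]
  right
  refine Finset.sum_eq_zero fun j _ => ?_
  rw [s', l1, mul_eq_zero]
  right
  refine Finset.sum_eq_zero fun k _ => ?_
  rw [mul_eq_zero]
  right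
  have h := hb i j k
  have e1 : tri D (β (C i)) (P (C j)) (P (C k)) = tri D (P (C j)) (P (C k)) (β (C i)) := by
    rw [hD.tri12, hD.tri23]
  have e2 : tri D (P (C i)) (β (C j)) (P (C k)) = tri D (P (C i)) (P (C k)) (β (C j)) := by
    rw [hD.tri23]
  rw [e1, e2] at h
  have e3 := hD.tri12 (P (C j)) (P (C i)) (β (C k))
  have e4 := hD.tri12 (P (C k)) (P (C i)) (β (C j))
  have e5 := hD.tri12 (P (C k)) (P (C j)) (β (C i))
  linear_combination h + e3 + e4 + e5

/-- The trilinear form over the dual numbers. -/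
theorem p2_tri_du (D : Ten (Ix m ω) K) (x y z a b c : Ix m ω → K) :
    tri (dT D) (du x a) (du y b) (du z c) =
      inl (tri D x y z) + inr (tri D a y z + tri D x b z + tri D x y c) := by
  have h2 : ∀ x y z : Ix m ω → K, tri (dT D) (fun l => inl (x l)) (fun l => inl (y l))
      (fun l => inl (z l)) = inl (tri D x y z) := by
    intro x y z
    have := tri_map D (inlHom K K) x y z
    exact this.symm
  obtain ⟨E, hE1, hE2, hE3⟩ : ∃ E : DualNumber K, (∀ t : K, E * inl t = inr t) ∧
      (∀ t : K, E * inr t = 0) ∧ E * E = 0 := by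
    refine ⟨inr 1, fun t => ?_, fun t => ?_, ?_⟩
    · rw [TrivSqZeroExt.inr_mul_inl]
      simp
    · exact TrivSqZeroExt.inr_mul_inr _ _ _
    · exact TrivSqZeroExt.inr_mul_inr _ _ _
  have h3 : ∀ x a : Ix m ω → K, du x a =
      (fun l => (inl (x l) : DualNumber K)) + E • fun l => inl (a l) := by
    intro x a
    funext l
    rw [Pi.add_apply, Pi.smul_apply, smul_eq_mul, hE1]
    rfl
  rw [h3 x a, h3 y b, h3 z c]
  simp only [tri_add_left, tri_add_mid, tri_add_right, tri_smul_left, tri_smul_mid,
    tri_smul_right, h2, TrivSqZeroExt.inr_add]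
  linear_combination hE1 (tri D a y z) + hE1 (tri D x b z) + hE1 (tri D x y c) +
    ((inl (tri D a b z) : DualNumber K) + inl (tri D a y c) + inl (tri D x b c) +
      E * inl (tri D a b c)) * hE3

/-- The identity for the derivative of the form. -/
theorem p2_key {D : Ten (Ix m ω) K} (hD : IsSym D) (x1 x1' x1'' e b b' b'' v : Ix m ω → K)
    (a a' a'' : K)
    (h : tri D x1' x1'' b + tri D x1 x1'' b' + tri D x1 x1' b'' = 0) :
    2 * (3 * (tri D (x1' + a' • e) (x1'' + a'' • e) (b + a • v) +
      tri D (x1 + a • e) (x1'' + a'' • e) (b' + a' • v) +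
      tri D (x1 + a • e) (x1' + a' • e) (b'' + a'' • v))) =
      a * (6 * tri D (x1' + a' • e) (x1'' + a'' • e) v +
        (6 * (tri D x1' e b'' + tri D x1'' e b') +
          3 * (a' * tri D e e b'' + a'' * tri D e e b'))) +
      a' * (6 * tri D (x1 + a • e) (x1'' + a'' • e) v +
        (6 * (tri D x1 e b'' + tri D x1'' e b) +
          3 * (a * tri D e e b'' + a'' * tri D e e b))) +
      a'' * (6 * tri D (x1 + a • e) (x1' + a' • e) v +
        (6 * (tri D x1 e b' + tri D x1' e b) +
          3 * (a * tri D e e b' + a' * tri D e e b))) := by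
  have e1 := hD.tri12 e x1'' b
  have e2 := hD.tri12 e x1'' b'
  have e3 := hD.tri12 e x1' b''
  have e4 : ∀ x x' b v : Ix m ω → K, ∀ a : K, tri D x x' (b + a • v) =
      tri D x x' b + a * tri D x x' v := fun x x' b v a => by
    rw [tri_add_right, tri_smul_right]
  have e5 : ∀ x x' b : Ix m ω → K, ∀ a a' : K, tri D (x + a • e) (x' + a' • e) b =
      tri D x x' b + a' * tri D x e b + a * tri D e x' b + a * a' * tri D e e b :=
    fun x x' b a a' => by
    rw [tri_add_left, tri_add_mid, tri_add_mid, tri_smul_left, tri_smul_left, tri_smul_mid,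
      tri_smul_mid]
    ring
  rw [e4, e4, e4, e5 x1' x1'' b, e5 x1 x1'' b', e5 x1 x1' b'']
  linear_combination 6 * h + 6 * a' * e1 + 6 * a * e2 + 6 * a * e3

omit [Fintype ω] in
theorem p2_vs (U : Fin m → Ix m ω → K) (y : Ix m ω → K) (i : Fin m) :
    vec U y (Pi.single (some i) 1) = U i := by
  rw [vec, Finset.sum_eq_single i]
  · simp
  · intro j _ hj
    rw [Pi.single_eq_of_ne (fun h => hj (Option.some_injective _ h)), zero_smul]
  · intro h
    exact absurd (Finset.mem_univ i) h

omit [Fintype ω] in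
theorem p2_vn (U : Fin m → Ix m ω → K) (y : Ix m ω → K) :
    vec U y (Pi.single none 1) = y := by
  rw [vec, Finset.sum_eq_zero]
  · simp
  · intro j _
    rw [Pi.single_eq_of_ne (by simp), zero_smul]

theorem p2_ws (D : Ten (Ix m ω) K) (U : Fin m → Ix m ω → K) (y : Ix m ω → K) (i : Fin m) :
    wf D U y (Pi.single (some i) 1) = 3 * tri D (U i) y y := by
  rw [wf, Finset.sum_eq_single i]
  · simp
  · intro j _ hj
    rw [Pi.single_eq_of_ne (fun h => hj (Option.some_injective _ h)), zero_mul]
  · intro h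
    exact absurd (Finset.mem_univ i) h

theorem p2_wn (D : Ten (Ix m ω) K) (U : Fin m → Ix m ω → K) (y : Ix m ω → K) :
    wf D U y (Pi.single none 1) = tri D y y y := by
  rw [wf, Finset.sum_eq_zero]
  · simp
  · intro j _
    rw [Pi.single_eq_of_ne (by simp), zero_mul]

theorem p2_lin {V : Type*} [AddCommGroup V] [Module K V] (f : (Option (Fin m) → K) →ₗ[K] V)
    (x : Option (Fin m) → K) :
    f x = ∑ l, x (some l) • f (Pi.single (some l) 1) + x none • f (Pi.single none 1) := by
  have h : x = ∑ o, x o • (Pi.single o 1 : Option (Fin m) → K) := by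
    funext o
    rw [Finset.sum_apply, Finset.sum_eq_single o]
    · simp
    · intro j _ hj
      rw [Pi.smul_apply, Pi.single_eq_of_ne hj.symm, smul_zero]
    · intro h
      exact absurd (Finset.mem_univ o) h
  conv_lhs => rw [h]
  rw [map_sum, Fintype.sum_option, add_comm]
  simp only [map_smul]

theorem p2_main [CharZero K] {D : Ten (Ix m ω) K} (hD : IsSym D) (U : Fin m → Ix m ω → K)
    (hU : VanOn D U) (y : Ix m ω → K) (hy : qf D U y = 0) (g : Pr m → Ix m ω → K)
    (hdet : (QM D U g).det ≠ 0) (C : Fin m → Option (Fin m) → K) (k : Option (Fin m) → K)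
    (hk : wf D U y k ≠ 0) (hC : ∀ i, wf D U y (C i) = 0)
    (hli : ∀ c : Fin m → K, ∑ i, c i • C i = 0 → c = 0) (b : Fin m → Ix m ω → K)
    (hb : b ∈ TS D (fun i => vec U y (C i))) :
    ∃ (a : Fin m → Ix m ω → K) (η : Ix m ω → K) (γ : Fin m → Option (Fin m) → K),
      a ∈ TS D U ∧ qf (dT D) (fun i => du (U i) (a i)) (du y η) = 0 ∧
      (∀ i, wf (dT D) (fun i => du (U i) (a i)) (du y η) (du (C i) (γ i)) = 0) ∧
      ∀ i l, (vec (fun i => du (U i) (a i)) (du y η) (du (C i) (γ i)) l).snd = b i l := by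
  have h6 : (6 : K) ≠ 0 := by norm_num
  have h2 : (2 : K) ≠ 0 := by norm_num
  have h3 : (3 : K) ≠ 0 := by norm_num
  set P := p2_P U y with hP
  set w := p2_w D U y with hw
  have hPv : ∀ x, P x = vec U y x := fun _ => rfl
  have hwv : ∀ x, w x = wf D U y x := fun _ => rfl
  set e : Option (Fin m) → K := (w k)⁻¹ • k with he0
  have he : w e = 1 := by
    rw [he0, map_smul, smul_eq_mul]
    exact inv_mul_cancel₀ hk
  obtain ⟨β, hβC, hβe, hβs⟩ := p2_beta C w e he hC hli b
  have hb' : (fun i => β (C i)) ∈ TS D (fun i => P (C i)) := by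
    have : (fun i => β (C i)) = b := funext hβC
    rw [this]
    exact hb
  set Q : (Option (Fin m) → K) → (Option (Fin m) → K) → K := fun x x' =>
    6 * (tri D (P (x - w x • e)) (P e) (β x') + tri D (P (x' - w x' • e)) (P e) (β x)) +
      3 * (w x * tri D (P e) (P e) (β x') + w x' * tri D (P e) (P e) (β x)) with hQ
  have hQs : ∀ x x', Q x x' = Q x' x := by
    intro x x'
    simp only [hQ]
    ring
  obtain ⟨v, hv⟩ := p2_solve hD U g hdet
    (fun i j => -(1 / 6) * Q (Pi.single (some i) 1) (Pi.single (some j) 1))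
    (fun i j => by rw [hQs])
  set X : (Option (Fin m) → K) →ₗ[K] (Ix m ω → K) := β + w.smulRight v with hX
  have hXx : ∀ x, X x = β x + w x • v := fun x => rfl
  set S : (Option (Fin m) → K) → (Option (Fin m) → K) → K := fun x x' =>
    6 * tri D (P x) (P x') v + Q x x' with hS
  have hT : ∀ x x' x'', 6 * (tri D (P x') (P x'') (X x) + tri D (P x) (P x'') (X x') +
      tri D (P x) (P x') (X x'')) = w x * S x' x'' + w x' * S x x'' + w x'' * S x x' := by
    intro x x' x''
    have k0 : ∀ x, w (x - w x • e) = 0 := fun x => by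
      rw [map_sub, map_smul, he, smul_eq_mul, mul_one, sub_self]
    have kP : ∀ x, P (x - w x • e) + w x • P e = P x := fun x => by
      rw [map_sub, map_smul, sub_add_cancel]
    have kβ : ∀ x, β (x - w x • e) = β x := fun x => by
      rw [map_sub, map_smul, hβe, smul_zero, sub_zero]
    obtain ⟨c, hc⟩ := hβs _ (k0 x)
    obtain ⟨c', hc'⟩ := hβs _ (k0 x')
    obtain ⟨c'', hc''⟩ := hβs _ (k0 x'')
    have k1 := p2_ts hD C P β hb' c c' c''
    rw [← hc, ← hc', ← hc'', kβ, kβ, kβ] at k1
    have k2 := p2_key hD (P (x - w x • e)) (P (x' - w x' • e)) (P (x'' - w x'' • e)) (P e)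
      (β x) (β x') (β x'') v (w x) (w x') (w x'') k1
    rw [kP, kP, kP] at k2
    simp only [hXx, hS, hQ]
    linear_combination k2
  have hSs : ∀ x x', S x x' = S x' x := by
    intro x x'
    simp only [hS]
    rw [hQs x x', hD.tri12]
  have hSij : ∀ i j, S (Pi.single (some i) 1) (Pi.single (some j) 1) = 0 := by
    intro i j
    simp only [hS]
    rw [hPv, hPv, p2_vs, p2_vs, hv]
    field_simp
    ring
  set δ : Fin m → Option (Fin m) → K := fun i => Pi.single (some i) 1 with hδ
  set δn : Option (Fin m) → K := Pi.single none 1 with hδn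
  set h : Fin m → K := fun l => S (δ l) δn / 2 with hh
  set hn : K := S δn δn / 4 with hhn
  have hSl : ∀ l, S (δ l) δn = 2 * h l := fun l => by
    rw [hh]
    field_simp
  have hSn : S δn δn = 4 * hn := by
    rw [hhn]
    field_simp
  have Pδ : ∀ i, P (δ i) = U i := fun i => p2_vs U y i
  have Pδn : P δn = y := p2_vn U y
  have wδ : ∀ i, w (δ i) = 3 * tri D (U i) y y := fun i => p2_ws D U y i
  have wδn : w δn = tri D y y y := p2_wn D U y
  have hy0 : ∀ i j, tri D (U i) (U j) y = 0 := hD.qf_zero U hy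
  -- the values of the derivative
  have T1 : ∀ i j k, tri D (U j) (U k) (X (δ i)) + tri D (U i) (U k) (X (δ j)) +
      tri D (U i) (U j) (X (δ k)) = 0 := by
    intro i j k
    have := hT (δ i) (δ j) (δ k)
    rw [hSij, hSij, hSij, Pδ, Pδ, Pδ] at this
    refine (mul_eq_zero.1 (this.trans ?_)).resolve_left h6
    ring
  have T2 : ∀ i j, tri D (U j) y (X (δ i)) + tri D (U i) y (X (δ j)) +
      tri D (U i) (U j) (X δn) = tri D (U i) y y * h j + tri D (U j) y y * h i := by
    intro i j
    have := hT (δ i) (δ j) δn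
    rw [hSij, hSl, hSl, Pδ, Pδ, Pδn, wδ, wδ, wδn] at this
    refine mul_left_cancel₀ h6 (this.trans ?_)
    ring
  have T3 : ∀ l, 3 * (tri D y y (X (δ l)) + 2 * tri D (U l) y (X δn)) =
      6 * tri D (U l) y y * hn + 2 * tri D y y y * h l := by
    intro l
    have := hT (δ l) δn δn
    rw [hSl, hSn, Pδ, Pδn, wδ, wδn] at this
    refine mul_left_cancel₀ h2 ?_
    linear_combination this
  have T4 : 3 * tri D y y (X δn) = 2 * tri D y y y * hn := by
    have := hT δn δn δn
    rw [hSn, Pδn, wδn] at this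
    refine mul_left_cancel₀ h6 ?_
    linear_combination this
  refine ⟨fun i => X (δ i) - h i • y, X δn - hn • y,
    fun i o => o.elim (∑ l, C i (some l) * h l + C i none * hn) (fun _ => 0), ?_, ?_, ?_, ?_⟩
  · intro i j k
    have e1 : ∀ a x z : Ix m ω → K, tri D a x z = tri D x z a := fun a x z => by
      rw [hD.tri12, hD.tri23]
    rw [e1, hD.tri23 (U i) _ (U k)]
    simp only [tri_sub_right, tri_smul_right, hy0]
    linear_combination T1 i j k
  · refine qf_eq_zero _ _ fun i j => ?_
    rw [p2_tri_du, hy0]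
    have e0 : tri D (X (δ i) - h i • y) (U j) y + tri D (U i) (X (δ j) - h j • y) y +
        tri D (U i) (U j) (X δn - hn • y) = 0 := by
      have e1 : tri D (X (δ i) - h i • y) (U j) y = tri D (U j) y (X (δ i) - h i • y) := by
        rw [hD.tri12, hD.tri23]
      rw [e1, hD.tri23 (U i) _ y]
      simp only [tri_sub_right, tri_smul_right, hy0]
      linear_combination T2 i j
    rw [e0]
    simp
  · intro i
    have f1 : ∀ l, tri D (X (δ l) - h l • y) y y + tri D (U l) (X δn - hn • y) y +
        tri D (U l) y (X δn - hn • y) = -(1 / 3) * (tri D y y y * h l) := by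
      intro l
      have e1 : tri D (X (δ l) - h l • y) y y = tri D y y (X (δ l) - h l • y) := by
        rw [hD.tri12, hD.tri23]
      rw [e1, hD.tri23 (U l) _ y]
      simp only [tri_sub_right, tri_smul_right]
      refine mul_left_cancel₀ h3 ?_
      linear_combination T3 l
    have f2 : tri D (X δn - hn • y) y y + tri D y (X δn - hn • y) y +
        tri D y y (X δn - hn • y) = -(tri D y y y * hn) := by
      have e1 : tri D (X δn - hn • y) y y = tri D y y (X δn - hn • y) := by
        rw [hD.tri12, hD.tri23]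
      rw [e1, hD.tri23 y _ y]
      simp only [tri_sub_right, tri_smul_right]
      linear_combination T4
    have f3 : (3 : DualNumber K) = inl 3 := (map_ofNat (inlHom K K) 3).symm
    have hCi := hC i
    rw [wf] at hCi
    rw [wf]
    simp only [p2_tri_du, f1, f2, f3]
    refine dual_ext ?_ ?_
    · simp only [fst_add, fst_sum, fst_mul, fst_inl, fst_inr, fst_du, add_zero, fst_zero]
      exact hCi
    · simp only [snd_add, snd_sum, snd_mul, fst_mul, fst_add, snd_inl, snd_inr, fst_inl, fst_inr,
        fst_du, snd_du, snd_zero, Option.elim_none, Option.elim_some, smul_eq_mul,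
        MulOpposite.smul_eq_mul_unop, MulOpposite.unop_op]
      have f4 : ∀ t : K, ∑ l, (C i (some l) * (3 * (0 + -(1 / 3) * (t * h l)) +
          0 * (tri D (U l) y y + 0)) + 0 * (3 * (tri D (U l) y y + 0))) =
          -(t * ∑ l, C i (some l) * h l) := by
        intro t
        rw [Finset.mul_sum, ← Finset.sum_neg_distrib]
        refine Finset.sum_congr rfl fun l _ => ?_
        field_simp
        ring
      rw [f4]
      ring
  · intro i l
    rw [vec]
    simp only [Pi.add_apply, Finset.sum_apply, Pi.smul_apply, snd_add, snd_sum, snd_mul,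
      smul_eq_mul, fst_du, snd_du, Option.elim_none, Option.elim_some,
      MulOpposite.smul_eq_mul_unop, MulOpposite.unop_op]
    have f5 := congrFun (p2_lin X (C i)) l
    have f6 : X (C i) = b i := by
      rw [hXx, hβC, hwv, hC, zero_smul, add_zero]
    rw [f6] at f5
    simp only [Pi.add_apply, Finset.sum_apply, Pi.smul_apply, smul_eq_mul] at f5
    rw [f5]
    have f7 : ∑ j, (C i (some j) * (X (δ j) - h j • y) l + 0 * U j l) =
        ∑ j, C i (some j) * X (δ j) l - (∑ j, C i (some j) * h j) * y l := by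
      rw [Finset.sum_mul, ← Finset.sum_sub_distrib]
      refine Finset.sum_congr rfl fun j _ => ?_
      rw [Pi.sub_apply, Pi.smul_apply, smul_eq_mul]
      ring
    rw [f7, Pi.sub_apply, Pi.smul_apply, smul_eq_mul]
    ring

end aux

variable {m : ℕ} {ω : Type*} [Fintype ω] {K : Type*} [Field K] [CharZero K]

/-- Proof. Let `y = yP D U π`, `w = wf D U y` (a linear form on `Option (Fin m) → K`),
`C i = cvec D U π i`, `U' i = stepF D U π i = vec U y (C i)`, `w (C i) = 0` (`wf_coord`).
Since `QM D U' g'` is invertible, the `U' i` are linearly independent (if `∑ c i • U' i = 0` then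
every quadratic form `D(u', u', g)` has `c` in its kernel, so the matrix `QM D U' g'`, whose
columns span all quadratic forms, would be singular unless `c = 0`), so the `C i` are linearly
independent, hence a basis of the kernel of `w` (`w ≠ 0` by `hw`, dimension `m`). Let
`e = (w (kP π))⁻¹ • kP π`, so `w e = 1`, and let `β` be the linear map on `Option (Fin m) → K`
with `β (C i) = b i`, `β e = 0`. Write `x1 = x - w x • e` and identify `x` with `vec U y x`.
For a vector `v` put `X x = β x + w x • v` and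
`R x x' = 3 D(x, x', v) + 3 (D(x1, e, β x') + D(x1', e, β x)) +
  (3/2) (w x D(e, e, β x') + w x' D(e, e, β x))`.
Because `b ∈ TS D U'` (so `D(β x, x1', x1'') + D(x1, β x', x1'') + D(x1, x1', β x'') = 0`),
`3 (D(X x, x', x'') + D(x, X x', x'') + D(x, x', X x'')) = w x R x' x'' + w x' R x x'' +
  w x'' R x x'` for all `x`, `x'`, `x''`.
As `QM D U (gP π)` is invertible, `v` can be chosen with `R (δ i) (δ j) = 0` for all `i j : Fin m`
(where `δ i` is the basis vector of `some i`). So `R x x' = z x * η' x' + z x' * η' x` with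
`z x = x none` and a linear form `η'` (with `η' (δ i) = R (δ i) δ_none`,
`η' δ_none = R δ_none δ_none / 2`).
Apply `complete` with `a i = X (δ i) - η' (δ i) • y`, `η = X δ_none - η' δ_none • y`,
`γ i = η' (C i) • δ_none`. With the notation `T x x' x''` for the sum
`D(X x, x', x'') + D(x, X x', x'') + D(x, x', X x'')` and `w i = 3 D(U i, y, y)`, `w n = D(y, y, y)`:
`a ∈ TS D U`: `D(a i, U j, U k) + .. = T i j k - (η' i D(y, U j, U k) + ..) = 0 - 0`;
`hη`: `D(a i, U j, y) + D(U i, a j, y) + D(U i, U j, η) =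
T i j n - η' i D(y, U j, y) - η' j D(U i, y, y) - 0 = 0` since `3 T i j n = w i η' j + w j η' i`;
`hγ`: `3 (D(a l, y, y) + 2 D(U l, y, η)) = 3 T l n n - 3 η' l w n - 2 η' n w l = - w n η' l`,
`3 D(y, y, η) = T n n n - 3 η' n w n = - w n η' n`, so the second part of the value of `wf` is
`- w n (∑ l, C l η' l + C n η' n) + η' (C) w n = 0`.
The second part of `vec (du U a) (du y η) (du (C i) (γ i))` is `X (C i) = β (C i) = b i`. -/
theorem step_surj (D : Ten (Ix m ω) K) (hD : IsSym D) (U : Fin m → Ix m ω → K)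
    (hU : VanOn D U) (π : Par m ω → K) (hdet : (QM D U (gP π)).det ≠ 0)
    (hw : wf D U (yP D U π) (kP π) ≠ 0) (g' : Pr m → Ix m ω → K)
    (hdet' : (QM D (stepF D U π) g').det ≠ 0) (b : Fin m → Ix m ω → K)
    (hb : b ∈ TS D (stepF D U π)) :
    ∃ a ∈ TS D U, ∃ v : Par m ω → K, dstep D U π a v = b := by
  have hst : stepF D U π = fun i => vec U (yP D U π) (cvec D U π i) :=
    funext fun i => stepF_eq D U π i
  have hC : ∀ i, wf D U (yP D U π) (cvec D U π i) = 0 := fun i => wf_coord D U _ _ _
  have hli : ∀ c : Fin m → K, ∑ i, c i • cvec D U π i = 0 → c = 0 := by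
    intro c hc
    refine p2_li hD _ g' hdet' c ?_
    have h1 := congrArg (p2_P U (yP D U π)) hc
    rw [map_sum, map_zero] at h1
    simp only [map_smul] at h1
    rw [hst]
    exact h1
  rw [hst] at hb
  obtain ⟨a, η, γ, ha, h1, h2, h3⟩ := p2_main hD U hU (yP D U π) (qf_stepY D U _ _) (gP π) hdet
    (cvec D U π) (kP π) hw hC hli b hb
  obtain ⟨v, hv⟩ := complete D U π hdet hw a η γ h1 h2
  refine ⟨a, ha, v, ?_⟩
  funext i l
  rw [dstep, hv i]
  exact h3 i l

end Pool.Agent.Helper76.UF
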