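import Pool.Agent.Helper76.UF.St.P1

/-!
# Linear spaces in cubic hypersurfaces: the step from a predecessor
-/

namespace Pool.Agent.Helper76.UF

variable {m : ℕ} {ω : Type*} [Fintype ω] {K : Type*} [Field K] [CharZero K]

omit [CharZero K] in
theorem p5_tri_du {ι : Type*} [Fintype ι] (D : Ten ι K) (x y z a b c : ι → K) :
    tri (dT D) (du x a) (du y b) (du z c) =
      TrivSqZeroExt.inl (tri D x y z) +
        TrivSqZeroExt.inr (tri D a y z + tri D x b z + tri D x y c) := by
  have h2 : ∀ x y z : ι → K, tri (dT D) (fun l => TrivSqZeroExt.inl (x l))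
      (fun l => TrivSqZeroExt.inl (y l))
      (fun l => TrivSqZeroExt.inl (z l)) = (TrivSqZeroExt.inl (tri D x y z) : DualNumber K) := by
    intro x y z
    have := tri_map D (TrivSqZeroExt.inlHom K K) x y z
    exact this.symm
  obtain ⟨E, hE1, hE2, hE3⟩ : ∃ E : DualNumber K,
      (∀ t : K, E * TrivSqZeroExt.inl t = TrivSqZeroExt.inr t) ∧
      (∀ t : K, E * TrivSqZeroExt.inr t = 0) ∧ E * E = 0 := by
    refine ⟨TrivSqZeroExt.inr 1, fun t => ?_, fun t => ?_, ?_⟩
    · rw [TrivSqZeroExt.inr_mul_inl]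
      simp
    · exact TrivSqZeroExt.inr_mul_inr _ _ _
    · exact TrivSqZeroExt.inr_mul_inr _ _ _
  have h3 : ∀ x a : ι → K, du x a =
      (fun l => (TrivSqZeroExt.inl (x l) : DualNumber K)) +
        E • fun l => TrivSqZeroExt.inl (a l) := by
    intro x a
    funext l
    rw [Pi.add_apply, Pi.smul_apply, smul_eq_mul, hE1]
    rfl
  rw [h3 x a, h3 y b, h3 z c]
  simp only [tri_add_left, tri_add_mid, tri_add_right, tri_smul_left, tri_smul_mid,
    tri_smul_right, h2, TrivSqZeroExt.inr_add]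
  linear_combination hE1 (tri D a y z) + hE1 (tri D x b z) + hE1 (tri D x y c) +
    ((TrivSqZeroExt.inl (tri D a b z) : DualNumber K) + TrivSqZeroExt.inl (tri D a y c) +
      TrivSqZeroExt.inl (tri D x b c) +
      E * TrivSqZeroExt.inl (tri D a b c)) * hE3

section vals

variable {D : Ten (Ix m ω) K} {p : Ix m ω → K} {l : Fin m → K} {s : K}

theorem p5_t1 (hF : Fan D p l s) (i j : Fin m) :
    tri D (std m ω K i) (std m ω K j) p = l i * l j / 3 := by
  rw [eq_div_iff (by norm_num), mul_comm]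
  exact hF.e1 i j

theorem p5_t1' (hD : IsSym D) (hF : Fan D p l s) (i j : Fin m) :
    tri D (std m ω K i) p (std m ω K j) = l i * l j / 3 := by
  rw [hD.tri23]
  exact p5_t1 hF i j

theorem p5_t1'' (hD : IsSym D) (hF : Fan D p l s) (i j : Fin m) :
    tri D p (std m ω K i) (std m ω K j) = l i * l j / 3 := by
  rw [hD.tri12]
  exact p5_t1' hD hF i j

theorem p5_t2 (hF : Fan D p l s) (i : Fin m) :
    tri D (std m ω K i) p p = 2 * s * l i / 3 := by
  rw [eq_div_iff (by norm_num), mul_comm]
  exact hF.e2 i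

theorem p5_t2' (hD : IsSym D) (hF : Fan D p l s) (i : Fin m) :
    tri D p (std m ω K i) p = 2 * s * l i / 3 := by
  rw [hD.tri12]
  exact p5_t2 hF i

theorem p5_t2'' (hD : IsSym D) (hF : Fan D p l s) (i : Fin m) :
    tri D p p (std m ω K i) = 2 * s * l i / 3 := by
  rw [hD.tri23]
  exact p5_t2' hD hF i

end vals

/-- Proof. `VanOn D (pre p l s)`: expand by trilinearity and use `e1`, `e2`, `e3`:
`3 D(pre i, pre j, pre k) = l i l j l k / s * (-3 + 6 - 3) = 0` (each mixed term is
symmetric, `IsSym`). -/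
theorem vanOn_pre {D : Ten (Ix m ω) K} (hD : IsSym D) (h0 : VanOn D (std m ω K))
    {p : Ix m ω → K} {l : Fin m → K} {s : K} (hF : Fan D p l s) : VanOn D (pre p l s) := by
  intro i j k
  have hs := hF.s0
  simp only [pre, tri_sub_left, tri_sub_mid, tri_sub_right, tri_smul_left, tri_smul_mid,
    tri_smul_right, h0 i j k, p5_t1 hF, p5_t1' hD hF, p5_t1'' hD hF, p5_t2 hF, p5_t2' hD hF,
    p5_t2'' hD hF, hF.e3]
  field_simp
  ring

theorem p5_qf {D : Ten (Ix m ω) K} (hD : IsSym D)
    {p : Ix m ω → K} {l : Fin m → K} {s : K} (hF : Fan D p l s) (i j : Fin m) :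
    tri D (pre p l s i) (pre p l s j) p = 0 := by
  have hs := hF.s0
  simp only [pre, tri_sub_left, tri_sub_mid, tri_smul_left, tri_smul_mid,
    p5_t1 hF, p5_t2 hF, p5_t2' hD hF, hF.e3]
  field_simp
  ring

/-- Proof. `3 D(pre i, pre j, p) = l i l j (1 - 2 - 2 + 3) = 0`. -/
theorem qf_pre {D : Ten (Ix m ω) K} (hD : IsSym D)
    {p : Ix m ω → K} {l : Fin m → K} {s : K} (hF : Fan D p l s) : qf D (pre p l s) p = 0 :=
  qf_eq_zero D _ (p5_qf hD hF)

theorem p5_pp {D : Ten (Ix m ω) K}
    {p : Ix m ω → K} {l : Fin m → K} {s : K} (hF : Fan D p l s) (i : Fin m) :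
    3 * tri D (pre p l s i) p p = -(s * l i) := by
  have hs := hF.s0
  simp only [pre, tri_sub_left, tri_smul_left, p5_t2 hF, hF.e3]
  field_simp
  ring

/-- The coordinates of the standard basis with respect to the basis of the predecessor and
`p`. -/
def p5_C (l : Fin m → K) (s : K) (i : Fin m) : Option (Fin m) → K
  | none => l i / s
  | some j => if j = i then 1 else 0

/-- The parameters of the step. -/
noncomputable def p5_par (d : K) (p : Ix m ω → K) (l : Fin m → K) (s : K)
    (g : Pr m → Ix m ω → K) : Par m ω → K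
  | .inl (c, k) => g c k
  | .inr (.inl k) => d * p k
  | .inr (.inr (.inl none)) => 1
  | .inr (.inr (.inl (some _))) => 0
  | .inr (.inr (.inr (i, x))) => (s ^ 2)⁻¹ * p5_C l s i x

omit [CharZero K] in
theorem p5_vec (p : Ix m ω → K) (l : Fin m → K) (s : K) (i : Fin m) :
    vec (pre p l s) p (p5_C l s i) = std m ω K i := by
  rw [vec]
  have h : ∀ j, p5_C l s i (some j) • pre p l s j = if j = i then pre p l s j else 0 := by
    intro j
    rw [p5_C]
    split_ifs <;> simp
  simp only [h, Finset.sum_ite_eq', Finset.mem_univ, if_true]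
  rw [p5_C, pre, sub_add_cancel]

theorem p5_wfC {D : Ten (Ix m ω) K}
    {p : Ix m ω → K} {l : Fin m → K} {s : K} (hF : Fan D p l s) (i : Fin m) :
    wf D (pre p l s) p (p5_C l s i) = 0 := by
  rw [wf]
  have h : ∀ j, p5_C l s i (some j) * (3 * tri D (pre p l s j) p p) =
      if j = i then -(s * l j) else 0 := by
    intro j
    rw [p5_C, p5_pp hF]
    split_ifs <;> simp
  simp only [h, Finset.sum_ite_eq', Finset.mem_univ, if_true]
  have hs := hF.s0
  rw [p5_C, hF.e3]
  field_simp
  ring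

/-- Proof. Take `g = gP π0`, `tP π0 = ((QM D (pre p l s) g).det)⁻¹ • p`, so that
`yP D (pre p l s) π0 = p` (`stepY_of_qf`, `qf_pre`). On the span of the `pre i` and `p`,
`wf D (pre p l s) p x = ∑ i, x (some i) * (- s * l i) + x none * s ^ 2`, because
`3 D(pre i, p, p) = 2 s l i - 3 (l i / s) s ^ 2 = - s l i`. Take `kP π0 = (0; 1)`, of value
`s ^ 2`, and `sP π0 i = (s ^ 2)⁻¹ • (δ i; l i / s)`, of value `0`. Then
`stepF D (pre p l s) π0 i = s ^ 2 • vec (sP π0 i) = pre i + (l i / s) • p = std i`.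
The vector `cvec D (pre p l s) π0 i` is `(δ i; l i / s)`.
For `v` with `qf D (pre p l s) v = 0` apply `complete` with `a = 0`, `η = v`,
`γ i = (0; - ρ i / s ^ 2)`, `ρ i = 6 D(std i, p, v) - 3 (l i / s) D(p, p, v)`:
`hη` has second part `D(pre i, pre j, v) = 0`; `hγ` has second part
`6 D(pre i, p, v) + (l i / s) * 3 D(p, p, v) + γ i none * s ^ 2 = ρ i - ρ i = 0`. The second part
of `vec (du pre 0) (du p v) (du (C i) (γ i))` is `(l i / s) • v + γ i none • p = BB D p l s v i`.
Conclude with `stepF_du`. -/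
theorem pred_step {D : Ten (Ix m ω) K} (hD : IsSym D) (h0 : VanOn D (std m ω K))
    {p : Ix m ω → K} {l : Fin m → K} {s : K} (hF : Fan D p l s) (g : Pr m → Ix m ω → K)
    (hdet : (QM D (pre p l s) g).det ≠ 0) :
    ∃ π0 : Par m ω → K, gP π0 = g ∧
      wf D (pre p l s) (yP D (pre p l s) π0) (kP π0) ≠ 0 ∧
      stepF D (pre p l s) π0 = std m ω K ∧
      ∀ v, qf D (pre p l s) v = 0 →
        ∃ v0, dstep D (pre p l s) π0 0 v0 = BB D p l s v := by
  have hs := hF.s0
  set π0 : Par m ω → K := p5_par ((QM D (pre p l s) g).det)⁻¹ p l s g with hπ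
  have hg : gP π0 = g := rfl
  have ht : tP π0 = ((QM D (pre p l s) g).det)⁻¹ • p := rfl
  have hk0 : kP π0 none = 1 := rfl
  have hk1 : ∀ j, kP π0 (some j) = 0 := fun _ => rfl
  have hsP : ∀ i, sP π0 i = (s ^ 2)⁻¹ • p5_C l s i := fun _ => rfl
  have hy : yP D (pre p l s) π0 = p := by
    rw [yP, hg, ht, stepY_smul, stepY_of_qf D _ _ _ (qf_pre hD hF), smul_smul,
      inv_mul_cancel₀ hdet, one_smul]
  have hwk : wf D (pre p l s) (yP D (pre p l s) π0) (kP π0) = s ^ 2 := by
    rw [hy, wf]
    simp only [hk0, hk1, zero_mul, Finset.sum_const_zero, zero_add, one_mul, hF.e3]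
  have hws : ∀ i, wf D (pre p l s) (yP D (pre p l s) π0) (sP π0 i) = 0 := by
    intro i
    rw [hy, hsP, wf_smul, p5_wfC hF, mul_zero]
  have hs2 : s ^ 2 ≠ 0 := pow_ne_zero _ hs
  have hC : ∀ i, cvec D (pre p l s) π0 i = p5_C l s i := by
    intro i
    rw [cvec, hwk, hws, hsP, zero_smul, sub_zero, smul_smul, mul_inv_cancel₀ hs2, one_smul]
  have hstep : stepF D (pre p l s) π0 = std m ω K := by
    funext i
    rw [stepF_eq]
    have h := hC i
    rw [cvec] at h
    rw [h, hy, p5_vec]
  refine ⟨π0, hg, ?_, hstep, ?_⟩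
  · rw [hwk]
    exact hs2
  intro v hv
  have hv' : ∀ i j, tri D (pre p l s i) (pre p l s j) v = 0 := hD.qf_zero _ hv
  obtain ⟨v0, hv0⟩ := complete D (pre p l s) π0 (by rw [hg]; exact hdet)
    (by rw [hwk]; exact hs2) 0 v
    (fun i x => Option.elim x (-((6 * tri D (std m ω K i) p v -
      3 * (l i / s) * tri D p p v) / s ^ 2)) (fun _ => 0))
    (by
      rw [hy]
      refine qf_eq_zero _ _ fun i j => ?_
      simp only [Pi.zero_apply]
      rw [p5_tri_du, p5_qf hD hF, hv']
      simp)
    (by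
      intro i
      rw [hy, hC]
      simp only [wf, Pi.zero_apply, p5_tri_du]
      have hsymm : tri D p v p = tri D p p v := hD.tri23 _ _ _
      have hsymm2 : tri D v p p = tri D p p v := by rw [hD.tri12, hD.tri23]
      have hsymm3 : ∀ j, tri D (pre p l s j) v p = tri D (pre p l s j) p v :=
        fun j => hD.tri23 _ _ _
      have h3 : (3 : DualNumber K) = TrivSqZeroExt.inl 3 := by
        have : (TrivSqZeroExt.inlHom K K) 3 = 3 := map_ofNat _ 3
        exact this.symm
      have hw0 := p5_wfC hF i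
      rw [wf] at hw0
      refine dual_ext ?_ ?_
      · simp only [h3, TrivSqZeroExt.fst_add, TrivSqZeroExt.fst_sum, TrivSqZeroExt.fst_mul,
          fst_du, TrivSqZeroExt.fst_inl, TrivSqZeroExt.fst_inr, add_zero,
          TrivSqZeroExt.fst_zero]
        exact hw0
      · have e : ∀ j, p5_C l s i (some j) * (6 * tri D (pre p l s j) p v) =
            if j = i then 6 * tri D (pre p l s j) p v else 0 := by
          intro j
          rw [p5_C]
          split_ifs <;> simp
        have e2 : ∀ j, p5_C l s i (some j) * (3 * (tri D (pre p l s j) p v +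
            tri D (pre p l s j) p v)) = if j = i then 6 * tri D (pre p l s j) p v else 0 := by
          intro j
          rw [← e]
          ring
        simp only [h3, TrivSqZeroExt.snd_add, TrivSqZeroExt.snd_sum, TrivSqZeroExt.snd_mul,
          TrivSqZeroExt.fst_add, TrivSqZeroExt.fst_mul,
          fst_du, snd_du, TrivSqZeroExt.fst_inl, TrivSqZeroExt.fst_inr,
          TrivSqZeroExt.snd_inl, TrivSqZeroExt.snd_inr, add_zero, zero_add, smul_eq_mul,
          TrivSqZeroExt.snd_zero, tri_zero_left, Option.elim_some, Option.elim_none,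
          MulOpposite.smul_eq_mul_unop, MulOpposite.unop_op, mul_zero, zero_mul, hsymm,
          hsymm2, hsymm3, e2, Finset.sum_ite_eq', Finset.mem_univ, if_true, hF.e3]
        rw [p5_C, pre, tri_sub_left, tri_smul_left]
        field_simp
        ring)
  refine ⟨v0, ?_⟩
  funext i k
  have h1 := hv0 i
  rw [stepF_du] at h1
  have h2 := congrFun h1 k
  have h4 := congrArg TrivSqZeroExt.snd h2
  rw [snd_du] at h4
  rw [h4, hy, hC]
  simp only [vec, Pi.add_apply, Finset.sum_apply, Pi.smul_apply, smul_eq_mul,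
    TrivSqZeroExt.snd_add, TrivSqZeroExt.snd_sum, TrivSqZeroExt.snd_mul, fst_du, snd_du,
    Pi.zero_apply, mul_zero, zero_mul, Option.elim_some, Option.elim_none, add_zero, zero_add,
    MulOpposite.smul_eq_mul_unop, MulOpposite.unop_op, Finset.sum_const_zero, BB,
    Pi.sub_apply]
  rw [p5_C]
  ring

end Pool.Agent.Helper76.UF
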