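import Pool.Agent.Helper76.UF.St.P4
import Pool.Agent.Helper76.UF.St.P5

/-!
# Linear spaces in cubic hypersurfaces: predecessors of nearby forms
-/

namespace Pool.Agent.Helper76.UF

open Topology

variable {m : ℕ} {ω : Type*} [Fintype ω]

section p7

theorem p7_tri_add {ι : Type*} [Fintype ι] (D E : Ten ι ℝ) (x y z : ι → ℝ) :
    tri (D + E) x y z = tri D x y z + tri E x y z := by
  simp only [tri, ← Finset.sum_add_distrib]
  refine Finset.sum_congr rfl fun i _ => Finset.sum_congr rfl fun j _ =>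
    Finset.sum_congr rfl fun k _ => ?_
  simp only [Pi.add_apply]
  ring

theorem p7_tri_smul {ι : Type*} [Fintype ι] (t : ℝ) (E : Ten ι ℝ) (x y z : ι → ℝ) :
    tri (t • E) x y z = t * tri E x y z := by
  simp only [tri, Finset.mul_sum]
  refine Finset.sum_congr rfl fun i _ => Finset.sum_congr rfl fun j _ =>
    Finset.sum_congr rfl fun k _ => ?_
  simp only [Pi.smul_apply, smul_eq_mul]
  ring

theorem p7_sym {ι : Type*} {D E : Ten ι ℝ} (hD : IsSym D) (hE : IsSym E) (t : ℝ) :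
    IsSym (D + t • E) := by
  constructor
  · intro i j k
    simp only [Pi.add_apply, Pi.smul_apply, smul_eq_mul]
    rw [hD.swap12 i j k, hE.swap12 i j k]
  · intro i j k
    simp only [Pi.add_apply, Pi.smul_apply, smul_eq_mul]
    rw [hD.swap23 i j k, hE.swap23 i j k]

omit [Fintype ω] in
theorem p7_xp_add (q q' : ω → ℝ) (τ : ℝ) :
    (xp (q + τ • q') : Ix m ω → ℝ) = xp q + τ • xp q' := by
  funext l
  rcases l with l | l <;> simp [xp]

/-- the source -/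
abbrev p7X (m : ℕ) (ω : Type*) := ℝ × (ω → ℝ) × (Fin m → ℝ) × ℝ

/-- the target -/
abbrev p7Y (m : ℕ) := ℝ × (Pr m → ℝ) × (Fin m → ℝ) × ℝ

/-- the equations of a predecessor -/
noncomputable def p7_f (D E : Ten (Ix m ω) ℝ) (x : p7X m ω) : p7Y m :=
  (x.1,
    fun e => 3 * tri (D + x.1 • E) (std m ω ℝ e.1.1) (std m ω ℝ e.1.2) (xp x.2.1) -
      x.2.2.1 e.1.1 * x.2.2.1 e.1.2,
    fun i => 3 * tri (D + x.1 • E) (std m ω ℝ i) (xp x.2.1) (xp x.2.1) -
      2 * x.2.2.2 * x.2.2.1 i,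
    tri (D + x.1 • E) (xp x.2.1) (xp x.2.1) (xp x.2.1) - x.2.2.2 ^ 2)

theorem p7_contDiff_tri (D E : Ten (Ix m ω) ℝ) (u v w : p7X m ω → Ix m ω → ℝ)
    (hu : ∀ i, ContDiff ℝ 1 fun x => u x i) (hv : ∀ i, ContDiff ℝ 1 fun x => v x i)
    (hw : ∀ i, ContDiff ℝ 1 fun x => w x i) :
    ContDiff ℝ 1 fun x : p7X m ω => tri (D + x.1 • E) (u x) (v x) (w x) := by
  simp only [tri]
  refine ContDiff.sum fun i _ => ContDiff.sum fun j _ => ContDiff.sum fun k _ => ?_
  have h1 : ContDiff ℝ 1 fun x : p7X m ω => (D + x.1 • E) i j k := by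
    have : (fun x : p7X m ω => (D + x.1 • E) i j k) = fun x => D i j k + x.1 * E i j k := by
      funext x
      simp
    rw [this]
    exact contDiff_const.add (contDiff_fst.mul contDiff_const)
  exact ((h1.mul (hu i)).mul (hv j)).mul (hw k)

theorem p7_contDiff_xp (i : Ix m ω) :
    ContDiff ℝ 1 fun x : p7X m ω => (xp x.2.1 : Ix m ω → ℝ) i := by
  rcases i with i | i
  · exact contDiff_const
  · have h1 : ContDiff ℝ 1 fun x : p7X m ω => x.2.1 := contDiff_fst.comp contDiff_snd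
    exact (contDiff_pi.1 h1) i

theorem p7_contDiff (D E : Ten (Ix m ω) ℝ) : ContDiff ℝ 1 (p7_f D E) := by
  have hl : ∀ i, ContDiff ℝ 1 fun x : p7X m ω => x.2.2.1 i := by
    intro i
    have h1 : ContDiff ℝ 1 fun x : p7X m ω => x.2.2.1 :=
      contDiff_fst.comp (contDiff_snd.comp contDiff_snd)
    exact (contDiff_pi.1 h1) i
  have hs : ContDiff ℝ 1 fun x : p7X m ω => x.2.2.2 :=
    contDiff_snd.comp (contDiff_snd.comp contDiff_snd)
  have hx : ∀ i : Ix m ω, ContDiff ℝ 1 fun x : p7X m ω => (xp x.2.1 : Ix m ω → ℝ) i :=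
    p7_contDiff_xp
  have g2 : ∀ e : Pr m, ContDiff ℝ 1 fun x : p7X m ω =>
      tri (D + x.1 • E) (std m ω ℝ e.1.1) (std m ω ℝ e.1.2) (xp x.2.1) := fun e =>
    p7_contDiff_tri D E (fun _ => std m ω ℝ e.1.1) (fun _ => std m ω ℝ e.1.2)
      (fun x => xp x.2.1) (fun _ => contDiff_const) (fun _ => contDiff_const) hx
  have g3 : ∀ i : Fin m, ContDiff ℝ 1 fun x : p7X m ω =>
      tri (D + x.1 • E) (std m ω ℝ i) (xp x.2.1) (xp x.2.1) := fun i =>
    p7_contDiff_tri D E (fun _ => std m ω ℝ i) (fun x => xp x.2.1)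
      (fun x => xp x.2.1) (fun _ => contDiff_const) hx hx
  have g4 : ContDiff ℝ 1 fun x : p7X m ω =>
      tri (D + x.1 • E) (xp x.2.1) (xp x.2.1) (xp x.2.1) :=
    p7_contDiff_tri D E (fun x => xp x.2.1) (fun x => xp x.2.1)
      (fun x => xp x.2.1) hx hx hx
  have k2 : ContDiff ℝ 1 fun (x : p7X m ω) (e : Pr m) =>
      3 * tri (D + x.1 • E) (std m ω ℝ e.1.1) (std m ω ℝ e.1.2) (xp x.2.1) -
        x.2.2.1 e.1.1 * x.2.2.1 e.1.2 :=
    contDiff_pi.2 fun e => (contDiff_const.mul (g2 e)).sub ((hl e.1.1).mul (hl e.1.2))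
  have k3 : ContDiff ℝ 1 fun (x : p7X m ω) (i : Fin m) =>
      3 * tri (D + x.1 • E) (std m ω ℝ i) (xp x.2.1) (xp x.2.1) -
        2 * x.2.2.2 * x.2.2.1 i :=
    contDiff_pi.2 fun i => (contDiff_const.mul (g3 i)).sub ((contDiff_const.mul hs).mul (hl i))
  have k4 : ContDiff ℝ 1 fun (x : p7X m ω) =>
      tri (D + x.1 • E) (xp x.2.1) (xp x.2.1) (xp x.2.1) - x.2.2.2 ^ 2 := g4.sub (hs.pow 2)
  have k1 : ContDiff ℝ 1 fun (x : p7X m ω) => x.1 := contDiff_fst
  exact k1.prodMk (k2.prodMk (k3.prodMk k4))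

theorem p7_deriv {V : Type*} [NormedAddCommGroup V] [NormedSpace ℝ V] (g : ℝ → V)
    (c0 c1 c2 c3 : V) (h : ∀ τ, g τ = c0 + τ • c1 + τ ^ 2 • c2 + τ ^ 3 • c3) :
    HasDerivAt g c1 0 := by
  have h1 : HasDerivAt (fun τ : ℝ => c0 + τ • c1 + τ ^ 2 • c2 + τ ^ 3 • c3)
      (0 + (1 : ℝ) • c1 + (((2 : ℕ) : ℝ) * (0 : ℝ) ^ (2 - 1)) • c2 +
        (((3 : ℕ) : ℝ) * (0 : ℝ) ^ (3 - 1)) • c3) 0 := by
    refine HasDerivAt.add (HasDerivAt.add (HasDerivAt.add (hasDerivAt_const _ _) ?_) ?_) ?_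
    · exact (hasDerivAt_id (0 : ℝ)).smul_const c1
    · exact (hasDerivAt_pow 2 (0 : ℝ)).smul_const c2
    · exact (hasDerivAt_pow 3 (0 : ℝ)).smul_const c3
  have h2 : g = fun τ : ℝ => c0 + τ • c1 + τ ^ 2 • c2 + τ ^ 3 • c3 := funext h
  rw [h2]
  convert h1 using 1
  simp

theorem p7_line (D E : Ten (Ix m ω) ℝ) (a v : p7X m ω) (c : p7Y m)
    (h : HasDerivAt (fun τ : ℝ => p7_f D E (a + τ • v)) c 0) :
    fderiv ℝ (p7_f D E) a v = c := by
  have h1 : HasFDerivAt (p7_f D E) (fderiv ℝ (p7_f D E) a) (a + (0 : ℝ) • v) := by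
    rw [zero_smul, add_zero]
    exact ((p7_contDiff D E).differentiable (by norm_num) a).hasFDerivAt
  have h2 : HasDerivAt (fun τ : ℝ => a + τ • v) v 0 := by
    have h3 := ((hasDerivAt_id (0 : ℝ)).smul_const v).const_add a
    simpa using h3
  have h4 := h1.comp_hasDerivAt (0 : ℝ) h2
  exact h4.unique h

/-- the derivative in the direction of `E` -/
theorem p7_dir_t (D E : Ten (Ix m ω) ℝ) (q : ω → ℝ) (l : Fin m → ℝ) (s : ℝ) :
    ∃ c : (Pr m → ℝ) × (Fin m → ℝ) × ℝ,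
      fderiv ℝ (p7_f D E) (0, q, l, s) (1, 0, 0, 0) = (1, c) := by
  refine ⟨(fun e => 3 * tri E (std m ω ℝ e.1.1) (std m ω ℝ e.1.2) (xp q),
    fun i => 3 * tri E (std m ω ℝ i) (xp q) (xp q), tri E (xp q) (xp q) (xp q)), ?_⟩
  apply p7_line
  apply p7_deriv _ (p7_f D E (0, q, l, s)) _ 0 0
  intro τ
  simp only [p7_f, p7_tri_add, p7_tri_smul, Prod.mk_add_mk, Prod.smul_mk, smul_zero, add_zero,
    zero_add, smul_eq_mul, mul_one, zero_mul, mul_zero]
  refine Prod.ext rfl (Prod.ext ?_ (Prod.ext ?_ ?_))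
  · funext e
    simp only [Prod.smul_mk, Prod.mk_add_mk, Pi.add_apply, Pi.smul_apply, smul_eq_mul]
    ring
  · funext i
    simp only [Prod.smul_mk, Prod.mk_add_mk, Pi.add_apply, Pi.smul_apply, smul_eq_mul]
    ring
  · simp only [Prod.smul_mk, Prod.mk_add_mk, smul_eq_mul]
    ring

theorem p7_dir (D E : Ten (Ix m ω) ℝ) (hD : IsSym D) (q : ω → ℝ) (l : Fin m → ℝ) (s : ℝ)
    (q' : ω → ℝ) (l' : Fin m → ℝ) (s' : ℝ) :
    fderiv ℝ (p7_f D E) (0, q, l, s) (0, q', l', s') =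
      (0, fun e => 3 * tri D (std m ω ℝ e.1.1) (std m ω ℝ e.1.2) (xp q') -
          l e.1.1 * l' e.1.2 - l e.1.2 * l' e.1.1,
        fun i => 6 * tri D (std m ω ℝ i) (xp q) (xp q') - 2 * s' * l i - 2 * s * l' i,
        3 * tri D (xp q) (xp q) (xp q') - 2 * s * s') := by
  apply p7_line
  apply p7_deriv _ (p7_f D E (0, q, l, s)) _
    (0, fun e => - (l' e.1.1 * l' e.1.2),
      fun i => 3 * tri D (std m ω ℝ i) (xp q') (xp q') - 2 * s' * l' i,
      3 * tri D (xp q) (xp q') (xp q') - s' ^ 2)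
    (0, 0, 0, tri D (xp q') (xp q') (xp q'))
  intro τ
  have e1 : ∀ i, tri D (std m ω ℝ i) (xp q') (xp q) = tri D (std m ω ℝ i) (xp q) (xp q') :=
    fun i => hD.tri23 _ _ _
  have e2 : tri D (xp q) (xp q') (xp q) = tri D (xp q) (xp q) (xp q') := hD.tri23 _ _ _
  have e3 : tri D (xp q') (xp q) (xp q) = tri D (xp q) (xp q) (xp q') := by
    rw [hD.tri12, e2]
  have e4 : tri D (xp q') (xp q) (xp q') = tri D (xp q) (xp q') (xp q') := hD.tri12 _ _ _
  have e5 : tri D (xp q') (xp q') (xp q) = tri D (xp q) (xp q') (xp q') := by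
    rw [hD.tri23, e4]
  simp only [p7_f, p7_tri_add, p7_tri_smul, Prod.mk_add_mk, Prod.smul_mk, smul_zero, add_zero,
    zero_add, smul_eq_mul, mul_one, zero_mul, mul_zero, p7_xp_add, tri_add_left, tri_add_mid,
    tri_add_right, tri_smul_left, tri_smul_mid, tri_smul_right, e1, e2, e3, e4, e5]
  refine Prod.ext (by simp) (Prod.ext ?_ (Prod.ext ?_ ?_))
  · funext e
    simp only [Prod.smul_mk, Prod.mk_add_mk, Pi.add_apply, Pi.smul_apply, smul_eq_mul,
      Pi.zero_apply]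
    ring
  · funext i
    simp only [Prod.smul_mk, Prod.mk_add_mk, Pi.add_apply, Pi.smul_apply, smul_eq_mul,
      Pi.zero_apply]
    ring
  · simp only [Prod.smul_mk, Prod.mk_add_mk, smul_eq_mul]
    ring

theorem p7_solve (D : Ten (Ix m ω) ℝ) (hD : IsSym D) (h0 : VanOn D (std m ω ℝ)) (q : ω → ℝ)
    (l : Fin m → ℝ) (s : ℝ) (hF : Fan D (xp q) l s) (g : Pr m → Ix m ω → ℝ)
    (hdet : (QM D (pre (xp q) l s) g).det ≠ 0) (Q2 : Pr m → ℝ) (Q1 : Fin m → ℝ) (Q0 : ℝ) :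
    ∃ (q' : ω → ℝ) (l' : Fin m → ℝ) (s' : ℝ),
      (∀ e : Pr m, 3 * tri D (std m ω ℝ e.1.1) (std m ω ℝ e.1.2) (xp q') -
          l e.1.1 * l' e.1.2 - l e.1.2 * l' e.1.1 = Q2 e) ∧
      (∀ i, 6 * tri D (std m ω ℝ i) (xp q) (xp q') - 2 * s' * l i - 2 * s * l' i = Q1 i) ∧
      3 * tri D (xp q) (xp q) (xp q') - 2 * s * s' = Q0 := by
  classical
  have hs := hF.s0
  -- the right hand side
  obtain ⟨R, hR⟩ : ∃ R : Pr m → ℝ, ∀ e : Pr m, R e = (Q2 e -
      (l e.1.1 * Q1 e.1.2 + l e.1.2 * Q1 e.1.1) / (2 * s) +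
      Q0 * l e.1.1 * l e.1.2 / s ^ 2) / 3 := ⟨_, fun _ => rfl⟩
  obtain ⟨c, hc⟩ : ∃ c : Pr m → ℝ, (QM D (pre (xp q) l s) g).mulVec c = R := by
    refine ⟨(QM D (pre (xp q) l s) g)⁻¹.mulVec R, ?_⟩
    rw [Matrix.mulVec_mulVec, Matrix.mul_nonsing_inv _ (isUnit_iff_ne_zero.2 hdet),
      Matrix.one_mulVec]
  obtain ⟨y0, hy0⟩ : ∃ y0 : Ix m ω → ℝ, y0 = ∑ e, c e • g e := ⟨_, rfl⟩
  have hq0 : qf D (pre (xp q) l s) y0 = R := by
    rw [hy0, qf_sum, ← hc]
    funext e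
    rw [Finset.sum_apply, Matrix.mulVec, dotProduct]
    refine Finset.sum_congr rfl fun d _ => ?_
    rw [qf_smul, Pi.smul_apply, smul_eq_mul, mul_comm]
    rfl
  -- replace the coordinates on the standard subspace by 0
  have hpk : ∀ i j k, tri D (pre (xp q) l s i) (pre (xp q) l s j) (std m ω ℝ k) = 0 := by
    intro i j k
    have a1 := hF.e1 i k
    have a2 := hF.e1 j k
    have a3 := hF.e2 k
    have b1 : tri D (xp q) (std m ω ℝ j) (std m ω ℝ k) =
        tri D (std m ω ℝ j) (std m ω ℝ k) (xp q) := by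
      rw [hD.tri12, hD.tri23]
    have b2 : tri D (std m ω ℝ i) (xp q) (std m ω ℝ k) =
        tri D (std m ω ℝ i) (std m ω ℝ k) (xp q) := hD.tri23 _ _ _
    have b3 : tri D (xp q) (xp q) (std m ω ℝ k) = tri D (std m ω ℝ k) (xp q) (xp q) := by
      rw [hD.tri23, hD.tri12]
    have b0 : tri D (std m ω ℝ i) (std m ω ℝ j) (std m ω ℝ k) = 0 := h0 i j k
    simp only [pre, tri_sub_left, tri_sub_mid, tri_smul_left, tri_smul_mid, b0, b1, b2, b3]
    have c1 : tri D (std m ω ℝ i) (std m ω ℝ k) (xp q) = l i * l k / 3 := by linarith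
    have c2 : tri D (std m ω ℝ j) (std m ω ℝ k) (xp q) = l j * l k / 3 := by linarith
    have c3 : tri D (std m ω ℝ k) (xp q) (xp q) = 2 * s * l k / 3 := by linarith
    rw [c1, c2, c3]
    field_simp
    ring
  obtain ⟨q', hq'⟩ : ∃ q' : ω → ℝ, q' = fun a => y0 (.inr a) := ⟨_, rfl⟩
  have hy1 : y0 = xp q' + ∑ k, y0 (.inl k) • std m ω ℝ k := by
    funext x
    rcases x with x | x
    · simp [xp, std, Finset.sum_apply]
    · simp [xp, std, hq', Finset.sum_apply]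
  have hq1 : qf D (pre (xp q) l s) (xp q') = R := by
    rw [← hq0]
    conv_rhs => rw [hy1]
    rw [qf_add, qf_sum]
    have : ∀ k, qf D (pre (xp q) l s) (y0 (.inl k) • std m ω ℝ k) = 0 := by
      intro k
      rw [qf_smul]
      have : qf D (pre (xp q) l s) (std m ω ℝ k) = 0 := qf_eq_zero D _ fun i j => hpk i j k
      rw [this, smul_zero]
    simp [this]
  obtain ⟨s', hs'⟩ : ∃ s' : ℝ, s' = (3 * tri D (xp q) (xp q) (xp q') - Q0) / (2 * s) := ⟨_, rfl⟩
  refine ⟨q', fun i => (6 * tri D (std m ω ℝ i) (xp q) (xp q') - 2 * s' * l i - Q1 i) / (2 * s),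
    s', ?_, ?_, ?_⟩
  · intro e
    have h1 := congrFun hq1 e
    rw [hR] at h1
    have b1 : tri D (xp q) (std m ω ℝ e.1.2) (xp q') = tri D (std m ω ℝ e.1.2) (xp q) (xp q') :=
      hD.tri12 _ _ _
    simp only [qf, pre, tri_sub_left, tri_sub_mid, tri_smul_left, tri_smul_mid, b1] at h1
    rw [hs']
    field_simp
    field_simp at h1
    linarith
  · intro i
    field_simp
    ring
  · rw [hs']
    field_simp
    ring

theorem p7_surj (D E : Ten (Ix m ω) ℝ) (hD : IsSym D) (h0 : VanOn D (std m ω ℝ)) (q : ω → ℝ)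
    (l : Fin m → ℝ) (s : ℝ) (hF : Fan D (xp q) l s) (g : Pr m → Ix m ω → ℝ)
    (hdet : (QM D (pre (xp q) l s) g).det ≠ 0) :
    (fderiv ℝ (p7_f D E) (0, q, l, s)).range = ⊤ := by
  rw [LinearMap.range_eq_top]
  intro y
  obtain ⟨y1, y2, y3, y4⟩ := y
  obtain ⟨⟨c2, c3, c4⟩, hc⟩ := p7_dir_t D E q l s
  obtain ⟨q', l', s', h1, h2, h3⟩ := p7_solve D hD h0 q l s hF g hdet (y2 - y1 • c2)
    (y3 - y1 • c3) (y4 - y1 * c4)
  refine ⟨y1 • (1, 0, 0, 0) + (0, q', l', s'), ?_⟩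
  have h4 : (fderiv ℝ (p7_f D E) (0, q, l, s)) (y1 • (1, 0, 0, 0) + (0, q', l', s')) =
      y1 • (1, c2, c3, c4) + (0, y2 - y1 • c2, y3 - y1 • c3, y4 - y1 * c4) := by
    rw [map_add, map_smul, hc, p7_dir D E hD]
    congr 1
    refine Prod.ext rfl (Prod.ext ?_ (Prod.ext ?_ ?_))
    · funext e
      exact h1 e
    · funext i
      exact h2 i
    · exact h3
  refine Eq.trans h4 ?_
  refine Prod.ext ?_ (Prod.ext ?_ (Prod.ext ?_ ?_))
  · simp
  · simp
  · simp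
  · simp

end p7

/-- Predecessors of the standard subspace can be continued to nearby forms.

Proof. Let `e = Fin m × Fin m` restricted to `i ≤ j` (`Pr m`). Consider the map
`f (t, q, l, s) = (t, (3 (D + tE)(std i, std j, xp q) - l i l j)_(i ≤ j),
(3 (D + tE)(std i, xp q, xp q) - 2 s l i)_i, (D + tE)(xp q, xp q, xp q) - s ^ 2)` from
`ℝ × (ω → ℝ) × (Fin m → ℝ) × ℝ` to `ℝ × (Pr m → ℝ) × (Fin m → ℝ) × ℝ`. It is polynomial, so
strictly differentiable, and it maps the given point `a` over `t = 0` to `0`. If its derivative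
at `a` is surjective, then `f` maps neighbourhoods of `a` to neighbourhoods of `0`
(`HasStrictFDerivAt.map_nhds_eq_of_surj`), which gives the claim (and `s ≠ 0` near `a`).
Surjectivity: it suffices to treat directions `(0, q', l', s')`, for which the derivative is
`(3 D(std i, std j, q') - l i l' j - l j l' i, 6 D(std i, p, q') - 2 s' l i - 2 s l' i,
3 D(p, p, q') - 2 s s')`. These are the coefficients of the quadratic form
`3 D(X, X, q') - 2 z z'` on the vectors `X = (x; ζ) ↔ ∑ x i std i + ζ p`, with `z = l x + s ζ` and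
`z' = l' x + s' ζ`. Given a target quadratic form `Q`, restrict it to `z = 0`, that is to the
subspace with basis `pre p l s`: since `QM D (pre p l s) g` is invertible, some combination `y`
of the `g c` satisfies `3 D(pre i, pre j, y) = Q(pre i, pre j)`; as `D(pre i, pre j, std k) = 0`
(by `e1`, `e2`: `3 D(pre i, pre j, std k) = l i l j l k / s * (- 1 - 1 + 2)`), the coordinates of
`y` on the standard subspace can be replaced by `0`, so `y = xp q'`. Then
`Q(X, X) - 3 D(X, X, q')` vanishes on `z = 0`, so it is `- 2 z z'` for some linear form `z'`. -/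
theorem fan_cont (D E : Ten (Ix m ω) ℝ) (hD : IsSym D) (hE : IsSym E)
    (h0 : VanOn D (std m ω ℝ)) (h1 : VanOn E (std m ω ℝ)) (q : ω → ℝ) (l : Fin m → ℝ) (s : ℝ)
    (hF : Fan D (xp q) l s) (g : Pr m → Ix m ω → ℝ) (hdet : (QM D (pre (xp q) l s) g).det ≠ 0)
    (N : Set ((ω → ℝ) × (Fin m → ℝ) × ℝ)) (hN : N ∈ 𝓝 (q, l, s)) :
    ∀ᶠ t in 𝓝 (0 : ℝ), ∃ x ∈ N, Fan (D + t • E) (xp x.1) x.2.1 x.2.2 := by
  have hst : HasStrictFDerivAt (p7_f D E) (fderiv ℝ (p7_f D E) (0, q, l, s)) (0, q, l, s) :=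
    (p7_contDiff D E).contDiffAt.hasStrictFDerivAt (by norm_num)
  have hmap := hst.map_nhds_eq_of_surj (p7_surj D E hD h0 q l s hF g hdet)
  have hfa : p7_f D E (0, q, l, s) = (0, 0, 0, 0) := by
    simp only [p7_f, zero_smul, add_zero]
    refine Prod.ext rfl (Prod.ext ?_ (Prod.ext ?_ ?_))
    · funext e
      simp only [hF.e1, sub_self, Pi.zero_apply]
    · funext i
      simp only [hF.e2, sub_self, Pi.zero_apply]
    · simp only [hF.e3, sub_self]
  rw [hfa] at hmap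
  have hM : {x : p7X m ω | x.2 ∈ N ∧ x.2.2.2 ≠ 0} ∈ 𝓝 ((0, q, l, s) : p7X m ω) := by
    have c1 : Filter.Tendsto (fun x : p7X m ω => x.2) (𝓝 (0, q, l, s)) (𝓝 (q, l, s)) :=
      (continuous_snd.tendsto ((0, q, l, s) : p7X m ω))
    have c2 : Filter.Tendsto (fun x : p7X m ω => x.2.2.2) (𝓝 (0, q, l, s)) (𝓝 s) :=
      ((continuous_snd.comp (continuous_snd.comp continuous_snd)).tendsto
        ((0, q, l, s) : p7X m ω))
    exact Filter.inter_mem (c1 hN) (c2 (isOpen_ne.mem_nhds hF.s0))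
  have himg : p7_f D E '' {x : p7X m ω | x.2 ∈ N ∧ x.2.2.2 ≠ 0} ∈ 𝓝 ((0, 0, 0, 0) : p7Y m) := by
    rw [← hmap]
    exact Filter.image_mem_map hM
  have hcont : Filter.Tendsto (fun t : ℝ => ((t, 0, 0, 0) : p7Y m)) (𝓝 0)
      (𝓝 ((0, 0, 0, 0) : p7Y m)) := by
    have : Continuous fun t : ℝ => ((t, 0, 0, 0) : p7Y m) := by fun_prop
    exact this.tendsto 0
  filter_upwards [hcont himg] with t ht
  obtain ⟨⟨t', x⟩, ⟨hx, hx0⟩, hfx⟩ := ht
  have ht' : t' = t := congrArg Prod.fst hfx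
  subst ht'
  have f2 := congrArg (fun y : p7Y m => y.2.1) hfx
  have f3 := congrArg (fun y : p7Y m => y.2.2.1) hfx
  have f4 := congrArg (fun y : p7Y m => y.2.2.2) hfx
  refine ⟨x, hx, ?_, ?_, ?_, hx0⟩
  · have key : ∀ e : Pr m, 3 * tri (D + t' • E) (std m ω ℝ e.1.1) (std m ω ℝ e.1.2) (xp x.1) =
        x.2.1 e.1.1 * x.2.1 e.1.2 := by
      intro e
      have := congrFun f2 e
      simp only [p7_f, Pi.zero_apply] at this
      linarith
    intro i j
    rcases le_total i j with h | h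
    · exact key ⟨(i, j), h⟩
    · rw [(p7_sym hD hE t').tri12, mul_comm (x.2.1 i)]
      exact key ⟨(j, i), h⟩
  · intro i
    have := congrFun f3 i
    simp only [p7_f, Pi.zero_apply] at this
    linarith
  · simp only [p7_f] at f4
    linarith

end Pool.Agent.Helper76.UF
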