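import Pool.Agent.Helper76.UF.Defs2

/-!
# Linear spaces in cubic hypersurfaces: the explicit form
-/

namespace Pool.Agent.Helper76.UF

variable (m : ℕ) {κ : Type*} [Fintype κ] [DecidableEq κ] (z1 z2 : κ)

section

variable {ι : Type*} [Fintype ι]

theorem p9a_tri_add (D D' : Ten ι ℝ) (x y z : ι → ℝ) :
    tri (D + D') x y z = tri D x y z + tri D' x y z := by
  simp only [tri, ← Finset.sum_add_distrib]
  refine Finset.sum_congr rfl fun i _ => Finset.sum_congr rfl fun j _ =>
    Finset.sum_congr rfl fun k _ => ?_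
  simp only [Pi.add_apply]
  ring

theorem p9a_tri_smul (c : ℝ) (D : Ten ι ℝ) (x y z : ι → ℝ) :
    tri (c • D) x y z = c * tri D x y z := by
  simp only [tri, Finset.mul_sum]
  refine Finset.sum_congr rfl fun i _ => Finset.sum_congr rfl fun j _ =>
    Finset.sum_congr rfl fun k _ => ?_
  simp only [Pi.smul_apply, smul_eq_mul]
  ring

theorem p9a_tri_sum {σ : Type*} (s : Finset σ) (D : σ → Ten ι ℝ) (x y z : ι → ℝ) :
    tri (∑ e ∈ s, D e) x y z = ∑ e ∈ s, tri (D e) x y z := by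
  classical
  induction s using Finset.induction_on with
  | empty => simp [tri]
  | insert a s ha ih => rw [Finset.sum_insert ha, Finset.sum_insert ha, p9a_tri_add, ih]

theorem p9a_sum3 (a b c : ι → ℝ) :
    ∑ i, ∑ j, ∑ k, a i * b j * c k = (∑ i, a i) * (∑ j, b j) * ∑ k, c k := by
  rw [Finset.sum_mul_sum, Finset.sum_mul]
  refine Finset.sum_congr rfl fun i _ => ?_
  rw [Finset.sum_mul]
  refine Finset.sum_congr rfl fun j _ => ?_
  rw [Finset.mul_sum]

theorem p9a_tri_sy (a b c x y z : ι → ℝ) :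
    tri (sy a b c) x y z =
      ((∑ i, a i * x i) * (∑ i, b i * y i) * (∑ i, c i * z i) +
      (∑ i, a i * x i) * (∑ i, c i * y i) * (∑ i, b i * z i) +
      (∑ i, b i * x i) * (∑ i, a i * y i) * (∑ i, c i * z i) +
      (∑ i, c i * x i) * (∑ i, a i * y i) * (∑ i, b i * z i) +
      (∑ i, b i * x i) * (∑ i, c i * y i) * (∑ i, a i * z i) +
      (∑ i, c i * x i) * (∑ i, b i * y i) * (∑ i, a i * z i)) / 6 := by
  simp only [← p9a_sum3, ← Finset.sum_add_distrib, Finset.sum_div, tri]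
  refine Finset.sum_congr rfl fun i _ => Finset.sum_congr rfl fun j _ =>
    Finset.sum_congr rfl fun k _ => ?_
  unfold sy
  ring

theorem p9a_cf [DecidableEq ι] (p : ι) (x : ι → ℝ) : ∑ i, cf p i * x i = x p := by
  unfold cf
  rw [Finset.sum_eq_single p]
  · rw [Pi.single_eq_same, one_mul]
  · intro b _ hb
    rw [Pi.single_eq_of_ne hb, zero_mul]
  · intro h
    exact absurd (Finset.mem_univ _) h

/-- the value of the form of three coordinates -/
noncomputable def p9a_t (x y z : ι → ℝ) (p q r : ι) : ℝ :=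
  (x p * y q * z r + x p * y r * z q + x q * y p * z r + x r * y p * z q + x q * y r * z p +
    x r * y q * z p) / 6

theorem p9a_tri_cf [DecidableEq ι] (p q r : ι) (x y z : ι → ℝ) :
    tri (sy (cf p) (cf q) (cf r)) x y z = p9a_t x y z p q r := by
  rw [p9a_tri_sy]
  simp only [p9a_cf]
  rfl

omit [Fintype ι] in
theorem p9a_sym_sy (a b c : ι → ℝ) : IsSym (sy a b c) :=
  ⟨fun i j k => by unfold sy; ring, fun i j k => by unfold sy; ring⟩

omit [Fintype ι] in
theorem p9a_sym_add {D D' : Ten ι ℝ} (h : IsSym D) (h' : IsSym D') : IsSym (D + D') :=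
  ⟨fun i j k => by simp only [Pi.add_apply]; rw [h.swap12, h'.swap12],
    fun i j k => by simp only [Pi.add_apply]; rw [h.swap23, h'.swap23]⟩

omit [Fintype ι] in
theorem p9a_sym_smul {D : Ten ι ℝ} (c : ℝ) (h : IsSym D) : IsSym (c • D) :=
  ⟨fun i j k => by simp only [Pi.smul_apply]; rw [h.swap12],
    fun i j k => by simp only [Pi.smul_apply]; rw [h.swap23]⟩

omit [Fintype ι] in
theorem p9a_sym_sum {σ : Type*} (s : Finset σ) (D : σ → Ten ι ℝ) (h : ∀ e ∈ s, IsSym (D e)) :
    IsSym (∑ e ∈ s, D e) := by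
  classical
  induction s using Finset.induction_on with
  | empty => exact ⟨fun _ _ _ => rfl, fun _ _ _ => rfl⟩
  | insert a s ha ih =>
    rw [Finset.sum_insert ha]
    exact p9a_sym_add (h a (Finset.mem_insert_self a s))
      (ih fun e he => h e (Finset.mem_insert_of_mem he))

end

theorem p9a_tri_D0 (x y z : Ix m (Pr m ⊕ κ) → ℝ) :
    tri (D0 m z1 z2) x y z =
      (∑ e : Pr m, (if e.1.1 = e.1.2 then (1 : ℝ) else 2) *
        p9a_t x y z (.inr (.inl e)) (.inl e.1.1) (.inl e.1.2)) +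
      (∑ i : Fin m, (p9a_t x y z (.inl i) (.inr (.inl ⟨(i, i), le_rfl⟩))
          (.inr (.inl ⟨(i, i), le_rfl⟩)) +
        p9a_t x y z (.inl i) (.inr (.inl ⟨(i, i), le_rfl⟩)) (.inr (.inr z1)))) +
      p9a_t x y z (.inr (.inr z2)) (.inr (.inr z1)) (.inr (.inr z1)) := by
  unfold D0
  simp only [p9a_tri_add, p9a_tri_sum, p9a_tri_smul, p9a_tri_cf]

/-- Proof. `sy a b c` is symmetric (`ring`), and sums and multiples of symmetric forms are. -/
theorem isSym_D0 : IsSym (D0 m z1 z2) := by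
  unfold D0
  refine p9a_sym_add (p9a_sym_add ?_ ?_) (p9a_sym_sy _ _ _)
  · exact p9a_sym_sum _ _ fun e _ => p9a_sym_smul _ (p9a_sym_sy _ _ _)
  · exact p9a_sym_sum _ _ fun e _ => p9a_sym_add (p9a_sym_sy _ _ _) (p9a_sym_sy _ _ _)

theorem p9a_std_inl (i j : Fin m) :
    std m (Pr m ⊕ κ) ℝ i (.inl j) = if j = i then 1 else 0 := rfl

theorem p9a_std_inr (i : Fin m) (w : Pr m ⊕ κ) : std m (Pr m ⊕ κ) ℝ i (.inr w) = 0 := rfl

/-- Proof. `tri (sy a b c) x y z = (a(x) b(y) c(z) + ..) / 6` with `a(x) = ∑ i, a i * x i`, and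
`∑ i, cf i0 i * x i = x i0`. In `D0` every monomial other than those of the first sum has at most one
factor that is a coordinate on the standard subspace. The term of `e` in the first sum gives, at
`(std i, std j, v)`, `(if e.1.1 = e.1.2 then 1 else 2) / 6 * 2 v_e ([i = e.1.1][j = e.1.2] / .. )`;
in all only `e = ⟨(i, j), h⟩` contributes, and the value is `v_e / 3`. -/
theorem D0_std_std (i j : Fin m) (h : i ≤ j) (v : Ix m (Pr m ⊕ κ) → ℝ) :
    3 * tri (D0 m z1 z2) (std m _ ℝ i) (std m _ ℝ j) v = v (.inr (.inl ⟨(i, j), h⟩)) := by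
  rw [p9a_tri_D0]
  simp only [p9a_t, p9a_std_inl, p9a_std_inr, zero_mul, mul_zero, add_zero, zero_add, zero_div,
    Finset.sum_const_zero]
  rw [Finset.sum_eq_single ⟨(i, j), h⟩]
  · by_cases hij : i = j
    · subst hij
      simp
      ring
    · have hji : ¬ j = i := fun h => hij h.symm
      simp only [if_neg hij, if_neg hji, if_true]
      ring
  · rintro ⟨⟨a, b⟩, hab⟩ _ hne
    have h1 : ¬ (a = i ∧ b = j) := by
      rintro ⟨rfl, rfl⟩
      exact hne rfl
    have h2 : ¬ (b = i ∧ a = j) := by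
      rintro ⟨rfl, rfl⟩
      have h3 : a = b := le_antisymm hab h
      subst h3
      exact hne rfl
    have h3 : (if a = i then (1 : ℝ) else 0) * (if b = j then 1 else 0) = 0 := by
      by_cases ha : a = i
      · rw [if_neg (fun hb => h1 ⟨ha, hb⟩), mul_zero]
      · rw [if_neg ha, zero_mul]
    have h4 : (if b = i then (1 : ℝ) else 0) * (if a = j then 1 else 0) = 0 := by
      by_cases hb : b = i
      · rw [if_neg (fun ha => h2 ⟨hb, ha⟩), mul_zero]
      · rw [if_neg hb, zero_mul]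
    simp only [h3, h4, zero_mul, add_zero, zero_div, mul_zero]
  · intro h'
    exact absurd (Finset.mem_univ _) h'

/-- Proof. Only the second sum, at `i`, contributes. -/
theorem D0_std (i : Fin m) (p v : Ix m (Pr m ⊕ κ) → ℝ) (hp : ∀ j, p (.inl j) = 0)
    (hv : ∀ j, v (.inl j) = 0) :
    3 * tri (D0 m z1 z2) (std m _ ℝ i) p v =
      p (.inr (.inl ⟨(i, i), le_rfl⟩)) * v (.inr (.inl ⟨(i, i), le_rfl⟩)) +
      (p (.inr (.inl ⟨(i, i), le_rfl⟩)) * v (.inr (.inr z1)) +
        p (.inr (.inr z1)) * v (.inr (.inl ⟨(i, i), le_rfl⟩))) / 2 := by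
  rw [p9a_tri_D0]
  simp only [p9a_t, p9a_std_inl, p9a_std_inr, hp, hv, zero_mul, mul_zero, add_zero, zero_add,
    zero_div, Finset.sum_const_zero]
  rw [Finset.sum_eq_single i]
  · simp only [if_true]
    ring
  · intro b _ hb
    simp only [if_neg hb, zero_mul, add_zero, zero_div]
  · intro h'
    exact absurd (Finset.mem_univ _) h'

/-- Proof. Only the last term contributes. -/
theorem D0_ppp (p q v : Ix m (Pr m ⊕ κ) → ℝ) (hp : ∀ j, p (.inl j) = 0)
    (hq : ∀ j, q (.inl j) = 0) (hv : ∀ j, v (.inl j) = 0) :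
    3 * tri (D0 m z1 z2) p q v =
      p (.inr (.inr z2)) * q (.inr (.inr z1)) * v (.inr (.inr z1)) +
      p (.inr (.inr z1)) * q (.inr (.inr z2)) * v (.inr (.inr z1)) +
      p (.inr (.inr z1)) * q (.inr (.inr z1)) * v (.inr (.inr z2)) := by
  rw [p9a_tri_D0]
  simp only [p9a_t, hp, hq, hv, zero_mul, mul_zero, add_zero, zero_add, zero_div,
    Finset.sum_const_zero]
  ring

theorem vanOn_D0 : VanOn (D0 m z1 z2) (std m _ ℝ) := by
  intro i j k
  rw [p9a_tri_D0]
  simp only [p9a_t, p9a_std_inr, zero_mul, mul_zero, add_zero, zero_div, Finset.sum_const_zero]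

/-- Proof. For `g e` the basis vector of the coordinate `p_e` the matrix is `(1/3) • 1`. -/
theorem det_D0 : ∃ g : Pr m → Ix m (Pr m ⊕ κ) → ℝ, (QM (D0 m z1 z2) (std m _ ℝ) g).det ≠ 0 := by
  refine ⟨fun e => Pi.single (.inr (.inl e)) 1, ?_⟩
  have h : QM (D0 m z1 z2) (std m _ ℝ) (fun e => Pi.single (.inr (.inl e)) 1) =
      (1 / 3 : ℝ) • (1 : Matrix (Pr m) (Pr m) ℝ) := by
    ext e c
    have h1 := D0_std_std m z1 z2 e.1.1 e.1.2 e.2 (Pi.single (.inr (.inl c)) 1)
    have h2 : QM (D0 m z1 z2) (std m _ ℝ) (fun e => Pi.single (.inr (.inl e)) 1) e c =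
        tri (D0 m z1 z2) (std m _ ℝ e.1.1) (std m _ ℝ e.1.2) (Pi.single (.inr (.inl c)) 1) := rfl
    rw [h2, Matrix.smul_apply, Matrix.one_apply, smul_eq_mul]
    by_cases hec : e = c
    · subst hec
      rw [if_pos rfl]
      have h3 : (Pi.single (.inr (.inl e)) 1 : Ix m (Pr m ⊕ κ) → ℝ)
          (.inr (.inl ⟨(e.1.1, e.1.2), e.2⟩)) = 1 := Pi.single_eq_same _ _
      rw [h3] at h1
      linarith
    · rw [if_neg hec]
      have h3 : (Pi.single (.inr (.inl c)) 1 : Ix m (Pr m ⊕ κ) → ℝ)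
          (.inr (.inl ⟨(e.1.1, e.1.2), e.2⟩)) = 0 := by
        refine Pi.single_eq_of_ne ?_ _
        intro h4
        apply hec
        exact Sum.inl_injective (Sum.inr_injective h4)
      rw [h3] at h1
      linarith
  rw [h, Matrix.det_smul, Matrix.det_one, mul_one]
  positivity

end Pool.Agent.Helper76.UF
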