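import Pool.Agent.Helper76.UF.St.P9a

/-!
# Linear spaces in cubic hypersurfaces: predecessors for the explicit form
-/

namespace Pool.Agent.Helper76.UF

variable {m : ℕ} {κ : Type*} [Fintype κ] [DecidableEq κ] {z1 z2 : κ}

/-- Proof. `pv l l ζ` has coordinates `p_ij = l i l j`, so `e1` is `D0_std_std` (and symmetry for
`j < i`), `e2` is `D0_std` with `FP.h1`, and `e3` is `D0_ppp` with `FP.h2`. -/
theorem fan_D0 {l : Fin m → ℝ} {s : ℝ} {ζ : κ → ℝ} (h : FP z1 z2 l s ζ) :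
    Fan (D0 m z1 z2) (pv l l ζ) l s := by
  have hp : ∀ j, (pv l l ζ : Ix m (Pr m ⊕ κ) → ℝ) (.inl j) = 0 := fun _ => rfl
  have h0 : ∀ i j, i ≤ j → 3 * tri (D0 m z1 z2) (std m _ ℝ i) (std m _ ℝ j) (pv l l ζ) =
      l i * l j := by
    intro i j hij
    rw [D0_std_std m z1 z2 i j hij]
    change (l i * l j + l j * l i) / 2 = l i * l j
    ring
  refine ⟨?_, ?_, ?_, h.s0⟩
  · intro i j
    rcases le_total i j with hij | hij
    · exact h0 i j hij
    · rw [(isSym_D0 m z1 z2).tri12, h0 j i hij, mul_comm]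
  · intro i
    rw [D0_std m z1 z2 i _ _ hp hp]
    have h1 := h.h1 i
    change (l i * l i + l i * l i) / 2 * ((l i * l i + l i * l i) / 2) +
      ((l i * l i + l i * l i) / 2 * ζ z1 + ζ z1 * ((l i * l i + l i * l i) / 2)) / 2 =
      2 * s * l i
    linear_combination h1
  · have h2 := D0_ppp m z1 z2 (pv l l ζ) (pv l l ζ) (pv l l ζ) hp hp hp
    have h3 : 3 * tri (D0 m z1 z2) (pv l l ζ) (pv l l ζ) (pv l l ζ) =
        ζ z2 * ζ z1 * ζ z1 + ζ z1 * ζ z2 * ζ z1 + ζ z1 * ζ z1 * ζ z2 := h2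
    have h4 := h.h2
    linear_combination h3 / 3 + h4

/-- The quadratic forms for a vector that is zero on the standard subspace, with `p_ij = S_ij`.

Proof. Expand `pre i = std i - (l i / s) p`. -/
theorem qf_D0 {l : Fin m → ℝ} {s : ℝ} {ζ : κ → ℝ} (h : FP z1 z2 l s ζ)
    (v : Ix m (Pr m ⊕ κ) → ℝ) (hv : ∀ j, v (.inl j) = 0) (e : Pr m) :
    3 * qf (D0 m z1 z2) (pre (pv l l ζ) l s) v e =
      v (.inr (.inl e)) - (l e.1.2 *
        ((2 * l e.1.1 ^ 2 + ζ z1) * v (.inr (.inl ⟨(e.1.1, e.1.1), le_rfl⟩)) +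
          l e.1.1 ^ 2 * v (.inr (.inr z1))) +
        l e.1.1 *
        ((2 * l e.1.2 ^ 2 + ζ z1) * v (.inr (.inl ⟨(e.1.2, e.1.2), le_rfl⟩)) +
          l e.1.2 ^ 2 * v (.inr (.inr z1)))) / (2 * s) +
      l e.1.1 * l e.1.2 * (ζ z1 ^ 2 * v (.inr (.inr z2)) +
        2 * ζ z1 * ζ z2 * v (.inr (.inr z1))) / s ^ 2 := by
  obtain ⟨⟨a, b⟩, hab⟩ := e
  have hp : ∀ j, (pv l l ζ : Ix m (Pr m ⊕ κ) → ℝ) (.inl j) = 0 := fun _ => rfl
  have h1 := D0_std_std m z1 z2 a b hab v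
  have h2 : ∀ i, 3 * tri (D0 m z1 z2) (std m _ ℝ i) (pv l l ζ) v =
      ((2 * l i ^ 2 + ζ z1) * v (.inr (.inl ⟨(i, i), le_rfl⟩)) +
        l i ^ 2 * v (.inr (.inr z1))) / 2 := by
    intro i
    rw [D0_std m z1 z2 i _ _ hp hv]
    change (l i * l i + l i * l i) / 2 * v (.inr (.inl ⟨(i, i), le_rfl⟩)) +
      ((l i * l i + l i * l i) / 2 * v (.inr (.inr z1)) +
        ζ z1 * v (.inr (.inl ⟨(i, i), le_rfl⟩))) / 2 = _
    ring
  have h3 : 3 * tri (D0 m z1 z2) (pv l l ζ) (pv l l ζ) v =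
      ζ z1 ^ 2 * v (.inr (.inr z2)) + 2 * ζ z1 * ζ z2 * v (.inr (.inr z1)) := by
    rw [D0_ppp m z1 z2 _ _ _ hp hp hv]
    change ζ z2 * ζ z1 * v (.inr (.inr z1)) + ζ z1 * ζ z2 * v (.inr (.inr z1)) +
      ζ z1 * ζ z1 * v (.inr (.inr z2)) = _
    ring
  have h4 : tri (D0 m z1 z2) (pv l l ζ) (std m _ ℝ b) v =
      tri (D0 m z1 z2) (std m _ ℝ b) (pv l l ζ) v := (isSym_D0 m z1 z2).tri12 _ _ _
  have h5 : 3 * qf (D0 m z1 z2) (pre (pv l l ζ) l s) v ⟨(a, b), hab⟩ =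
      3 * tri (D0 m z1 z2) (std m _ ℝ a) (std m _ ℝ b) v -
      (l b / s) * (3 * tri (D0 m z1 z2) (std m _ ℝ a) (pv l l ζ) v) -
      (l a / s) * (3 * tri (D0 m z1 z2) (std m _ ℝ b) (pv l l ζ) v) +
      (l a / s) * (l b / s) * (3 * tri (D0 m z1 z2) (pv l l ζ) (pv l l ζ) v) := by
    change 3 * tri (D0 m z1 z2) (std m _ ℝ a - (l a / s) • pv l l ζ)
      (std m _ ℝ b - (l b / s) • pv l l ζ) v = _
    rw [tri_sub_left, tri_sub_mid, tri_sub_mid, tri_smul_left, tri_smul_left, tri_smul_mid,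
      tri_smul_mid, h4]
    ring
  rw [h5, h1, h2, h2, h3]
  have hs := h.s0
  field_simp
  ring

/-- Proof. It suffices to find, for every `T : Pr m → ℝ`, a `v` with `qf .. v = T` (apply it to the
unit vectors `T`, then the matrix is the identity). Put `t i = T (i, i)`,
`b i = (2 l i ^ 2 + ζ z1) t i / (1 - l i (2 l i ^ 2 + ζ z1) / s)`; the denominators are nonzero: if
`l i = 0` it is `1`, otherwise `FP.h1` gives `l i ζ z1 = 2 s - l i ^ 3` and it is
`- (s + l i ^ 3) / s`, nonzero by `FP.h3`. Take `v` with the coordinates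
`S_e = 3 (T e + (l e.1.1 b e.1.2 + l e.1.2 b e.1.1) / (2 s))` and all the others zero, and use
`qf_D0`: `(2 l i ^ 2 + ζ z1) S_ii = 3 b i`. -/
theorem det_pre_D0 {l : Fin m → ℝ} {s : ℝ} {ζ : κ → ℝ} (h : FP z1 z2 l s ζ) :
    ∃ g : Pr m → Ix m (Pr m ⊕ κ) → ℝ,
      (QM (D0 m z1 z2) (pre (pv l l ζ) l s) g).det ≠ 0 := by
  have hs := h.s0
  have hden : ∀ i, 1 - l i * (2 * l i ^ 2 + ζ z1) / s ≠ 0 := by
    intro i
    by_cases hl : l i = 0
    · rw [hl]; simp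
    · have h1 := h.h1 i
      have h2 : l i * ζ z1 = 2 * s - l i ^ 3 := by
        have h3 : l i * (l i * (l i ^ 2 + ζ z1)) = l i * (2 * s) := by linear_combination h1
        have h4 := mul_left_cancel₀ hl h3
        linear_combination h4
      have h5 : 1 - l i * (2 * l i ^ 2 + ζ z1) / s = -(s + l i ^ 3) / s := by
        field_simp
        linear_combination -h2
      rw [h5]
      exact div_ne_zero (neg_ne_zero.2 (h.h3 i)) hs
  have hT : ∀ T : Pr m → ℝ, ∃ v : Ix m (Pr m ⊕ κ) → ℝ,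
      qf (D0 m z1 z2) (pre (pv l l ζ) l s) v = T := by
    intro T
    let b : Fin m → ℝ := fun i => (2 * l i ^ 2 + ζ z1) * T ⟨(i, i), le_rfl⟩ /
      (1 - l i * (2 * l i ^ 2 + ζ z1) / s)
    have hb : ∀ i, b i = (2 * l i ^ 2 + ζ z1) * (T ⟨(i, i), le_rfl⟩ + l i * b i / s) := by
      intro i
      have h1 : b i * (1 - l i * (2 * l i ^ 2 + ζ z1) / s) =
          (2 * l i ^ 2 + ζ z1) * T ⟨(i, i), le_rfl⟩ := div_mul_cancel₀ _ (hden i)
      linear_combination h1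
    let v : Ix m (Pr m ⊕ κ) → ℝ := fun x => match x with
      | .inl _ => 0
      | .inr (.inl e) => 3 * (T e + (l e.1.1 * b e.1.2 + l e.1.2 * b e.1.1) / (2 * s))
      | .inr (.inr _) => 0
    refine ⟨v, ?_⟩
    funext e
    have h1 := qf_D0 h v (fun _ => rfl) e
    have hv : ∀ i, v (.inr (.inl ⟨(i, i), le_rfl⟩)) =
        3 * (T ⟨(i, i), le_rfl⟩ + l i * b i / s) := by
      intro i
      change 3 * (T ⟨(i, i), le_rfl⟩ + (l i * b i + l i * b i) / (2 * s)) = _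
      congr 2
      field_simp
      ring
    have hv' : ∀ i, (2 * l i ^ 2 + ζ z1) * v (.inr (.inl ⟨(i, i), le_rfl⟩)) = 3 * b i := by
      intro i
      rw [hv]
      linear_combination -3 * hb i
    have hz : ∀ a, v (.inr (.inr a)) = 0 := fun _ => rfl
    have he : v (.inr (.inl e)) =
        3 * (T e + (l e.1.1 * b e.1.2 + l e.1.2 * b e.1.1) / (2 * s)) := rfl
    rw [hv', hv', hz z1, he] at h1
    have h2 : 3 * qf (D0 m z1 z2) (pre (pv l l ζ) l s) v e = 3 * T e := by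
      rw [h1]
      field_simp
      ring
    linarith
  choose V hV using hT
  refine ⟨fun c => V (Pi.single c 1), ?_⟩
  have h1 : QM (D0 m z1 z2) (pre (pv l l ζ) l s) (fun c => V (Pi.single c 1)) = 1 := by
    ext e c
    change qf (D0 m z1 z2) (pre (pv l l ζ) l s) (V (Pi.single c 1)) e = _
    rw [hV, Matrix.one_apply, Pi.single_apply]
  rw [h1, Matrix.det_one]
  exact one_ne_zero

/-- The directions given by the points of the form `pv l l ζ`.

Proof. With `c = ζ z1 ^ 2 η z2 + 2 ζ z1 ζ z2 η z1` and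
`g i = l i (c / s - l i η z1) / (s + l i ^ 3)` the vector `v = pv l g η` satisfies `qf .. v = 0` by
`qf_D0`: `g i = ((2 l i ^ 2 + ζ z1) l i g i + l i ^ 2 η z1) / s - l i c / s ^ 2`, which is clear if
`l i = 0` and follows from `l i ζ z1 = 2 s - l i ^ 3` otherwise. And
`6 D(std i, p, v) - 3 (l i / s) D(p, p, v) = (2 l i ^ 2 + ζ z1) l i g i + l i ^ 2 η z1 -
(l i / s) c = s g i` (`D0_std`, `D0_ppp`). -/
theorem dir_D0 {l : Fin m → ℝ} {s : ℝ} {ζ : κ → ℝ} (h : FP z1 z2 l s ζ) (η : κ → ℝ)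
    (g : Fin m → ℝ) (hg : ∀ i, g i = l i * ((ζ z1 ^ 2 * η z2 + 2 * ζ z1 * ζ z2 * η z1) / s -
      l i * η z1) / (s + l i ^ 3)) :
    (fun i => (l i / s) • pv l g η - (g i / s) • pv l l ζ) ∈ PS (D0 m z1 z2) := by
  have hs := h.s0
  have hp : ∀ j, (pv l l ζ : Ix m (Pr m ⊕ κ) → ℝ) (.inl j) = 0 := fun _ => rfl
  have hv : ∀ j, (pv l g η : Ix m (Pr m ⊕ κ) → ℝ) (.inl j) = 0 := fun _ => rfl
  obtain ⟨c, hc⟩ : ∃ c, c = ζ z1 ^ 2 * η z2 + 2 * ζ z1 * ζ z2 * η z1 := ⟨_, rfl⟩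
  -- the key identity
  have hA : ∀ i, (2 * l i ^ 2 + ζ z1) * (l i * g i) + l i ^ 2 * η z1 =
      s * g i + l i * c / s := by
    intro i
    by_cases hl : l i = 0
    · rw [hg i, hl]; simp
    · have h1 := h.h1 i
      have h2 : l i * ζ z1 = 2 * s - l i ^ 3 := by
        have h3 : l i * (l i * (l i ^ 2 + ζ z1)) = l i * (2 * s) := by linear_combination h1
        have h4 := mul_left_cancel₀ hl h3
        linear_combination h4
      have h5 : g i * (s + l i ^ 3) = l i * (c / s - l i * η z1) := by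
        rw [hg i, ← hc]
        exact div_mul_cancel₀ _ (h.h3 i)
      have h6 : l i * c / s = l i * (c / s) := by ring
      rw [h6]
      linear_combination g i * h2 + h5
  have h2 : ∀ i, 3 * tri (D0 m z1 z2) (std m _ ℝ i) (pv l l ζ) (pv l g η) =
      ((2 * l i ^ 2 + ζ z1) * (l i * g i) + l i ^ 2 * η z1) / 2 := by
    intro i
    rw [D0_std m z1 z2 i _ _ hp hv]
    change (l i * l i + l i * l i) / 2 * ((l i * g i + l i * g i) / 2) +
      ((l i * l i + l i * l i) / 2 * η z1 + ζ z1 * ((l i * g i + l i * g i) / 2)) / 2 = _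
    ring
  have h3 : 3 * tri (D0 m z1 z2) (pv l l ζ) (pv l l ζ) (pv l g η) = c := by
    rw [D0_ppp m z1 z2 _ _ _ hp hp hv, hc]
    change ζ z2 * ζ z1 * η z1 + ζ z1 * ζ z2 * η z1 + ζ z1 * ζ z1 * η z2 = _
    ring
  obtain ⟨g', hg'⟩ := det_pre_D0 h
  refine ⟨pv l l ζ, l, s, g', pv l g η, ⟨fan_D0 h, hp, hg', ?_⟩, ?_⟩
  · funext e
    have h1 := qf_D0 h (pv l g η) hv e
    have hd : ∀ i, (pv l g η : Ix m (Pr m ⊕ κ) → ℝ) (.inr (.inl ⟨(i, i), le_rfl⟩)) =
        l i * g i := by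
      intro i
      change (l i * g i + l i * g i) / 2 = _
      ring
    have he : (pv l g η : Ix m (Pr m ⊕ κ) → ℝ) (.inr (.inl e)) =
        (l e.1.1 * g e.1.2 + l e.1.2 * g e.1.1) / 2 := rfl
    have hz1 : (pv l g η : Ix m (Pr m ⊕ κ) → ℝ) (.inr (.inr z1)) = η z1 := rfl
    have hz2 : (pv l g η : Ix m (Pr m ⊕ κ) → ℝ) (.inr (.inr z2)) = η z2 := rfl
    rw [hd, hd, he, hz1, hz2, hA, hA, ← hc] at h1
    have h4 : 3 * qf (D0 m z1 z2) (pre (pv l l ζ) l s) (pv l g η) e = 0 := by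
      rw [h1]
      field_simp
      ring
    have h5 : qf (D0 m z1 z2) (pre (pv l l ζ) l s) (pv l g η) e = 0 := by linarith
    exact h5
  · funext i
    have h4 : (6 * tri (D0 m z1 z2) (std m _ ℝ i) (pv l l ζ) (pv l g η) -
        3 * (l i / s) * tri (D0 m z1 z2) (pv l l ζ) (pv l l ζ) (pv l g η)) / s ^ 2 = g i / s := by
      have h5 : 6 * tri (D0 m z1 z2) (std m _ ℝ i) (pv l l ζ) (pv l g η) -
          3 * (l i / s) * tri (D0 m z1 z2) (pv l l ζ) (pv l l ζ) (pv l g η) = s * g i := by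
        have h6 := h2 i
        have h7 := hA i
        have h8 : l i * c / s = (l i / s) * c := by ring
        rw [h8] at h7
        linear_combination 2 * h6 + h7 - (l i / s) * h3
      rw [h5]
      field_simp
    change (l i / s) • pv l g η - (g i / s) • pv l l ζ = (l i / s) • pv l g η -
      ((6 * tri (D0 m z1 z2) (std m _ ℝ i) (pv l l ζ) (pv l g η) -
        3 * (l i / s) * tri (D0 m z1 z2) (pv l l ζ) (pv l l ζ) (pv l g η)) / s ^ 2) • pv l l ζ
    rw [h4]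

end Pool.Agent.Helper76.UF
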