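import Pool.Agent.Helper76.UF.St.P9b

/-!
# Linear spaces in cubic hypersurfaces: the explicit form has spanning predecessors
-/

namespace Pool.Agent.Helper76.UF

variable {m : ℕ} {κ : Type*} [Fintype κ] [DecidableEq κ] {z1 z2 : κ}

/-- The tangent vector `u ⊗ (0; η)`. -/
noncomputable def tz (u : Fin m → ℝ) (η : κ → ℝ) : Fin m → Ix m (Pr m ⊕ κ) → ℝ :=
  fun i => u i • pv 0 0 η

/-- The tangent vector `u ⊗ (l g; 0)`. -/
noncomputable def tp (u l g : Fin m → ℝ) : Fin m → Ix m (Pr m ⊕ κ) → ℝ :=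
  fun i => u i • pv l g 0

omit [Fintype κ] [DecidableEq κ] in
theorem p9c_pv (l g : Fin m → ℝ) (η : κ → ℝ) : pv l g η = pv l g 0 + pv 0 0 η := by
  funext x
  rcases x with i | e | a <;> simp [pv]

omit [Fintype κ] [DecidableEq κ] in
theorem p9c_pv_smul (l : Fin m → ℝ) (c : ℝ) (g : Fin m → ℝ) :
    (pv l (c • g) 0 : Ix m (Pr m ⊕ κ) → ℝ) = c • pv l g 0 := by
  funext x
  rcases x with i | e | a <;> simp [pv]
  ring

omit [Fintype κ] [DecidableEq κ] in
theorem p9c_pv_sub (l g g' : Fin m → ℝ) :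
    (pv l (g - g') 0 : Ix m (Pr m ⊕ κ) → ℝ) = pv l g 0 - pv l g' 0 := by
  funext x
  rcases x with i | e | a <;> simp [pv]
  ring

omit [Fintype κ] [DecidableEq κ] in
theorem p9c_tz_smul (u : Fin m → ℝ) (c : ℝ) (η : κ → ℝ) :
    tz u (c • η) = c • tz u η := by
  funext i x
  rcases x with i | e | a <;> simp [pv, tz]
  ring

omit [Fintype κ] [DecidableEq κ] in
theorem p9c_tz_add (u : Fin m → ℝ) (η η' : κ → ℝ) :
    tz u (η + η') = tz u η + tz u η' := by
  funext i x
  rcases x with i | e | a <;> simp [pv, tz]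
  ring

omit [Fintype κ] [DecidableEq κ] in
theorem p9c_tz_add_left (u u' : Fin m → ℝ) (η : κ → ℝ) :
    tz (u + u') η = tz u η + tz u' η := by
  funext i x
  rcases x with i | e | a <;> simp [pv, tz]
  ring

omit [Fintype κ] [DecidableEq κ] in
theorem p9c_tz_smul_left (u : Fin m → ℝ) (c : ℝ) (η : κ → ℝ) :
    tz (c • u) η = c • tz u η := by
  funext i x
  rcases x with i | e | a <;> simp [pv, tz]
  ring

omit [Fintype κ] [DecidableEq κ] in
/-- The direction for `g = γ • l`. -/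
theorem p9c_dir (l : Fin m → ℝ) (s γ : ℝ) (η ζ : κ → ℝ) :
    (fun i => (l i / s) • pv l (γ • l) η - ((γ • l) i / s) • pv l l ζ :
      Fin m → Ix m (Pr m ⊕ κ) → ℝ) = s⁻¹ • tz l (η - γ • ζ) := by
  funext i x
  rcases x with j | e | a <;> simp [pv, tz] <;> ring

/-- The points with three parameters. -/
def p9c_ze (z1 z2 : κ) (a b : ℝ) : κ → ℝ := fun k => if k = z1 then a else if k = z2 then b else 0

omit [Fintype κ] in
theorem p9c_ze1 (a b : ℝ) : p9c_ze z1 z2 a b z1 = a := by simp [p9c_ze]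

omit [Fintype κ] in
theorem p9c_ze2 (hz : z1 ≠ z2) (a b : ℝ) : p9c_ze z1 z2 a b z2 = b := by
  simp [p9c_ze, hz.symm]

/-- The case of a unit vector. -/
theorem p9c_unit (hz : z1 ≠ z2) (i : Fin m) (η : κ → ℝ) :
    tz (Pi.single i 1) η ∈ Submodule.span ℝ (PS (D0 m z1 z2)) := by
  have hu : ∀ j, (Pi.single i (1 : ℝ) : Fin m → ℝ) j = 0 ∨
      (Pi.single i (1 : ℝ) : Fin m → ℝ) j = 1 := by
    intro j
    by_cases h : j = i
    · subst h
      right
      simp
    · left
      simp [h]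
  generalize (Pi.single i (1 : ℝ) : Fin m → ℝ) = u at hu
  -- first family
  have hA : ∀ η : κ → ℝ, η z1 + η z2 = 0 → tz u η ∈ Submodule.span ℝ (PS (D0 m z1 z2)) := by
    intro η h0
    have hF : FP z1 z2 u 1 (p9c_ze z1 z2 1 1) := by
      refine ⟨fun j => ?_, ?_, one_ne_zero, fun j => ?_⟩
      · rw [p9c_ze1]
        rcases hu j with h | h <;> rw [h] <;> norm_num
      · rw [p9c_ze1, p9c_ze2 hz]
        norm_num
      · rcases hu j with h | h <;> rw [h] <;> norm_num
    have hd := dir_D0 hF η ((0 : ℝ) • u) (by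
      intro j
      rw [p9c_ze1, p9c_ze2 hz, Pi.smul_apply, smul_eq_mul]
      rcases hu j with h | h
      · rw [h]
        norm_num
      · rw [h]
        have : η z2 = - η z1 := by linarith
        rw [this]
        norm_num
        ring)
    rw [p9c_dir] at hd
    have h2 := Submodule.subset_span (R := ℝ) hd
    simpa using h2
  -- second point
  have hB : tz u (p9c_ze z1 z2 (3/5) (-9/80)) ∈ Submodule.span ℝ (PS (D0 m z1 z2)) := by
    have hF : FP z1 z2 u (3/2) (p9c_ze z1 z2 2 (9/16)) := by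
      refine ⟨fun j => ?_, ?_, by norm_num, fun j => ?_⟩
      · rw [p9c_ze1]
        rcases hu j with h | h <;> rw [h] <;> norm_num
      · rw [p9c_ze1, p9c_ze2 hz]
        norm_num
      · rcases hu j with h | h <;> rw [h] <;> norm_num
    have hd := dir_D0 hF (p9c_ze z1 z2 1 0) ((1/5 : ℝ) • u) (by
      intro j
      rw [p9c_ze1, p9c_ze2 hz, p9c_ze1, p9c_ze2 hz, Pi.smul_apply, smul_eq_mul]
      rcases hu j with h | h <;> rw [h] <;> norm_num)
    rw [p9c_dir] at hd
    have h2 := Submodule.smul_mem _ (3/2 : ℝ) (Submodule.subset_span (R := ℝ) hd)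
    rw [smul_smul, mul_inv_cancel₀ (by norm_num), one_smul] at h2
    have h3 : p9c_ze z1 z2 1 0 - (1/5 : ℝ) • p9c_ze z1 z2 2 (9/16) =
        p9c_ze z1 z2 (3/5) (-9/80) := by
      funext k
      simp only [p9c_ze, Pi.sub_apply, Pi.smul_apply, smul_eq_mul]
      split_ifs <;> norm_num
    rwa [h3] at h2
  have hC := hA (η - ((η z1 + η z2) * (80/39)) • p9c_ze z1 z2 (3/5) (-9/80)) (by
    simp only [Pi.sub_apply, Pi.smul_apply, smul_eq_mul]
    rw [p9c_ze1, p9c_ze2 hz]
    ring)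
  have hD := Submodule.add_mem _ hC (Submodule.smul_mem _ ((η z1 + η z2) * (80/39)) hB)
  rw [← p9c_tz_smul, ← p9c_tz_add, sub_add_cancel] at hD
  exact hD

/-- Proof. Let `u = Pi.single i 1`. The points `l = u` with `(s, ζ z1, ζ z2) = (1, 1, 1)` and
`(3/2, 2, 9/16)` and the other `ζ a = 0` satisfy `FP`. By `dir_D0`, with `g = g i • u` (so the parts
with `p_ij` cancel) the direction is `(1/s) tz u (η - g i • ζ)`. In the first case
`g i = (η z1 + η z2) / 2` and `η - g i ζ` is `((η z1 - η z2)/2, (η z2 - η z1)/2)` in the coordinates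
`z1`, `z2` and `η` in the others; in the second case `g i = (16/15) η z2 + (1/5) η z1` and
`η = e_{z1}` gives a multiple of `(16, -3)`. These vectors span. -/
theorem span_z (hz : z1 ≠ z2) (u : Fin m → ℝ) (η : κ → ℝ) :
    tz u η ∈ Submodule.span ℝ (PS (D0 m z1 z2)) := by
  have h : tz u η = ∑ i, u i • tz (Pi.single i 1) η := by
    funext j
    rw [Finset.sum_apply, Finset.sum_eq_single j]
    · simp [tz]
    · intro b _ hb
      simp [tz, hb.symm]
    · intro hj
      exact absurd (Finset.mem_univ j) hj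
  rw [h]
  exact Submodule.sum_mem _ fun i _ => Submodule.smul_mem _ _ (p9c_unit hz i η)

/-- Proof. Let `l = x` be a vector with coordinates in `{0, 1, 2}` and let `B` be the indicator of the
coordinates with `x i = 2`. The point `l = x`, `s = -3`, `ζ z1 = -7`, `ζ z2 = 9/49`, other
`ζ a = 0` satisfies `FP` (`1 * (1 - 7) = -6`, `4 (4 - 7) = -12`, `s + 1 = -2`, `s + 8 = 5`). In
`dir_D0` with `η = e_{z2}`, `g i = l i (-49/3) / (s + l i ^ 3)`, which is `49/6` if `l i = 1` and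
`-98/15` if `l i = 2`, so `g = (49/6) (l - (14/5) B)`, and the direction is
`(1/s) (tp l l g - tp g l l + tz ..) = (49/18) (14/5) (tp l l B - tp B l l) + tz ..` (as
`tp l l l - tp l l l = 0`); the vectors `tz` are in the span by `span_z`. -/
theorem span_AB (hz : z1 ≠ z2) (x B : Fin m → ℝ)
    (h : ∀ i, (x i = 0 ∧ B i = 0) ∨ (x i = 1 ∧ B i = 0) ∨ (x i = 2 ∧ B i = 1)) :
    (tp x x B - tp B x x : Fin m → Ix m (Pr m ⊕ κ) → ℝ) ∈
      Submodule.span ℝ (PS (D0 m z1 z2)) := by
  have hF : FP z1 z2 x (-3) (p9c_ze z1 z2 (-7) (9/49)) := by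
    refine ⟨fun j => ?_, ?_, by norm_num, fun j => ?_⟩
    · rw [p9c_ze1]
      rcases h j with h | h | h <;> rw [h.1] <;> norm_num
    · rw [p9c_ze1, p9c_ze2 hz]
      norm_num
    · rcases h j with h | h | h <;> rw [h.1] <;> norm_num
  have hd := dir_D0 hF (p9c_ze z1 z2 0 1) ((49/6 : ℝ) • x - (343/15 : ℝ) • B) (by
    intro j
    rw [p9c_ze1, p9c_ze2 hz, p9c_ze1, p9c_ze2 hz, Pi.sub_apply, Pi.smul_apply, Pi.smul_apply,
      smul_eq_mul, smul_eq_mul]
    rcases h j with h | h | h <;> rw [h.1, h.2] <;> norm_num)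
  have h2 := Submodule.smul_mem _ (15 * 3 / 343 : ℝ) (Submodule.subset_span (R := ℝ) hd)
  have e : (tp x x B - tp B x x : Fin m → Ix m (Pr m ⊕ κ) → ℝ) =
      (15 * 3 / 343 : ℝ) • (fun i => (x i / (-3)) • pv x ((49/6 : ℝ) • x - (343/15 : ℝ) • B)
          (p9c_ze z1 z2 0 1) -
        (((49/6 : ℝ) • x - (343/15 : ℝ) • B) i / (-3)) • pv x x (p9c_ze z1 z2 (-7) (9/49))) +
      ((15 / 343 : ℝ) • tz x (p9c_ze z1 z2 0 1) -
        (15 / 343 : ℝ) • tz ((49/6 : ℝ) • x - (343/15 : ℝ) • B) (p9c_ze z1 z2 (-7) (9/49))) := by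
    funext i y
    rcases y with j | e | a
    · simp [pv, tz, tp]
    · simp [pv, tz, tp]
      ring
    · simp [pv, tz, tp]
      ring
  rw [e]
  exact Submodule.add_mem _ h2 (Submodule.sub_mem _ (Submodule.smul_mem _ _ (span_z hz _ _))
    (Submodule.smul_mem _ _ (span_z hz _ _)))

end Pool.Agent.Helper76.UF
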